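import Mathlib

section

/-!
# Cech lemmas for the chart rings `R[1/f]` inside a common over-ring

`T` is an `R`-algebra with `R → T` injective (for instance the fraction field of a domain `R`).
`chart T f` is the subalgebra of all `x : T` with `f ^ N * x ∈ R` for some `N`.
-/

namespace LicciCodimFour

open RingTheory.Sequence

universe u v w

section Reg3

variable {R : Type u} [CommRing R]

/-- The elementary form of: `a, b, c` is a weakly regular sequence on `R`. -/
structure Reg3 (a b c : R) : Prop where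
  one : ∀ x, a * x = 0 → x = 0
  two : ∀ x z, b * x = a * z → ∃ w, x = a * w
  three : ∀ x p q, c * x = a * p + b * q → ∃ p' q', x = a * p' + b * q'

theorem Reg3.of_isWeaklyRegular {a b c : R} (h : IsWeaklyRegular R [a, b, c]) : Reg3 a b c := by
  have hsm : ∀ (I : Ideal R) (x : R), x ∈ I • (⊤ : Submodule R R) ↔ x ∈ I := by
    intro I x
    rw [show I • (⊤ : Submodule R R) = I * ⊤ from rfl, Ideal.mul_top]
  have key : ∀ (I : Ideal R) (r : R), IsSMulRegular (R ⧸ (I • (⊤ : Submodule R R))) r →
      ∀ x, r * x ∈ I → x ∈ I := by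
    intro I r hr x hx
    have h4 := hr (a₁ := Submodule.Quotient.mk x) (a₂ := 0) (by
      simp only [smul_zero]
      rw [← Submodule.Quotient.mk_smul, Submodule.Quotient.mk_eq_zero, hsm]
      exact hx)
    rw [Submodule.Quotient.mk_eq_zero, hsm] at h4
    exact h4
  rw [isWeaklyRegular_iff] at h
  have h0 := key _ _ (h 0 (by simp))
  have h1 := key _ _ (h 1 (by simp))
  have h2 := key _ _ (h 2 (by simp))
  have s0 : Ideal.ofList (List.take 0 [a, b, c]) = ⊥ := by simp
  have s1 : Ideal.ofList (List.take 1 [a, b, c]) = Ideal.span {a} := by simp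
  have s2 : Ideal.ofList (List.take 2 [a, b, c]) = Ideal.span {a, b} := by
    simp [Ideal.ofList_cons, Ideal.span_insert]
  rw [s0] at h0
  rw [s1] at h1
  rw [s2] at h2
  refine ⟨?_, ?_, ?_⟩
  · intro x hx
    have := h0 x (by simpa using hx)
    simpa using this
  · intro x z hx
    have := h1 x (by
      rw [Ideal.mem_span_singleton']
      exact ⟨z, by simp only [List.getElem_cons_succ, List.getElem_cons_zero]; rw [hx, mul_comm]⟩)
    rw [Ideal.mem_span_singleton'] at this
    obtain ⟨w, hw⟩ := this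
    exact ⟨w, by rw [← hw, mul_comm]⟩
  · intro x p q hx
    have := h2 x (by
      rw [Ideal.mem_span_pair]
      exact ⟨p, q, by
        simp only [List.getElem_cons_succ, List.getElem_cons_zero]; rw [hx]; ring⟩)
    rw [Ideal.mem_span_pair] at this
    obtain ⟨p', q', hw⟩ := this
    exact ⟨p', q', by rw [← hw]; ring⟩

theorem Reg3.one_pow {a b c : R} (h : Reg3 a b c) (n : ℕ) (x : R) (hx : a ^ n * x = 0) :
    x = 0 := by
  induction n with
  | zero => simpa using hx
  | succ n ih =>
    apply ih
    apply h.one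
    rw [← mul_assoc, ← pow_succ']
    exact hx

/-- raise the first element to a power -/
theorem Reg3.pow_left {a b c : R} (h : Reg3 a b c) (n : ℕ) : Reg3 (a ^ n) b c := by
  refine ⟨fun x hx => h.one_pow n x hx, ?_, ?_⟩
  · induction n with
    | zero => intro x z _; exact ⟨x, by simp⟩
    | succ n ih =>
      intro x z hx
      obtain ⟨w, rfl⟩ := ih x (a * z) (by rw [hx]; ring)
      have h1 : a ^ n * (b * w - a * z) = 0 := by
        linear_combination hx
      have h2 := h.one_pow n _ h1
      obtain ⟨w', rfl⟩ := h.two w z (by linear_combination h2)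
      exact ⟨w', by ring⟩
  · induction n with
    | zero => intro x p q _; exact ⟨x, 0, by simp⟩
    | succ n ih =>
      intro x p q hx
      obtain ⟨s, t, rfl⟩ := h.three x (a ^ n * p) q (by rw [hx]; ring)
      obtain ⟨e, he⟩ := h.two (q - c * t) (c * s - a ^ n * p) (by linear_combination -hx)
      have h1 : c * s = a ^ n * p + b * e := by
        have : a * (c * s - (a ^ n * p + b * e)) = 0 := by
          linear_combination hx + b * he
        have := h.one _ this
        linear_combination this
      obtain ⟨p', q', rfl⟩ := ih s p e h1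
      exact ⟨p', a * q' + t, by ring⟩

/-- raise the second element to a power -/
theorem Reg3.pow_mid {a b c : R} (h : Reg3 a b c) (m : ℕ) : Reg3 a (b ^ m) c := by
  refine ⟨h.one, ?_, ?_⟩
  · induction m with
    | zero => intro x z hx; exact ⟨z, by simpa using hx⟩
    | succ m ih =>
      intro x z hx
      obtain ⟨w, hw⟩ := h.two (b ^ m * x) z (by rw [← hx]; ring)
      exact ih x w hw
  · induction m with
    | zero => intro x p q _; exact ⟨0, x, by simp⟩
    | succ m ih =>
      intro x p q hx
      obtain ⟨s, t, rfl⟩ := h.three x p (b ^ m * q) (by rw [hx]; ring)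
      obtain ⟨e, he⟩ := h.two (c * t - b ^ m * q) (p - c * s) (by linear_combination hx)
      obtain ⟨p', q', rfl⟩ := ih t e q (by linear_combination he)
      exact ⟨s + b * p', q', by ring⟩

/-- raise the third element to a power -/
theorem Reg3.pow_right {a b c : R} (h : Reg3 a b c) (k : ℕ) : Reg3 a b (c ^ k) := by
  refine ⟨h.one, h.two, ?_⟩
  induction k with
  | zero => intro x p q hx; exact ⟨p, q, by simpa using hx⟩
  | succ k ih =>
    intro x p q hx
    obtain ⟨p', q', h1⟩ := h.three (c ^ k * x) p q (by rw [← hx]; ring)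
    exact ih x p' q' h1

theorem Reg3.pow {a b c : R} (h : Reg3 a b c) (n m k : ℕ) : Reg3 (a ^ n) (b ^ m) (c ^ k) :=
  ((h.pow_left n).pow_mid m).pow_right k

end Reg3

section Chart

variable {R : Type u} [CommRing R] (T : Type v) [CommRing T] [Algebra R T]

/-- the elements of `T` which lie in `R[1/f]` -/
def chart (f : R) : Subalgebra R T where
  carrier := {x | ∃ (N : ℕ) (r : R), algebraMap R T f ^ N * x = algebraMap R T r}
  mul_mem' := by
    rintro x y ⟨N, r, hx⟩ ⟨M, s, hy⟩
    exact ⟨N + M, r * s, by rw [map_mul, ← hx, ← hy]; ring⟩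
  add_mem' := by
    rintro x y ⟨N, r, hx⟩ ⟨M, s, hy⟩
    exact ⟨N + M, f ^ M * r + f ^ N * s, by
      rw [map_add, map_mul, map_mul, ← hx, ← hy, map_pow, map_pow]; ring⟩
  algebraMap_mem' r := ⟨0, r, by simp⟩

variable {T}

theorem mem_chart {f : R} {x : T} :
    x ∈ chart T f ↔ ∃ (N : ℕ) (r : R), algebraMap R T f ^ N * x = algebraMap R T r := Iff.rfl

theorem mem_chart_of_le {f : R} {x : T} {N : ℕ} {r : R}
    (h : algebraMap R T f ^ N * x = algebraMap R T r) {M : ℕ} (hM : N ≤ M) :
    ∃ s : R, algebraMap R T f ^ M * x = algebraMap R T s := by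
  obtain ⟨k, rfl⟩ := Nat.exists_eq_add_of_le hM
  exact ⟨f ^ k * r, by rw [map_mul, ← h, map_pow]; ring⟩

theorem mem_chart_mul_right {f : R} (g : R) {x : T} (h : x ∈ chart T f) : x ∈ chart T (f * g) := by
  obtain ⟨N, r, h⟩ := h
  exact ⟨N, g ^ N * r, by rw [map_mul, map_mul, ← h, map_pow]; ring⟩

theorem mem_chart_mul_left {f : R} (g : R) {x : T} (h : x ∈ chart T f) : x ∈ chart T (g * f) := by
  rw [mul_comm]
  exact mem_chart_mul_right g h

theorem mem_chart_of_pow_mul {f g : R} {x : T} {N : ℕ}
    (h : algebraMap R T f ^ N * x ∈ chart T g) : x ∈ chart T (f * g) := by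
  obtain ⟨M, r, h⟩ := h
  exact ⟨N + M, f ^ M * g ^ N * r, by
    simp only [map_mul, map_pow, ← h]; ring⟩

theorem exists_pow_mul_mem_chart {f g : R} {x : T} (h : x ∈ chart T (f * g)) :
    ∃ N : ℕ, algebraMap R T f ^ N * x ∈ chart T g := by
  obtain ⟨N, r, h⟩ := h
  exact ⟨N, N, r, by rw [← h, map_mul]; ring⟩

theorem inv_mem_chart {f : R} {x : T} (h : algebraMap R T f * x = 1) : x ∈ chart T f :=
  ⟨1, 1, by simpa using h⟩

theorem mem_chart_one {x : T} : x ∈ chart T (1 : R) ↔ ∃ r : R, x = algebraMap R T r := by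
  constructor
  · rintro ⟨N, r, h⟩
    exact ⟨r, by simpa using h⟩
  · rintro ⟨r, rfl⟩
    exact (chart T (1 : R)).algebraMap_mem r

/-- `⋂ R[1/(g f_a)] ⊆ R[1/(g y)]` for `y` in the ideal generated by the `f_a`. -/
theorem mem_chart_of_cover {A : Type w} [Finite A] (f : A → R) (g y : R)
    (hy : y ∈ Ideal.span (Set.range f)) {x : T} (hx : ∀ a, x ∈ chart T (g * f a)) :
    x ∈ chart T (g * y) := by
  cases nonempty_fintype A
  choose N r hr using hx
  obtain ⟨K, hK⟩ : ∃ K, ∀ a, N a ≤ K := ⟨∑ a, N a, fun a =>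
    Finset.single_le_sum (f := N) (fun _ _ => Nat.zero_le _) (Finset.mem_univ a)⟩
  have hs : ∀ a, ∃ s : R, algebraMap R T (g * f a) ^ K * x = algebraMap R T s := fun a =>
    mem_chart_of_le (hr a) (hK a)
  choose s hs using hs
  have hrad : y ∈ (Ideal.span (Set.range fun a => f a ^ K)).radical := by
    have hle : Ideal.span (Set.range f) ≤ (Ideal.span (Set.range fun a => f a ^ K)).radical := by
      rw [Ideal.span_le]
      rintro _ ⟨a, rfl⟩
      exact ⟨K, Ideal.subset_span ⟨a, rfl⟩⟩
    exact hle hy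
  obtain ⟨M, hM⟩ := hrad
  rw [Ideal.mem_span_range_iff_exists_fun] at hM
  obtain ⟨c, hc⟩ := hM
  refine ⟨K + M, y ^ K * g ^ M * ∑ a, c a * s a, ?_⟩
  have h1 : algebraMap R T g ^ K * algebraMap R T y ^ M * x
      = algebraMap R T (∑ a, c a * s a) := by
    rw [← map_pow _ y, ← hc, map_sum, map_sum, Finset.mul_sum, Finset.sum_mul]
    refine Finset.sum_congr rfl fun a _ => ?_
    rw [map_mul, map_mul, ← hs, map_mul, map_pow]
    ring
  rw [map_mul (algebraMap R T) _ (∑ a, c a * s a), ← h1, map_mul, map_mul, map_pow, map_pow]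
  ring

/-- If `y₁, y₂` is a weakly regular sequence then `R[1/(g y₁)] ∩ R[1/(g y₂)] = R[1/g]`. -/
theorem mem_chart_of_inter (hinj : Function.Injective (algebraMap R T)) {a b c : R}
    (h : Reg3 a b c) {g : R} (hg : IsUnit (algebraMap R T g)) (ha : IsUnit (algebraMap R T a))
    {x : T} (h1 : x ∈ chart T (g * a)) (h2 : x ∈ chart T (g * b)) : x ∈ chart T g := by
  obtain ⟨N, r, hr⟩ := h1
  obtain ⟨M, s, hs⟩ := h2
  obtain ⟨r, hr⟩ := mem_chart_of_le hr (le_max_left N M)
  obtain ⟨s, hs⟩ := mem_chart_of_le hs (le_max_right N M)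
  set K := max N M
  have h3 : algebraMap R T (b ^ K * r) = algebraMap R T (a ^ K * s) := by
    apply (hg.pow K).mul_left_cancel
    rw [map_mul, map_mul, ← hr, ← hs]
    simp only [map_mul, map_pow]
    ring
  obtain ⟨w, hw⟩ := (h.pow K K 1).two r s (hinj h3)
  refine ⟨K, w, ?_⟩
  apply (ha.pow K).mul_left_cancel
  rw [← map_pow _ a, ← map_mul _ (a ^ K), ← hw, ← hr, map_mul, map_pow]
  ring

/-- If `y₁, y₂` is a weakly regular sequence then `R[1/y₁] ∩ R[1/y₂] = R`. -/
theorem exists_eq_algebraMap_of_inter (hinj : Function.Injective (algebraMap R T)) {a b c : R}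
    (h : Reg3 a b c) (ha : IsUnit (algebraMap R T a))
    {x : T} (h1 : x ∈ chart T a) (h2 : x ∈ chart T b) : ∃ r : R, x = algebraMap R T r := by
  rw [← mem_chart_one]
  exact mem_chart_of_inter hinj h (g := 1) (by simp) ha (by simpa using h1) (by simpa using h2)

/-- The Cech lemma for three elements. -/
theorem cech_three (hinj : Function.Injective (algebraMap R T)) {a b c : R}
    (h : Reg3 a b c) (ha : IsUnit (algebraMap R T a)) (hb : IsUnit (algebraMap R T b))
    (hc : IsUnit (algebraMap R T c)) {x12 x23 x13 : T}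
    (h12 : x12 ∈ chart T (a * b)) (h23 : x23 ∈ chart T (b * c)) (h13 : x13 ∈ chart T (a * c))
    (hx : x13 = x12 + x23) :
    ∃ x1 ∈ chart T a, ∃ x2 ∈ chart T b, ∃ x3 ∈ chart T c,
      x12 = x2 - x1 ∧ x23 = x3 - x2 ∧ x13 = x3 - x1 := by
  obtain ⟨N1, r1, e1⟩ := h12
  obtain ⟨N2, r2, e2⟩ := h23
  obtain ⟨N3, r3, e3⟩ := h13
  obtain ⟨N, g1, g2, g3⟩ : ∃ N, N1 ≤ N ∧ N2 ≤ N ∧ N3 ≤ N :=
    ⟨N1 + N2 + N3, by omega, by omega, by omega⟩
  obtain ⟨u, hu⟩ := mem_chart_of_le e1 g1
  obtain ⟨v, hv⟩ := mem_chart_of_le e2 g2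
  obtain ⟨w, hw⟩ := mem_chart_of_le e3 g3
  clear e1 e2 e3
  have hN := h.pow N N N
  -- `b ^ N * w = c ^ N * u + a ^ N * v`
  have e : b ^ N * w = c ^ N * u + a ^ N * v := by
    apply hinj
    rw [map_add, map_mul, map_mul, map_mul, ← hu, ← hv, ← hw, hx]
    simp only [map_mul, map_pow]
    ring
  obtain ⟨p, q, hp⟩ := hN.three u (-v) w (by linear_combination -e)
  obtain ⟨s, hs⟩ := hN.two (w - c ^ N * q) (v + c ^ N * p) (by
    rw [hp] at e
    linear_combination e)
  have hv' : v = b ^ N * s - c ^ N * p := by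
    have h1 : a ^ N * (v - (b ^ N * s - c ^ N * p)) = 0 := by
      rw [hp] at e
      linear_combination -e + b ^ N * hs
    have := hN.one _ h1
    linear_combination this
  obtain ⟨ia, hia⟩ := ha.exists_right_inv
  obtain ⟨ib, hib⟩ := hb.exists_right_inv
  obtain ⟨ic, hic⟩ := hc.exists_right_inv
  have hiaN : algebraMap R T a ^ N * ia ^ N = 1 := by rw [← mul_pow, hia, one_pow]
  have hibN : algebraMap R T b ^ N * ib ^ N = 1 := by rw [← mul_pow, hib, one_pow]
  have hicN : algebraMap R T c ^ N * ic ^ N = 1 := by rw [← mul_pow, hic, one_pow]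
  set A := algebraMap R T a ^ N
  set B := algebraMap R T b ^ N
  set C := algebraMap R T c ^ N
  have hu2 : A * B * x12 = A * algebraMap R T p + B * algebraMap R T q := by
    have := hu
    rw [hp] at this
    simp only [map_mul, map_add, map_pow, mul_pow] at this
    exact this
  have hv2 : B * C * x23 = B * algebraMap R T s - C * algebraMap R T p := by
    have := hv
    rw [hv'] at this
    simp only [map_mul, map_sub, map_pow, mul_pow] at this
    exact this
  refine ⟨-(ia ^ N * algebraMap R T q), ?_, ib ^ N * algebraMap R T p, ?_,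
    ic ^ N * algebraMap R T s, ?_, ?_, ?_, ?_⟩
  · exact neg_mem ⟨N, q, by rw [← mul_assoc, hiaN, one_mul]⟩
  · exact ⟨N, p, by rw [← mul_assoc, hibN, one_mul]⟩
  · exact ⟨N, s, by rw [← mul_assoc, hicN, one_mul]⟩
  · linear_combination (ia ^ N * ib ^ N) * hu2 + (- x12 * B * ib ^ N + ib ^ N * algebraMap R T p) * hiaN + (-x12 + ia ^ N * algebraMap R T q) * hibN
  · linear_combination (ib ^ N * ic ^ N) * hv2 + (- x23 * C * ic ^ N + ic ^ N * algebraMap R T s) * hibN + (-x23 - ib ^ N * algebraMap R T p) * hicN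
  · rw [hx]
    linear_combination (ia ^ N * ib ^ N) * hu2 + (- x12 * B * ib ^ N + ib ^ N * algebraMap R T p) * hiaN + (-x12 + ia ^ N * algebraMap R T q) * hibN + (ib ^ N * ic ^ N) * hv2 + (- x23 * C * ic ^ N + ic ^ N * algebraMap R T s) * hibN + (-x23 - ib ^ N * algebraMap R T p) * hicN

/-- The Cech lemma for a finite cover by the charts of the elements `f a`, provided that the
ideal generated by the `f a` contains a weakly regular sequence of length three. -/
theorem cech_cover (hinj : Function.Injective (algebraMap R T)) {A : Type w} [Finite A]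
    (f : A → R) (hf : ∀ a, IsUnit (algebraMap R T (f a))) {y1 y2 y3 : R} (h : Reg3 y1 y2 y3)
    (m1 : y1 ∈ Ideal.span (Set.range f)) (m2 : y2 ∈ Ideal.span (Set.range f))
    (m3 : y3 ∈ Ideal.span (Set.range f)) (u1 : IsUnit (algebraMap R T y1))
    (u2 : IsUnit (algebraMap R T y2)) (u3 : IsUnit (algebraMap R T y3))
    (x : A → A → T) (hx : ∀ a b, x a b ∈ chart T (f a * f b))
    (hc : ∀ a b c, x a b + x b c = x a c) :
    ∃ z : A → T, (∀ a, z a ∈ chart T (f a)) ∧ ∀ a b, x a b = z b - z a := by
  rcases isEmpty_or_nonempty A with hA | ⟨⟨a0⟩⟩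
  · exact ⟨fun a => isEmptyElim a, fun a => isEmptyElim a, fun a => isEmptyElim a⟩
  cases nonempty_fintype A
  -- a common exponent
  obtain ⟨N, s, hs⟩ : ∃ (N : ℕ) (s : A → A → R), ∀ a b,
      algebraMap R T (f a * f b) ^ N * x a b = algebraMap R T (s a b) := by
    choose N r hr using hx
    have hK : ∀ a b, N a b ≤ ∑ a, ∑ b, N a b := fun a b =>
      (Finset.single_le_sum (f := N a) (fun _ _ => Nat.zero_le _) (Finset.mem_univ b)).trans
        (Finset.single_le_sum (f := fun a => ∑ b, N a b) (fun _ _ => Nat.zero_le _)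
          (Finset.mem_univ a))
    choose s hs using fun a b => mem_chart_of_le (hr a b) (hK a b)
    exact ⟨_, s, hs⟩
  -- the local solution on the chart of `y`
  have loc : ∀ y ∈ Ideal.span (Set.range f), IsUnit (algebraMap R T y) →
      ∃ z : A → T, (∀ a, z a ∈ chart T (f a * y)) ∧ ∀ a b, x a b = z b - z a := by
    intro y hy uy
    have hrad : y ∈ (Ideal.span (Set.range fun a => f a ^ N)).radical := by
      have hle : Ideal.span (Set.range f) ≤
          (Ideal.span (Set.range fun a => f a ^ N)).radical := by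
        rw [Ideal.span_le]
        rintro _ ⟨a, rfl⟩
        exact ⟨N, Ideal.subset_span ⟨a, rfl⟩⟩
      exact hle hy
    obtain ⟨M, hM⟩ := hrad
    rw [Ideal.mem_span_range_iff_exists_fun] at hM
    obtain ⟨c, hcM⟩ := hM
    obtain ⟨i, hi⟩ := uy.exists_right_inv
    have hiM : i ^ M * algebraMap R T y ^ M = 1 := by rw [← mul_pow, mul_comm i, hi, one_pow]
    refine ⟨fun a => i ^ M * ∑ b, algebraMap R T (c b) * (algebraMap R T (f b) ^ N * x b a),
      ?_, ?_⟩
    · intro a
      apply mem_chart_of_pow_mul (N := N)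
      refine ⟨M, ∑ b, c b * s b a, ?_⟩
      rw [map_sum]
      have : algebraMap R T y ^ M * (algebraMap R T (f a) ^ N *
          (i ^ M * ∑ b, algebraMap R T (c b) * (algebraMap R T (f b) ^ N * x b a)))
          = (i ^ M * algebraMap R T y ^ M) * (algebraMap R T (f a) ^ N *
          ∑ b, algebraMap R T (c b) * (algebraMap R T (f b) ^ N * x b a)) := by ring
      rw [this, hiM, one_mul, Finset.mul_sum]
      refine Finset.sum_congr rfl fun b _ => ?_
      rw [map_mul, ← hs, map_mul]
      ring
    · intro a b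
      have h1 : ∀ e, x e b = x e a + x a b := fun e => (hc e a b).symm
      have h2 : ∑ e, algebraMap R T (c e) * (algebraMap R T (f e) ^ N * x e b)
          = ∑ e, algebraMap R T (c e) * (algebraMap R T (f e) ^ N * x e a)
            + algebraMap R T y ^ M * x a b := by
        rw [← map_pow, ← hcM, map_sum, Finset.sum_mul, ← Finset.sum_add_distrib]
        refine Finset.sum_congr rfl fun e _ => ?_
        rw [h1 e, map_mul, map_pow]
        ring
      simp only [h2]
      linear_combination (-x a b) * hiM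
  obtain ⟨z1, hz1, e1⟩ := loc y1 m1 u1
  obtain ⟨z2, hz2, e2⟩ := loc y2 m2 u2
  obtain ⟨z3, hz3, e3⟩ := loc y3 m3 u3
  -- the differences do not depend on `a`
  have d12 : ∀ a, z1 a - z2 a = z1 a0 - z2 a0 := fun a => by
    linear_combination (e1 a0 a).symm.trans (e2 a0 a)
  have d23 : ∀ a, z2 a - z3 a = z2 a0 - z3 a0 := fun a => by
    linear_combination (e2 a0 a).symm.trans (e3 a0 a)
  have d13 : ∀ a, z1 a - z3 a = z1 a0 - z3 a0 := fun a => by
    linear_combination (e1 a0 a).symm.trans (e3 a0 a)
  have c12 : z1 a0 - z2 a0 ∈ chart T (y1 * y2) := by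
    have : z1 a0 - z2 a0 ∈ chart T ((y1 * y2) * y1) := by
      apply mem_chart_of_cover f (y1 * y2) y1 m1
      intro a
      rw [← d12 a]
      apply sub_mem
      · have := mem_chart_mul_right y2 (hz1 a)
        rwa [show f a * y1 * y2 = y1 * y2 * f a by ring] at this
      · have := mem_chart_mul_right y1 (hz2 a)
        rwa [show f a * y2 * y1 = y1 * y2 * f a by ring] at this
    obtain ⟨K, r, hr⟩ := this
    refine ⟨K + K, y2 ^ K * r, ?_⟩
    rw [map_mul (algebraMap R T) _ r, ← hr]
    simp only [map_mul, map_pow]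
    ring
  have c23 : z2 a0 - z3 a0 ∈ chart T (y2 * y3) := by
    have : z2 a0 - z3 a0 ∈ chart T ((y2 * y3) * y2) := by
      apply mem_chart_of_cover f (y2 * y3) y2 m2
      intro a
      rw [← d23 a]
      apply sub_mem
      · have := mem_chart_mul_right y3 (hz2 a)
        rwa [show f a * y2 * y3 = y2 * y3 * f a by ring] at this
      · have := mem_chart_mul_right y2 (hz3 a)
        rwa [show f a * y3 * y2 = y2 * y3 * f a by ring] at this
    obtain ⟨K, r, hr⟩ := this
    refine ⟨K + K, y3 ^ K * r, ?_⟩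
    rw [map_mul (algebraMap R T) _ r, ← hr]
    simp only [map_mul, map_pow]
    ring
  have c13 : z1 a0 - z3 a0 ∈ chart T (y1 * y3) := by
    have : z1 a0 - z3 a0 ∈ chart T ((y1 * y3) * y1) := by
      apply mem_chart_of_cover f (y1 * y3) y1 m1
      intro a
      rw [← d13 a]
      apply sub_mem
      · have := mem_chart_mul_right y3 (hz1 a)
        rwa [show f a * y1 * y3 = y1 * y3 * f a by ring] at this
      · have := mem_chart_mul_right y1 (hz3 a)
        rwa [show f a * y3 * y1 = y1 * y3 * f a by ring] at this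
    obtain ⟨K, r, hr⟩ := this
    refine ⟨K + K, y3 ^ K * r, ?_⟩
    rw [map_mul (algebraMap R T) _ r, ← hr]
    simp only [map_mul, map_pow]
    ring
  obtain ⟨v1, hv1, v2, hv2, v3, hv3, f12, f23, f13⟩ :=
    cech_three hinj h u1 u2 u3 c12 c23 c13 (by ring)
  refine ⟨fun a => z1 a + v1, ?_, ?_⟩
  · intro a
    have g1 : z1 a + v1 ∈ chart T (f a * y1) :=
      add_mem (hz1 a) (mem_chart_mul_left (f a) hv1)
    have g2 : z1 a + v1 ∈ chart T (f a * y2) := by
      have : z1 a + v1 = z2 a + v2 := by linear_combination d12 a + f12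
      rw [this]
      exact add_mem (hz2 a) (mem_chart_mul_left (f a) hv2)
    exact mem_chart_of_inter hinj h (hf a) u1 g1 g2
  · intro a b
    rw [e1 a b]
    ring

/-- Coordinatewise version of the Cech lemma. -/
theorem cech_cover_pi (hinj : Function.Injective (algebraMap R T)) {A : Type w} [Finite A]
    (f : A → R) (hf : ∀ a, IsUnit (algebraMap R T (f a))) {y1 y2 y3 : R} (h : Reg3 y1 y2 y3)
    (m1 : y1 ∈ Ideal.span (Set.range f)) (m2 : y2 ∈ Ideal.span (Set.range f))
    (m3 : y3 ∈ Ideal.span (Set.range f)) (u1 : IsUnit (algebraMap R T y1))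
    (u2 : IsUnit (algebraMap R T y2)) (u3 : IsUnit (algebraMap R T y3))
    {ι : Type*} (x : A → A → ι → T) (hx : ∀ a b i, x a b i ∈ chart T (f a * f b))
    (hc : ∀ a b c, x a b + x b c = x a c) :
    ∃ z : A → ι → T, (∀ a i, z a i ∈ chart T (f a)) ∧ ∀ a b, x a b = z b - z a := by
  have key : ∀ i, ∃ z : A → T, (∀ a, z a ∈ chart T (f a)) ∧ ∀ a b, x a b i = z b - z a :=
    fun i => cech_cover hinj f hf h m1 m2 m3 u1 u2 u3 (fun a b => x a b i) (fun a b => hx a b i)
      (fun a b c => congrFun (hc a b c) i)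
  choose z hz hz' using key
  exact ⟨fun a i => z i a, fun a i => hz i a, fun a b => funext fun i => hz' i a b⟩

end Chart

end LicciCodimFour

end

section

/-!
# Block (U), base definitions

`R` a commutative ring, `T` an `R`-algebra, `f : Fin 3 → R` with `R → T` injective and all `f i`
units in `T`.  `Rl R T a` = elements of `T` with denominator a power of `a`.
-/

namespace Pool.Agent.Licci.U

open Module

section loc

variable (R : Type*) [CommRing R] (T : Type*) [CommRing T] [Algebra R T]

/-- the elements `x` of `T` with `a ^ N * x` in the image of `R` for some `N`. -/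
def Rl (a : R) : Subalgebra R T where
  carrier := {x | ∃ (N : ℕ) (r : R), algebraMap R T a ^ N * x = algebraMap R T r}
  mul_mem' := by
    rintro x y ⟨N, r, h⟩ ⟨M, s, h'⟩
    refine ⟨N + M, r * s, ?_⟩
    rw [pow_add, map_mul, ← h, ← h']; ring
  add_mem' := by
    rintro x y ⟨N, r, h⟩ ⟨M, s, h'⟩
    refine ⟨N + M, a ^ M * r + a ^ N * s, ?_⟩
    rw [pow_add, map_add, map_mul, map_mul, map_pow, map_pow, ← h, ← h']; ring
  algebraMap_mem' := fun r => ⟨0, r, by simp⟩

theorem mem_Rl {a : R} {x : T} :
    x ∈ Rl R T a ↔ ∃ (N : ℕ) (r : R), algebraMap R T a ^ N * x = algebraMap R T r := Iff.rfl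

end loc

/-- the covering data: `R → T` injective, three elements which are units in `T`. -/
structure Cov (R : Type*) [CommRing R] (T : Type*) [CommRing T] [Algebra R T] where
  f : Fin 3 → R
  inj : Function.Injective (algebraMap R T)
  unit : ∀ i, IsUnit (algebraMap R T (f i))

namespace Cov

variable {R : Type*} [CommRing R] {T : Type*} [CommRing T] [Algebra R T] (C : Cov R T)

/-- the chart ring `R_i`. -/
def R1 (i : Fin 3) : Subalgebra R T := Rl R T (C.f i)

/-- the overlap ring `R_ij`. -/
def R2 (i j : Fin 3) : Subalgebra R T := Rl R T (C.f i * C.f j)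

/-- module elements with coordinates in the chart ring -/
def E1 {S : Type*} [AddCommGroup S] [Module T S] {r : ℕ} (ε : Fin 3 → Basis (Fin r) T S)
    (i : Fin 3) (x : S) : Prop := ∀ a, (ε i).repr x a ∈ C.R1 i

/-- module elements with coordinates in the overlap ring -/
def E2 {S : Type*} [AddCommGroup S] [Module T S] {r : ℕ} (ε : Fin 3 → Basis (Fin r) T S)
    (i j : Fin 3) (x : S) : Prop := ∀ a, (ε i).repr x a ∈ C.R2 i j

end Cov

end Pool.Agent.Licci.U

end

section

/-!
# Block (U3), part 1: localised submodules and elementary facts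
-/

namespace Pool.Agent.Licci.U

open Module IsLocalRing

section EL

variable {R : Type*} [CommRing R] {S : Type*} [AddCommGroup S] [Module R S]

/-- elements `x` of `S` with `g ^ N • x ∈ M` for some `N`. -/
def EL (M : Submodule R S) (g : R) : Submodule R S where
  carrier := {x | ∃ N : ℕ, g ^ N • x ∈ M}
  add_mem' := by
    rintro x y ⟨N, h⟩ ⟨K, h'⟩
    refine ⟨N + K, ?_⟩
    have e1 : g ^ (N + K) • (x + y) = g ^ K • (g ^ N • x) + g ^ N • (g ^ K • y) := by
      rw [smul_add, smul_smul, smul_smul, ← pow_add, ← pow_add, add_comm K N]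
    rw [e1]
    exact M.add_mem (M.smul_mem _ h) (M.smul_mem _ h')
  zero_mem' := ⟨0, by simp⟩
  smul_mem' := by
    rintro c x ⟨N, h⟩
    exact ⟨N, by rw [smul_comm]; exact M.smul_mem _ h⟩

theorem mem_EL {M : Submodule R S} {g : R} {x : S} : x ∈ EL M g ↔ ∃ N : ℕ, g ^ N • x ∈ M :=
  Iff.rfl

theorem le_EL (M : Submodule R S) (g : R) : M ≤ EL M g := fun x hx => ⟨0, by simpa using hx⟩

theorem pow_smul_mono {M : Submodule R S} {g : R} {x : S} {N K : ℕ} (h : g ^ N • x ∈ M)
    (hK : N ≤ K) : g ^ K • x ∈ M := by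
  obtain ⟨k, rfl⟩ := Nat.exists_eq_add_of_le hK
  have : g ^ (N + k) • x = g ^ k • (g ^ N • x) := by
    rw [smul_smul, ← pow_add, add_comm k N]
  rw [this]
  exact M.smul_mem _ h

theorem EL_of_pow {M : Submodule R S} {g : R} {x : S} {k : ℕ} (h : g ^ k • x ∈ EL M g) :
    x ∈ EL M g := by
  obtain ⟨N, h⟩ := h
  exact ⟨N + k, by rw [pow_add, mul_smul]; exact h⟩

theorem EL_mul_of_left {M : Submodule R S} {g : R} (h : R) {x : S} (hx : x ∈ EL M g) :
    x ∈ EL M (g * h) := by
  obtain ⟨N, hx⟩ := hx
  refine ⟨N, ?_⟩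
  rw [mul_pow, mul_comm, mul_smul]
  exact M.smul_mem _ hx

theorem EL_mul_of_right {M : Submodule R S} {g : R} (h : R) {x : S} (hx : x ∈ EL M g) :
    x ∈ EL M (h * g) := by
  rw [mul_comm]; exact EL_mul_of_left h hx

theorem EL_mul {M : Submodule R S} {g h : R} {x : S} {k : ℕ} (hx : g ^ k • x ∈ EL M h) :
    x ∈ EL M (g * h) := by
  obtain ⟨N, hx⟩ := hx
  have h1 : h ^ (N + k) • (g ^ (N + k) • x) ∈ M := by
    have : h ^ (N + k) • (g ^ (N + k) • x) = (h ^ k * g ^ N) • (h ^ N • (g ^ k • x)) := by
      rw [smul_smul, smul_smul, smul_smul]; congr 1; ring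
    rw [this]; exact M.smul_mem _ hx
  refine ⟨N + k, ?_⟩
  rw [mul_pow, mul_comm, mul_smul]; exact h1

/-- a common exponent for finitely many elements -/
theorem EL_fin {ι : Type*} [Finite ι] {M : Submodule R S} {g : R} {x : ι → S}
    (h : ∀ i, x i ∈ EL M g) : ∃ N : ℕ, ∀ i, g ^ N • x i ∈ M := by
  cases nonempty_fintype ι
  choose N hN using h
  exact ⟨∑ i, N i, fun i => pow_smul_mono (hN i)
    (Finset.single_le_sum (f := N) (fun _ _ => Nat.zero_le _) (Finset.mem_univ i))⟩

end EL

section Rl

variable {R : Type*} [CommRing R] {T : Type*} [CommRing T] [Algebra R T]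

theorem Rl_mul_of_left {a : R} (b : R) {x : T} (hx : x ∈ Rl R T a) : x ∈ Rl R T (a * b) := by
  obtain ⟨N, r, h⟩ := hx
  refine ⟨N, b ^ N * r, ?_⟩
  rw [map_mul, mul_pow, map_mul, map_pow, ← h]; ring

theorem Rl_mul_of_right {a : R} (b : R) {x : T} (hx : x ∈ Rl R T a) : x ∈ Rl R T (b * a) := by
  rw [mul_comm]; exact Rl_mul_of_left b hx

theorem Rl_of_pow {a : R} {x : T} {k : ℕ} (h : algebraMap R T a ^ k * x ∈ Rl R T a) :
    x ∈ Rl R T a := by
  obtain ⟨N, r, h⟩ := h
  exact ⟨N + k, r, by rw [pow_add, mul_assoc]; exact h⟩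

theorem Rl_mul {a b : R} {x : T} {k : ℕ} (hx : algebraMap R T a ^ k * x ∈ Rl R T b) :
    x ∈ Rl R T (a * b) := by
  obtain ⟨N, r, h⟩ := hx
  refine ⟨N + k, b ^ k * a ^ N * r, ?_⟩
  rw [map_mul, map_mul, map_mul, map_pow, map_pow, ← h]; ring

/-- `x ∈ R_{ab}` gives a power of `a` moving `x` into `R_b`. -/
theorem Rl_split {a b : R} {x : T} (hx : x ∈ Rl R T (a * b)) :
    ∃ k : ℕ, algebraMap R T a ^ k * x ∈ Rl R T b := by
  obtain ⟨N, r, h⟩ := hx
  refine ⟨N, N, r, ?_⟩
  rw [← h, map_mul]; ring

theorem Rl_mono_pow {a : R} {x : T} {N K : ℕ} (hN : N ≤ K)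
    (h : ∃ r : R, algebraMap R T a ^ N * x = algebraMap R T r) :
    ∃ r : R, algebraMap R T a ^ K * x = algebraMap R T r := by
  obtain ⟨r, h⟩ := h
  obtain ⟨k, rfl⟩ := Nat.exists_eq_add_of_le hN
  refine ⟨a ^ k * r, ?_⟩
  rw [map_mul, map_pow, ← h]; ring

theorem Rl_fin {ι : Type*} [Finite ι] {a : R} {x : ι → T} (h : ∀ i, x i ∈ Rl R T a) :
    ∃ N : ℕ, ∀ i, ∃ r : R, algebraMap R T a ^ N * x i = algebraMap R T r := by
  cases nonempty_fintype ι
  choose N r hN using h
  exact ⟨∑ i, N i, fun i => Rl_mono_pow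
    (Finset.single_le_sum (f := N) (fun _ _ => Nat.zero_le _) (Finset.mem_univ i)) ⟨r i, hN i⟩⟩

/-- the analogue with values in another `R_b` -/
theorem Rl_split_fin {ι : Type*} [Finite ι] {a b : R} {x : ι → T}
    (h : ∀ i, x i ∈ Rl R T (a * b)) :
    ∃ k : ℕ, ∀ i, algebraMap R T a ^ k * x i ∈ Rl R T b := by
  cases nonempty_fintype ι
  choose k hk using fun i => Rl_split (h i)
  refine ⟨∑ i, k i, fun i => ?_⟩
  obtain ⟨l, hl⟩ := Nat.exists_eq_add_of_le
    (Finset.single_le_sum (f := k) (fun _ _ => Nat.zero_le _) (Finset.mem_univ i))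
  rw [hl]
  have : algebraMap R T a ^ (k i + l) * x i =
      algebraMap R T (a ^ l) * (algebraMap R T a ^ k i * x i) := by
    rw [map_pow]; ring
  rw [this]
  exact (Rl R T b).mul_mem ((Rl R T b).algebraMap_mem _) (hk i)

end Rl

end Pool.Agent.Licci.U

end

section

/-!
# Block (U3), part 2: `H^1(End) = 0` and kernel of a minimal cover free imply free
-/

namespace Pool.Agent.Licci.U

open Module IsLocalRing

section core

variable {R T S : Type*} [CommRing R] [CommRing T] [Algebra R T]
  [AddCommGroup S] [Module R S] [Module T S] [IsScalarTower R T S]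

/-- A generating family of minimal length of a finitely generated submodule over a local ring:
all relations have coefficients in the maximal ideal. -/
theorem exists_min_gen [IsLocalRing R] (M : Submodule R S) (fg : M.FG) :
    ∃ (b : ℕ) (m : Fin b → S), Submodule.span R (Set.range m) = M ∧
      ∀ z : Fin b → R, ∑ j, z j • m j = 0 → ∀ j, z j ∈ maximalIdeal R := by
  classical
  have hex : ∃ b : ℕ, ∃ m : Fin b → S, Submodule.span R (Set.range m) = M := by
    obtain ⟨n, s, hs⟩ := Submodule.fg_iff_exists_fin_generating_family.1 fg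
    exact ⟨n, s, hs⟩
  obtain ⟨m, hm⟩ := Nat.find_spec hex
  have hmin : ∀ b' : ℕ, (∃ m : Fin b' → S, Submodule.span R (Set.range m) = M) →
      Nat.find hex ≤ b' := fun b' h => Nat.find_min' hex h
  generalize hb : Nat.find hex = b at m hm hmin
  refine ⟨b, m, hm, ?_⟩
  intro z hz j
  by_contra hj
  have hu : IsUnit (z j) := by
    by_contra h
    exact hj ((mem_maximalIdeal _).2 h)
  obtain ⟨c, rfl⟩ : ∃ c, b = c + 1 := ⟨b - 1, by have := j.2; omega⟩
  have hle := hmin c ⟨fun i => m (j.succAbove i), ?_⟩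
  · omega
  · refine le_antisymm ?_ ?_
    · rw [← hm]
      refine Submodule.span_mono ?_
      rintro _ ⟨i, rfl⟩
      exact ⟨_, rfl⟩
    · rw [← hm, Submodule.span_le]
      rintro _ ⟨i, rfl⟩
      have key : m j ∈ Submodule.span R (Set.range fun i => m (j.succAbove i)) := by
        obtain ⟨u, hu⟩ := hu
        rw [Fin.sum_univ_succAbove _ j] at hz
        have h1 : m j = -(↑u⁻¹ : R) • ∑ i, z (j.succAbove i) • m (j.succAbove i) := by
          have h2 : z j • m j = -∑ i, z (j.succAbove i) • m (j.succAbove i) :=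
            eq_neg_of_add_eq_zero_left hz
          rw [neg_smul, ← smul_neg, ← h2, ← hu, smul_smul, Units.inv_mul, one_smul]
        rw [h1]
        refine Submodule.smul_mem _ _ (Submodule.sum_mem _ fun i _ => ?_)
        exact Submodule.smul_mem _ _ (Submodule.subset_span ⟨i, rfl⟩)
      rcases eq_or_ne i j with rfl | hij
      · exact key
      · obtain ⟨i', rfl⟩ := Fin.exists_succAbove_eq hij
        exact Submodule.subset_span ⟨i', rfl⟩

/-- with denominators `R`-combinations of a family span the localised submodule -/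
theorem comb_mem_EL {b : ℕ} {m : Fin b → S} {M : Submodule R S} (hM : ∀ j, m j ∈ M) {g : R}
    {z : Fin b → T} (hz : ∀ j, z j ∈ Rl R T g) : ∑ j, z j • m j ∈ EL M g := by
  obtain ⟨N, hN⟩ := Rl_fin hz
  choose r hr using hN
  refine ⟨N, ?_⟩
  rw [Finset.smul_sum]
  refine M.sum_mem fun j _ => ?_
  have : g ^ N • z j • m j = r j • m j := by
    rw [← smul_assoc, Algebra.smul_def, map_pow, hr, algebraMap_smul]
  rw [this]
  exact M.smul_mem _ (hM j)

theorem ag_core [IsLocalRing R] [IsNoetherianRing R] (C : Cov R T) {ι : Type*} [Fintype ι]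
    (ε : Fin 3 → Basis ι T S) (M : Submodule R S) (fg : M.FG)
    (hT : ∀ t : T, t ∈ Rl R T (C.f 0 * C.f 1 * C.f 2))
    (hε1 : ∀ a i, ε a i ∈ EL M (C.f a))
    (hε2 : ∀ a, ∀ x ∈ M, ∀ i, (ε a).repr x i ∈ C.R1 a)
    (cap : ∀ x, x ∈ EL M (C.f 0) → x ∈ EL M (C.f 1) → x ∈ M)
    (H1 : ∀ φ : Fin 3 → Fin 3 → (S →ₗ[T] S),
      (∀ a b, ∀ x ∈ M, φ a b x ∈ EL M (C.f a * C.f b)) →
      (∀ a b c, φ a b + φ b c = φ a c) →
      ∃ ψ : Fin 3 → (S →ₗ[T] S), (∀ a, ∀ x ∈ M, ψ a x ∈ EL M (C.f a)) ∧
        ∀ a b, φ a b = ψ b - ψ a)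
    (hL : ∀ (b : ℕ) (p : (Fin b → R) →ₗ[R] M), Function.Surjective p →
      Module.Free R (LinearMap.ker p)) :
    Module.Free R M := by
  classical
  obtain ⟨b, m, hm, hmin⟩ := exists_min_gen M fg
  have hmM : ∀ j, m j ∈ M := fun j => by
    rw [← hm]; exact Submodule.subset_span ⟨j, rfl⟩
  -- the cover
  let p : (Fin b → R) →ₗ[R] M := Fintype.linearCombination R (fun j => (⟨m j, hmM j⟩ : M))
  have hp : ∀ z : Fin b → R, ((p z : M) : S) = ∑ j, z j • m j := by
    intro z
    simp [p, Fintype.linearCombination_apply]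
  have hMspan : ∀ x ∈ M, ∃ z : Fin b → R, ∑ j, z j • m j = x := by
    intro x hx
    rw [← hm] at hx
    obtain ⟨c, hc⟩ := (Submodule.mem_span_range_iff_exists_fun R).1 hx
    exact ⟨c, hc⟩
  have hsurj : Function.Surjective p := by
    rintro ⟨x, hx⟩
    obtain ⟨z, hz⟩ := hMspan x hx
    exact ⟨z, Subtype.ext (by rw [hp, hz])⟩
  have hfree : Module.Free R (LinearMap.ker p) := hL b p hsurj
  let κ := Module.Free.ChooseBasisIndex R (LinearMap.ker p)
  let bL : Basis κ R (LinearMap.ker p) := Module.Free.chooseBasis R (LinearMap.ker p)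
  -- the kernel vanishes
  have hker : IsEmpty κ := by
    by_contra hne
    rw [not_isEmpty_iff] at hne
    obtain ⟨k0⟩ := hne
    set g : R := C.f 0 * C.f 1 * C.f 2 with hg
    have hgu : IsUnit (algebraMap R T g) := by
      rw [hg, map_mul, map_mul]
      exact ((C.unit 0).mul (C.unit 1)).mul (C.unit 2)
    let πT : (Fin b → T) →ₗ[T] S := Fintype.linearCombination T m
    have hπ : ∀ z : Fin b → T, πT z = ∑ j, z j • m j := fun z => by
      simp [πT, Fintype.linearCombination_apply]
    let lam : κ → (Fin b → T) := fun k j => algebraMap R T ((bL k : Fin b → R) j)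
    -- elements of `L` over `T`
    have hLrel : ∀ r : Fin b → R, r ∈ LinearMap.ker p ↔ ∑ j, r j • m j = 0 := by
      intro r
      rw [LinearMap.mem_ker, ← hp]
      constructor
      · intro h; rw [h]; rfl
      · intro h; exact Subtype.ext h
    have hπR : ∀ r : Fin b → R, πT (fun j => algebraMap R T (r j)) = ∑ j, r j • m j := by
      intro r
      rw [hπ]
      exact Finset.sum_congr rfl fun j _ => algebraMap_smul T (r j) (m j)
    have hlam : ∀ k, lam k ∈ LinearMap.ker πT := by
      intro k
      rw [LinearMap.mem_ker, hπR]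
      exact (hLrel _).1 (bL k).2
    -- linear combinations
    have hcomb : ∀ (c : κ → R) (j : Fin b),
        (∑ k, algebraMap R T (c k) • lam k) j =
          algebraMap R T (((∑ k, c k • bL k : LinearMap.ker p) : Fin b → R) j) := by
      intro c j
      simp only [lam, Finset.sum_apply, Pi.smul_apply, smul_eq_mul, Submodule.coe_sum,
        Submodule.coe_smul, map_sum, map_mul]
    let v : κ → LinearMap.ker πT := fun k => ⟨lam k, hlam k⟩
    have hli : LinearIndependent T v := by
      rw [Fintype.linearIndependent_iff]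
      intro t ht k
      obtain ⟨N, hN⟩ := Rl_fin (fun k => hT (t k))
      choose c hc using hN
      have h1 : ∑ k, c k • bL k = 0 := by
        refine Subtype.ext (funext fun j => C.inj ?_)
        rw [← hcomb c j]
        have h2 : (∑ k, t k • lam k) j = 0 := by
          have := congrArg (fun y : LinearMap.ker πT => (y : Fin b → T) j) ht
          simpa [v] using this
        have h3 : (∑ k, algebraMap R T (c k) • lam k) j =
            algebraMap R T g ^ N * (∑ k, t k • lam k) j := by
          simp only [Finset.sum_apply, Pi.smul_apply, smul_eq_mul, Finset.mul_sum]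
          refine Finset.sum_congr rfl fun k _ => ?_
          rw [← hc k]; ring
        rw [h3, h2, mul_zero]; simp
      have h2 := Fintype.linearIndependent_iff.1 bL.linearIndependent c h1 k
      have h3 := hc k
      rw [h2, map_zero] at h3
      exact ((hgu.pow N).mul_right_eq_zero).1 h3
    -- expansion of kernel elements
    have hexp : ∀ (h : R) (y : Fin b → T), y ∈ LinearMap.ker πT → (∀ j, y j ∈ Rl R T h) →
        ∃ (N : ℕ) (c : κ → R), algebraMap R T h ^ N • y = ∑ k, algebraMap R T (c k) • lam k := by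
      intro h y hy hyR
      obtain ⟨N, hN⟩ := Rl_fin hyR
      choose r hr using hN
      have hrL : r ∈ LinearMap.ker p := by
        rw [hLrel, ← hπR]
        have : (fun j => algebraMap R T (r j)) = algebraMap R T h ^ N • y := by
          funext j
          rw [Pi.smul_apply, smul_eq_mul, hr]
        rw [this, map_smul, LinearMap.mem_ker.1 hy, smul_zero]
      refine ⟨N, fun k => bL.repr ⟨r, hrL⟩ k, ?_⟩
      funext j
      rw [hcomb, bL.sum_repr]
      rw [Pi.smul_apply, smul_eq_mul, hr]
    have hsp : ⊤ ≤ Submodule.span T (Set.range v) := by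
      rintro ⟨y, hy⟩ -
      obtain ⟨N, c, hc⟩ := hexp g y hy (fun j => hT _)
      obtain ⟨u, hu⟩ := hgu.pow N
      have h1 : (⟨y, hy⟩ : LinearMap.ker πT) =
          (↑u⁻¹ : T) • ∑ k, algebraMap R T (c k) • v k := by
        refine Subtype.ext ?_
        have : ((∑ k, algebraMap R T (c k) • v k : LinearMap.ker πT) : Fin b → T) =
            ∑ k, algebraMap R T (c k) • lam k := by
          simp [v]
        rw [Submodule.coe_smul, this, ← hc, ← hu, smul_smul, Units.inv_mul, one_smul]
      rw [h1]
      refine Submodule.smul_mem _ _ (Submodule.sum_mem _ fun k _ => ?_)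
      exact Submodule.smul_mem _ _ (Submodule.subset_span ⟨k, rfl⟩)
    let bK : Basis κ T (LinearMap.ker πT) := Basis.mk hli hsp
    have hbK : ∀ k, bK k = v k := fun k => by simp [bK]
    -- the index `j0`
    have hb0 : Nonempty (Fin b) := by
      by_contra hcon
      rw [not_nonempty_iff] at hcon
      have : (bL k0 : Fin b → R) = 0 := funext fun j => (hcon.false j).elim
      have h1 : bL k0 = 0 := Subtype.ext this
      exact bL.ne_zero k0 h1
    obtain ⟨j0⟩ := hb0
    let w : κ → S := fun k => if k = k0 then m j0 else 0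
    have hw : ∀ k, w k ∈ M := fun k => by
      by_cases h : k = k0
      · simp [w, h, hmM]
      · simp [w, h]
    let hTm : LinearMap.ker πT →ₗ[T] S := bK.constr T w
    have hTv : ∀ k, hTm (v k) = w k := fun k => by
      rw [← hbK]; simp [hTm]
    have hTEL : ∀ (h : R), IsUnit (algebraMap R T h) → ∀ (y : LinearMap.ker πT),
        (∀ j, (y : Fin b → T) j ∈ Rl R T h) → hTm y ∈ EL M h := by
      intro h hh y hyR
      obtain ⟨N, c, hc⟩ := hexp h y y.2 hyR
      refine ⟨N, ?_⟩
      have h1 : (algebraMap R T h ^ N • y : LinearMap.ker πT) =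
          ∑ k, algebraMap R T (c k) • v k := by
        refine Subtype.ext ?_
        rw [Submodule.coe_smul, hc]
        simp [v]
      have h2 : h ^ N • hTm y = hTm (algebraMap R T h ^ N • y) := by
        rw [map_smul, ← map_pow, algebraMap_smul]
      rw [h2, h1, map_sum]
      refine M.sum_mem fun k _ => ?_
      rw [map_smul, hTv, algebraMap_smul]
      exact M.smul_mem _ (hw k)
    -- sections
    have hsec : ∀ a : Fin 3, ∃ σ : S →ₗ[T] (Fin b → T), (∀ x, πT (σ x) = x) ∧
        ∀ (h : R) (x : S), (∀ i, (ε a).repr x i ∈ Rl R T (C.f a * h)) →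
          ∀ j, σ x j ∈ Rl R T (C.f a * h) := by
      intro a
      obtain ⟨N, hN⟩ := EL_fin (hε1 a)
      choose u hu using fun i => hMspan _ (hN i)
      obtain ⟨c, hc⟩ := (C.unit a).pow N
      let s : ι → (Fin b → T) := fun i j => (↑c⁻¹ : T) * algebraMap R T (u i j)
      have hs : ∀ i j, s i j ∈ Rl R T (C.f a) := fun i j =>
        ⟨N, u i j, by simp only [s]; rw [← hc, ← mul_assoc, Units.mul_inv, one_mul]⟩
      refine ⟨(ε a).constr T s, ?_, ?_⟩
      · intro x
        have : πT ∘ₗ (ε a).constr T s = LinearMap.id := by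
          refine (ε a).ext fun i => ?_
          rw [LinearMap.comp_apply, Basis.constr_basis, LinearMap.id_apply, hπ]
          have h1 : ∑ j, s i j • m j = (↑c⁻¹ : T) • ∑ j, u i j • m j := by
            rw [Finset.smul_sum]
            refine Finset.sum_congr rfl fun j _ => ?_
            simp only [s]
            rw [mul_smul, algebraMap_smul]
          rw [h1, hu, ← algebraMap_smul T (C.f a ^ N), map_pow, ← hc, smul_smul, Units.inv_mul,
            one_smul]
        exact LinearMap.congr_fun this x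
      · intro h x hx j
        rw [Basis.constr_apply_fintype, Finset.sum_apply]
        refine (Rl R T (C.f a * h)).sum_mem fun i _ => ?_
        rw [Pi.smul_apply, smul_eq_mul]
        exact (Rl R T (C.f a * h)).mul_mem (hx i) (Rl_mul_of_left h (hs i j))
    choose σ hσ1 hσ2 using hsec
    -- coordinates of localised elements
    have hcoord : ∀ (a : Fin 3) (h : R) (x : S), x ∈ EL M (C.f a * h) →
        ∀ i, (ε a).repr x i ∈ Rl R T (C.f a * h) := by
      rintro a h x ⟨N, hN⟩ i
      have h1 := hε2 a _ hN i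
      rw [← algebraMap_smul T ((C.f a * h) ^ N), map_smul, Finsupp.smul_apply, smul_eq_mul,
        map_pow] at h1
      exact Rl_of_pow (Rl_mul_of_left h h1)
    -- the local extensions
    have hproj : ∀ (a : Fin 3) (z : Fin b → T), z - σ a (πT z) ∈ LinearMap.ker πT := by
      intro a z
      rw [LinearMap.mem_ker, map_sub, hσ1, sub_self]
    let ρ : Fin 3 → ((Fin b → T) →ₗ[T] LinearMap.ker πT) := fun a =>
      LinearMap.codRestrict _ (LinearMap.id - (σ a) ∘ₗ πT) (fun z => by
        simpa using hproj a z)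
    have hρ : ∀ a z, ((ρ a z : LinearMap.ker πT) : Fin b → T) = z - σ a (πT z) := fun a z => rfl
    have hρK : ∀ a (y : LinearMap.ker πT), ρ a y = y := by
      intro a y
      refine Subtype.ext ?_
      rw [hρ, LinearMap.mem_ker.1 y.2, map_zero, sub_zero]
    let ha : Fin 3 → ((Fin b → T) →ₗ[T] S) := fun a => hTm ∘ₗ ρ a
    have haK : ∀ a (y : LinearMap.ker πT), ha a y = hTm y := fun a y => by
      simp only [ha, LinearMap.comp_apply, hρK]
    have haEL : ∀ (a : Fin 3) (h : R), IsUnit (algebraMap R T h) → ∀ (z : Fin b → T),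
        (∀ j, z j ∈ Rl R T (C.f a * h)) → ha a z ∈ EL M (C.f a * h) := by
      intro a h hh z hz
      refine hTEL _ ?_ _ ?_
      · rw [map_mul]; exact (C.unit a).mul hh
      · intro j
        rw [hρ]
        refine (Rl R T (C.f a * h)).sub_mem (hz j) ?_
        refine hσ2 a h _ (hcoord a h _ ?_) j
        rw [hπ]
        exact comb_mem_EL hmM hz
    let φ : Fin 3 → Fin 3 → (S →ₗ[T] S) := fun a b' => (ha b' - ha a) ∘ₗ σ 0
    have hφπ : ∀ a b' (z : Fin b → T), φ a b' (πT z) = ha b' z - ha a z := by
      intro a b' z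
      have h1 : (ha b' - ha a) (z - σ 0 (πT z)) = 0 := by
        have := haK b' ⟨_, hproj 0 z⟩
        have h2 := haK a ⟨_, hproj 0 z⟩
        rw [LinearMap.sub_apply]
        rw [show ha b' (z - σ 0 (πT z)) = _ from this, show ha a (z - σ 0 (πT z)) = _ from h2,
          sub_self]
      rw [map_sub, sub_eq_zero] at h1
      simp only [φ, LinearMap.comp_apply]
      rw [← h1, LinearMap.sub_apply]
    obtain ⟨ψ, hψ1, hψ2⟩ := H1 φ (by
      intro a b' x hx
      have h1 : φ a b' x = ha b' (σ a x) - ha a (σ a x) := by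
        rw [← hφπ, hσ1]
      have h2 : ∀ i, (ε a).repr x i ∈ Rl R T (C.f a * C.f b') := fun i =>
        Rl_mul_of_left _ (hε2 a x hx i)
      have h3 := hσ2 a (C.f b') x h2
      rw [h1]
      refine Submodule.sub_mem _ ?_ ?_
      · rw [mul_comm]
        refine haEL b' (C.f a) (C.unit a) _ ?_
        rw [mul_comm]; exact h3
      · exact haEL a (C.f b') (C.unit b') _ h3) (by
      intro a b' c
      simp only [φ]
      rw [← LinearMap.add_comp]
      congr 1
      abel)
    -- the global extension
    have hH : ∀ a b' (z : Fin b → T), ha a z - ψ a (πT z) = ha b' z - ψ b' (πT z) := by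
      intro a b' z
      have h1 := hφπ a b' z
      rw [hψ2 a b', LinearMap.sub_apply] at h1
      have : ha b' z = ha a z + (ψ b' (πT z) - ψ a (πT z)) := by rw [h1]; abel
      rw [this]; abel
    let H : (Fin b → T) →ₗ[T] S := ha 0 - (ψ 0) ∘ₗ πT
    have hHM : ∀ j, H (Pi.single j 1) ∈ M := by
      intro j
      have hπs : πT (Pi.single j 1) = m j := by
        rw [hπ, Finset.sum_eq_single j]
        · simp
        · intro i _ hi; simp [hi]
        · intro h; exact absurd (Finset.mem_univ j) h
      have hz : ∀ (h : R) (i : Fin b), (Pi.single j (1 : T) : Fin b → T) i ∈ Rl R T h := by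
        intro h i
        rcases eq_or_ne i j with rfl | hij
        · simp [(Rl R T h).one_mem]
        · simp [hij, (Rl R T h).zero_mem]
      have hmem : ∀ a, ha a (Pi.single j 1) - ψ a (m j) ∈ EL M (C.f a) := by
        intro a
        refine Submodule.sub_mem _ ?_ (hψ1 a _ (hmM j))
        have := haEL a 1 (by simp) (Pi.single j 1) (hz _)
        rwa [mul_one] at this
      have hH0 : H (Pi.single j 1) = ha 0 (Pi.single j 1) - ψ 0 (m j) := by
        simp only [H, LinearMap.sub_apply, LinearMap.comp_apply, hπs]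
      refine cap _ ?_ ?_
      · rw [hH0]; exact hmem 0
      · have := hH 0 1 (Pi.single j 1)
        rw [hπs] at this
        rw [hH0, this]; exact hmem 1
    have hHlam : H (lam k0) = m j0 := by
      have h1 : πT (lam k0) = 0 := LinearMap.mem_ker.1 (hlam k0)
      have h2 : ha 0 (lam k0) = w k0 := by
        have := haK 0 (v k0)
        rw [hTv] at this
        exact this
      simp only [H, LinearMap.sub_apply, LinearMap.comp_apply, h1, map_zero, sub_zero, h2]
      simp [w]
    have hHsum : H (lam k0) = ∑ j, (bL k0 : Fin b → R) j • H (Pi.single j 1) := by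
      have h1 : lam k0 = ∑ j, (algebraMap R T ((bL k0 : Fin b → R) j)) •
          (Pi.single j (1 : T) : Fin b → T) := by
        funext i
        rw [Finset.sum_apply, Finset.sum_eq_single i]
        · simp [lam]
        · intro j _ hj
          simp [hj.symm]
        · intro h; exact absurd (Finset.mem_univ i) h
      conv_lhs => rw [h1]
      rw [map_sum]
      exact Finset.sum_congr rfl fun j _ => by rw [map_smul, algebraMap_smul]
    choose c hc using fun j => hMspan _ (hHM j)
    have hfin : m j0 = ∑ i, (∑ j, (bL k0 : Fin b → R) j * c j i) • m i := by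
      rw [← hHlam, hHsum]
      have : ∀ j, (bL k0 : Fin b → R) j • H (Pi.single j 1) =
          ∑ i, ((bL k0 : Fin b → R) j * c j i) • m i := by
        intro j
        rw [← hc j, Finset.smul_sum]
        exact Finset.sum_congr rfl fun i _ => by rw [mul_smul]
      rw [Finset.sum_congr rfl fun j _ => this j, Finset.sum_comm]
      exact Finset.sum_congr rfl fun i _ => by rw [Finset.sum_smul]
    have hrel : ∑ i, ((if i = j0 then (1 : R) else 0) -
        ∑ j, (bL k0 : Fin b → R) j * c j i) • m i = 0 := by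
      simp only [sub_smul]
      rw [Finset.sum_sub_distrib, ← hfin]
      simp
    have h1 := hmin _ hrel j0
    have h2 : ∑ j, (bL k0 : Fin b → R) j * c j j0 ∈ maximalIdeal R := by
      refine Ideal.sum_mem _ fun j _ => Ideal.mul_mem_right _ _ ?_
      exact hmin _ ((hLrel _).1 (bL k0).2) j
    have h3 := Ideal.add_mem _ h1 h2
    simp only [if_true, sub_add_cancel] at h3
    exact (Ideal.ne_top_iff_one _).1 (maximalIdeal.isMaximal R).ne_top h3
  have hbot : LinearMap.ker p = ⊥ := by
    have hs : Subsingleton (LinearMap.ker p) := by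
      have := bL.repr.toEquiv
      exact this.subsingleton
    exact (Submodule.subsingleton_iff_eq_bot).1 hs
  let e : (Fin b → R) ≃ₗ[R] M := LinearEquiv.ofBijective p
    ⟨LinearMap.ker_eq_bot.1 hbot, hsurj⟩
  exact Module.Free.of_equiv e

end core

end Pool.Agent.Licci.U

end

section

/-!
# Block (U), module U4: anticommuting operators

`2 m` anticommuting operators with unit squares on a free module: the ordered monomials are
invertible and trace-orthogonal.
-/

namespace Pool.Agent.Licci.U

open Module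

/-- the ordered monomials of a list of elements -/
def mon {E : Type*} [Monoid E] : (N : ℕ) → (Fin N → E) → (Fin N → Bool) → E
  | 0, _, _ => 1
  | N + 1, g, b => (if b 0 then g 0 else 1) * mon N (fun i => g i.succ) (fun i => b i.succ)

section algebra

variable {T E : Type*} [CommRing T] [Ring E] [Algebra T E]

/-- moving an element past a monomial -/
theorem mon_comm (x : E) :
    ∀ (N : ℕ) (g : Fin N → E) (b : Fin N → Bool) (s : Fin N → T),
      (∀ i, x * g i = s i • (g i * x)) →
      x * mon N g b = (∏ i, if b i then s i else 1) • (mon N g b * x)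
  | 0, g, b, s, _ => by simp [mon]
  | N + 1, g, b, s, h => by
    have ih := mon_comm x N (fun i => g i.succ) (fun i => b i.succ) (fun i => s i.succ)
      (fun i => h i.succ)
    rw [mon, Fin.prod_univ_succ]
    by_cases h0 : b 0 = true
    · rw [if_pos h0, if_pos h0, ← mul_assoc, h 0, smul_mul_assoc, mul_assoc, ih, mul_smul_comm,
        smul_smul, mul_assoc]
    · rw [if_neg h0, if_neg h0, one_mul, one_mul, ih]

/-- the monomial of the zero exponent -/
theorem mon_false : ∀ (N : ℕ) (g : Fin N → E), mon N g (fun _ => false) = 1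
  | 0, g => rfl
  | N + 1, g => by
    rw [mon, if_neg (by simp), one_mul]
    exact mon_false N _

/-- the product of two monomials is a unit multiple of a monomial -/
theorem mon_mul :
    ∀ (N : ℕ) (g : Fin N → E) (c : Fin N → T), (∀ i, IsUnit (c i)) →
      (∀ i, g i * g i = c i • (1 : E)) → (∀ i j, i ≠ j → g i * g j = -(g j * g i)) →
      ∀ b b' : Fin N → Bool, ∃ u : T, IsUnit u ∧
        mon N g b * mon N g b' = u • mon N g (fun i => xor (b i) (b' i))
  | 0, g, c, _, _, _, b, b' => ⟨1, isUnit_one, by simp [mon]⟩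
  | N + 1, g, c, hc, hsq, hanti, b, b' => by
    obtain ⟨u, hu, hm⟩ := mon_mul N (fun i => g i.succ) (fun i => c i.succ) (fun i => hc i.succ)
      (fun i => hsq i.succ) (fun i j hij => hanti _ _ (fun h => hij (Fin.succ_injective _ h)))
      (fun i => b i.succ) (fun i => b' i.succ)
    -- moving `g 0` past the tail
    have hcomm := mon_comm (T := T) (g 0) N (fun i => g i.succ) (fun i => b i.succ) (fun _ => -1)
      (fun i => by
        rw [hanti 0 i.succ (Fin.succ_ne_zero i).symm, neg_smul, one_smul])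
    set M := mon N (fun i => g i.succ) (fun i => b i.succ) with hM
    set M' := mon N (fun i => g i.succ) (fun i => b' i.succ) with hM'
    set e : T := ∏ i : Fin N, if b i.succ then (-1 : T) else 1 with he
    have hee : e * e = 1 := by
      rw [he, ← Finset.prod_mul_distrib]
      refine Finset.prod_eq_one (fun i _ => ?_)
      split_ifs <;> simp
    have hcomm' : M * g 0 = e • (g 0 * M) := by
      rw [hcomm, smul_smul, hee, one_smul]
    have heu : IsUnit e := IsUnit.of_mul_eq_one _ hee
    show ∃ u : T, IsUnit u ∧ ((if b 0 then g 0 else 1) * M) * ((if b' 0 then g 0 else 1) * M') =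
      u • ((if xor (b 0) (b' 0) then g 0 else 1) *
        mon N (fun i => g i.succ) (fun i => xor (b i.succ) (b' i.succ)))
    cases h0 : b 0 <;> cases h0' : b' 0
    · refine ⟨u, hu, ?_⟩
      simp [hm]
    · refine ⟨e * u, heu.mul hu, ?_⟩
      simp only [Bool.false_eq_true, if_false, if_true, Bool.false_xor, one_mul]
      rw [← mul_assoc, hcomm', smul_mul_assoc, mul_assoc, hm, mul_smul_comm, smul_smul]
    · refine ⟨u, hu, ?_⟩
      simp only [Bool.false_eq_true, if_false, if_true, Bool.xor_false, one_mul]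
      rw [mul_assoc, hm, mul_smul_comm]
    · refine ⟨e * (c 0 * u), heu.mul ((hc 0).mul hu), ?_⟩
      simp only [if_true, Bool.xor_self, Bool.false_eq_true, if_false, one_mul]
      rw [mul_assoc, ← mul_assoc M, hcomm', smul_mul_assoc, mul_smul_comm, mul_assoc (g 0) M M',
        ← mul_assoc (g 0) (g 0), hsq 0, hm, smul_mul_assoc, one_mul, smul_smul, smul_smul,
        mul_assoc]

/-- in `2 m` anticommuting elements, every nontrivial monomial anticommutes with a generator -/
theorem mon_anti_exists {m : ℕ} (g : Fin (2 * m) → E)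
    (hanti : ∀ i j, i ≠ j → g i * g j = -(g j * g i)) (b : Fin (2 * m) → Bool)
    (hb : b ≠ fun _ => false) :
    ∃ j, g j * mon _ g b = -(mon _ g b * g j) := by
  classical
  -- general formula
  have key : ∀ j : Fin (2 * m), g j * mon _ g b =
      (∏ i : Fin (2 * m), if b i then (if i = j then (1 : ℤ) else -1) else 1) •
        (mon _ g b * g j) := by
    intro j
    refine mon_comm (T := ℤ) (g j) _ g b (fun i => if i = j then (1 : ℤ) else -1) (fun i => ?_)
    split_ifs with h
    · rw [h, one_smul]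
    · rw [hanti j i (fun h' => h h'.symm), neg_smul, one_smul]
  set s : Finset (Fin (2 * m)) := Finset.univ.filter (fun i => b i = true) with hs
  have prodeq : ∀ j : Fin (2 * m),
      (∏ i : Fin (2 * m), if b i then (if i = j then (1 : ℤ) else -1) else 1) =
        ∏ i ∈ s, (if i = j then (1 : ℤ) else -1) := by
    intro j
    rw [hs, Finset.prod_filter]
  rcases Nat.even_or_odd s.card with hev | hodd
  · -- even number of factors: take one of them
    have hne : s.Nonempty := by
      by_contra hcon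
      rw [Finset.not_nonempty_iff_eq_empty] at hcon
      apply hb
      funext i
      by_contra hi
      have : i ∈ s := by
        rw [hs, Finset.mem_filter]
        exact ⟨Finset.mem_univ _, by simpa using hi⟩
      rw [hcon] at this
      exact absurd this (Finset.notMem_empty _)
    obtain ⟨j, hj⟩ := hne
    refine ⟨j, ?_⟩
    rw [key j, prodeq j, ← Finset.mul_prod_erase s _ hj, if_pos rfl, one_mul]
    have : ∏ x ∈ s.erase j, (if x = j then (1 : ℤ) else -1) = ∏ x ∈ s.erase j, (-1 : ℤ) := by
      refine Finset.prod_congr rfl (fun x hx => ?_)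
      rw [if_neg (Finset.ne_of_mem_erase hx)]
    rw [this, Finset.prod_const, Finset.card_erase_of_mem hj]
    have hpos : 0 < s.card := Finset.card_pos.mpr ⟨j, hj⟩
    have hodd' : Odd (s.card - 1) := by
      obtain ⟨k, hk⟩ := hev
      refine ⟨k - 1, ?_⟩
      omega
    rw [hodd'.neg_one_pow, neg_smul, one_smul]
  · -- odd number of factors: take a generator which does not occur
    have hex : ∃ j, j ∉ s := by
      by_contra hcon
      push Not at hcon
      have : s = Finset.univ := Finset.eq_univ_iff_forall.mpr hcon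
      rw [this, Finset.card_univ, Fintype.card_fin] at hodd
      exact (Nat.not_odd_iff_even.mpr (even_two_mul m)) hodd
    obtain ⟨j, hj⟩ := hex
    refine ⟨j, ?_⟩
    have : ∏ x ∈ s, (if x = j then (1 : ℤ) else -1) = ∏ x ∈ s, (-1 : ℤ) := by
      refine Finset.prod_congr rfl (fun x hx => ?_)
      rw [if_neg (fun h : x = j => hj (h ▸ hx))]
    rw [key j, prodeq j, this, Finset.prod_const, hodd.neg_one_pow, neg_smul, one_smul]

end algebra

/-- an operator anticommuting with an operator of unit square has trace zero -/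
theorem trace_eq_zero_of_anti {T : Type*} [CommRing T] {S : Type*} [AddCommGroup S] [Module T S]
    (h2 : IsUnit (2 : T)) (x M : S →ₗ[T] S) (c : T) (hc : IsUnit c)
    (hx : x * x = c • (1 : S →ₗ[T] S)) (h : x * M = -(M * x)) : LinearMap.trace T S M = 0 := by
  have h1 : LinearMap.trace T S (x * (M * x)) = c * LinearMap.trace T S M := by
    rw [LinearMap.trace_mul_comm, mul_assoc, hx, mul_smul_comm, mul_one, map_smul, smul_eq_mul]
  have h3 : LinearMap.trace T S (x * (M * x)) = -(c * LinearMap.trace T S M) := by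
    rw [← mul_assoc, h, neg_mul, mul_assoc, hx, mul_smul_comm, mul_one, map_neg, map_smul,
      smul_eq_mul]
  have h4 : (2 * c) * LinearMap.trace T S M = 0 := by
    have := h1.symm.trans h3
    linear_combination this
  exact (h2.mul hc).mul_left_cancel (by rw [h4, mul_zero])

/-- U4 : `2 m` anticommuting operators with unit squares `c i`, `S` free of rank `2 ^ m` :
the monomials are invertible and trace-orthogonal. -/
theorem anti {T : Type*} [CommRing T] {S : Type*} [AddCommGroup S] [Module T S]
    {r m : ℕ} (ε : Basis (Fin r) T S) (hr : r = 2 ^ m) (h2 : IsUnit (2 : T))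
    (g : Fin (2 * m) → (S →ₗ[T] S)) (c : Fin (2 * m) → T) (hc : ∀ i, IsUnit (c i))
    (hsq : ∀ i, g i * g i = c i • 1) (hanti : ∀ i j, i ≠ j → g i * g j = - (g j * g i)) :
    ∃ g' : (Fin (2 * m) → Bool) → (S →ₗ[T] S),
      (∀ b, mon _ g b * g' b = 1) ∧ (∀ b, g' b * mon _ g b = 1) ∧
      (∀ b, ∃ u : T, IsUnit u ∧ g' b = u • mon _ g b) ∧
      (∀ b b', LinearMap.trace T S (mon _ g b * g' b') = if b = b' then (r : T) else 0) := by
  classical
  -- squares of monomials
  have hsquare : ∀ b : Fin (2 * m) → Bool, ∃ u : T, IsUnit u ∧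
      mon _ g b * mon _ g b = u • (1 : S →ₗ[T] S) := by
    intro b
    obtain ⟨u, hu, h⟩ := mon_mul (T := T) _ g c hc hsq hanti b b
    refine ⟨u, hu, ?_⟩
    rw [h]
    simp only [Bool.xor_self]
    rw [mon_false]
  choose u hu hsqu using hsquare
  have hinv : ∀ b, ∃ v : T, IsUnit v ∧ v * u b = 1 := by
    intro b
    obtain ⟨w, hw⟩ := hu b
    exact ⟨((w⁻¹ : Tˣ) : T), Units.isUnit _, by rw [← hw]; exact Units.inv_mul w⟩
  choose v hv hvu using hinv
  have h1 : ∀ b, mon _ g b * (v b • mon _ g b) = 1 := by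
    intro b
    rw [mul_smul_comm, hsqu, smul_smul, hvu, one_smul]
  refine ⟨fun b => v b • mon _ g b, h1, ?_, fun b => ⟨v b, hv b, rfl⟩, ?_⟩
  · intro b
    rw [smul_mul_assoc, hsqu, smul_smul, hvu, one_smul]
  · intro b b'
    split_ifs with hbb
    · subst hbb
      rw [h1 b]
      have : Module.Free T S := Module.Free.of_basis ε
      have : Module.Finite T S := Module.Finite.of_basis ε
      rcases subsingleton_or_nontrivial T with hT | hT
      · exact Subsingleton.elim _ _
      · have := LinearMap.trace_one T S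
        rw [this, Module.finrank_eq_card_basis ε, Fintype.card_fin]
    · obtain ⟨w, _, h⟩ := mon_mul (T := T) _ g c hc hsq hanti b b'
      show LinearMap.trace T S (mon _ g b * (v b' • mon _ g b')) = 0
      rw [mul_smul_comm, h, map_smul, map_smul]
      have hne : (fun i => xor (b i) (b' i)) ≠ fun _ => false := by
        intro hcon
        apply hbb
        funext i
        have := congrFun hcon i
        simpa using this
      obtain ⟨j, hj⟩ := mon_anti_exists g hanti _ hne
      rw [trace_eq_zero_of_anti h2 (g j) _ (c j) (hc j) (hsq j) hj, smul_zero, smul_zero]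

end Pool.Agent.Licci.U

end

section

/-!
# Block (U), module U7a: `anti` with explicit inverse monomials
-/

namespace Pool.Agent.Licci.U

open Module

/-- the explicit inverse of a monomial (file U/Anti2.lean) -/
def mon' {E : Type*} [Monoid E] : (N : ℕ) → (Fin N → E) → (Fin N → Bool) → E
  | 0, _, _ => 1
  | N + 1, g, b => mon' N (fun i => g i.succ) (fun i => b i.succ) * (if b 0 then g 0 else 1)

theorem mon_mul_mon' {E : Type*} [Monoid E] : ∀ (N : ℕ) (g g' : Fin N → E),
    (∀ i, g i * g' i = 1) → ∀ b : Fin N → Bool, mon N g b * mon' N g' b = 1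
  | 0, _, _, _, _ => one_mul 1
  | N + 1, g, g', h, b => by
    have ih := mon_mul_mon' N (fun i => g i.succ) (fun i => g' i.succ) (fun i => h i.succ)
      (fun i => b i.succ)
    rw [mon, mon', mul_assoc, ← mul_assoc (mon N _ _) (mon' N _ _), ih, one_mul]
    by_cases h0 : b 0 = true
    · rw [if_pos h0, if_pos h0, h 0]
    · rw [if_neg h0, if_neg h0, one_mul]

theorem mon'_mul_mon {E : Type*} [Monoid E] : ∀ (N : ℕ) (g g' : Fin N → E),
    (∀ i, g' i * g i = 1) → ∀ b : Fin N → Bool, mon' N g' b * mon N g b = 1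
  | 0, _, _, _, _ => one_mul 1
  | N + 1, g, g', h, b => by
    have ih := mon'_mul_mon N (fun i => g i.succ) (fun i => g' i.succ) (fun i => h i.succ)
      (fun i => b i.succ)
    rw [mon, mon', mul_assoc, ← mul_assoc (if b 0 = true then g' 0 else 1)]
    by_cases h0 : b 0 = true
    · rw [if_pos h0, if_pos h0, h 0, one_mul, ih]
    · rw [if_neg h0, if_neg h0, one_mul, one_mul, ih]

/-- `anti` with the explicit inverse -/
theorem anti' {T : Type*} [CommRing T] {S : Type*} [AddCommGroup S] [Module T S]
    {r m : ℕ} (ε : Basis (Fin r) T S) (h2 : IsUnit (2 : T))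
    (g g' : Fin (2 * m) → (S →ₗ[T] S)) (hg : ∀ i, g i * g' i = 1) (hg' : ∀ i, g' i * g i = 1)
    (c : Fin (2 * m) → T) (hc : ∀ i, IsUnit (c i))
    (hsq : ∀ i, g i * g i = c i • 1) (hanti : ∀ i j, i ≠ j → g i * g j = - (g j * g i)) :
      (∀ b, mon _ g b * mon' _ g' b = 1) ∧ (∀ b, mon' _ g' b * mon _ g b = 1) ∧
      (∀ b b', LinearMap.trace T S (mon _ g b * mon' _ g' b') =
        if b = b' then (r : T) else 0) := by
  classical
  have h1 : ∀ b, mon _ g b * mon' _ g' b = 1 := mon_mul_mon' _ g g' hg
  have h3 : ∀ b, mon' _ g' b * mon _ g b = 1 := mon'_mul_mon _ g g' hg'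
  refine ⟨h1, h3, ?_⟩
  intro b b'
  split_ifs with hbb
  · subst hbb
    rw [h1 b]
    have : Module.Free T S := Module.Free.of_basis ε
    have : Module.Finite T S := Module.Finite.of_basis ε
    rcases subsingleton_or_nontrivial T with hT | hT
    · exact Subsingleton.elim _ _
    · have := LinearMap.trace_one T S
      rw [this, Module.finrank_eq_card_basis ε, Fintype.card_fin]
  · -- the inverse monomial is a multiple of the monomial
    obtain ⟨u, hu, hsqu⟩ := mon_mul (T := T) _ g c hc hsq hanti b' b'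
    simp only [Bool.xor_self] at hsqu
    rw [mon_false] at hsqu
    obtain ⟨v, hv⟩ := hu
    have hinv : mon' _ g' b' = ((v⁻¹ : Tˣ) : T) • mon _ g b' := by
      have h4 : mon' _ g' b' * (mon _ g b' * mon _ g b') = u • mon' _ g' b' := by
        rw [hsqu, mul_smul_comm, mul_one]
      rw [← mul_assoc, h3 b', one_mul] at h4
      rw [h4, ← hv, smul_smul, Units.inv_mul, one_smul]
    obtain ⟨w, _, h⟩ := mon_mul (T := T) _ g c hc hsq hanti b b'
    rw [hinv, mul_smul_comm, h, map_smul, map_smul]
    have hne : (fun i => xor (b i) (b' i)) ≠ fun _ => false := by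
      intro hcon
      apply hbb
      funext i
      have := congrFun hcon i
      simpa using this
    obtain ⟨j, hj⟩ := mon_anti_exists g hanti _ hne
    rw [trace_eq_zero_of_anti h2 (g j) _ (c j) (hc j) (hsq j) hj, smul_zero, smul_zero]

end Pool.Agent.Licci.U

end

section

/-!
# Block (U), module U1: the chart rings and the Cech lemma
-/

namespace Pool.Agent.Licci.U

open Module RingTheory.Sequence IsLocalRing LicciCodimFour

theorem Rl_eq_chart {R : Type*} [CommRing R] {T : Type*} [CommRing T] [Algebra R T] (a : R) :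
    Rl R T a = chart T a := by
  ext x
  exact Iff.rfl

namespace Cov

variable {R : Type*} [CommRing R] {T : Type*} [CommRing T] [Algebra R T] (C : Cov R T)

/-- U1a -/
theorem inter [IsLocalRing R] [IsNoetherianRing R]
    (hm : ∀ i, C.f i ∈ maximalIdeal R) (hreg : IsWeaklyRegular R [C.f 0, C.f 1, C.f 2])
    {x : T} {i j : Fin 3} (hij : i ≠ j) (hi : x ∈ C.R1 i) (hj : x ∈ C.R1 j) :
    ∃ r : R, algebraMap R T r = x := by
  have hperm : ∀ i j k : Fin 3, List.Perm [(0 : Fin 3), 1, 2] [i, j, k] →
      Reg3 (C.f i) (C.f j) (C.f k) := by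
    intro i j k h
    apply Reg3.of_isWeaklyRegular
    apply IsLocalRing.isWeaklyRegular_of_perm_of_subset_maximalIdeal hreg
    · exact h.map C.f
    · intro r hr
      simp only [List.mem_cons, List.not_mem_nil, or_false] at hr
      rcases hr with rfl | rfl | rfl <;> exact hm _
  have hex : ∀ i j : Fin 3, i ≠ j → ∃ k, List.Perm [(0 : Fin 3), 1, 2] [i, j, k] := by decide
  obtain ⟨k, hk⟩ := hex i j hij
  obtain ⟨r, hr⟩ := exists_eq_algebraMap_of_inter C.inj (hperm i j k hk) (C.unit i) hi hj
  exact ⟨r, hr.symm⟩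

set_option linter.unusedVariables false in
/-- U1b: Cech `H^1 = 0`, vector valued -/
theorem cech [IsLocalRing R] [IsNoetherianRing R]
    (hm : ∀ i, C.f i ∈ maximalIdeal R) (hreg : IsWeaklyRegular R [C.f 0, C.f 1, C.f 2])
    {ι : Type*} (a : Fin 3 → Fin 3 → ι → T)
    (ha : ∀ i j s, a i j s ∈ C.R2 i j) (hc : ∀ i j k s, a i j s + a j k s = a i k s)
    [Finite ι] :
    ∃ b : Fin 3 → ι → T, (∀ i s, b i s ∈ C.R1 i) ∧ ∀ i j s, a i j s = b j s - b i s := by
  obtain ⟨b, hb, h⟩ := cech_cover_pi C.inj C.f C.unit (Reg3.of_isWeaklyRegular hreg)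
    (Ideal.subset_span ⟨0, rfl⟩) (Ideal.subset_span ⟨1, rfl⟩) (Ideal.subset_span ⟨2, rfl⟩)
    (C.unit 0) (C.unit 1) (C.unit 2) a ha (fun i j k => funext fun s => hc i j k s)
  exact ⟨b, hb, fun i j s => congrFun (h i j) s⟩

/-- U1c: `R_ij` is `R_i` with `f_j` inverted -/
theorem mem_R2_iff (i j : Fin 3) (x : T) :
    x ∈ C.R2 i j ↔ ∃ N : ℕ, algebraMap R T (C.f j) ^ N * x ∈ C.R1 i := by
  constructor
  · intro h
    have h' : x ∈ chart T (C.f j * C.f i) := by
      rw [mul_comm]
      exact h
    exact exists_pow_mul_mem_chart h'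
  · rintro ⟨N, hN⟩
    have : x ∈ chart T (C.f j * C.f i) := mem_chart_of_pow_mul hN
    rw [mul_comm] at this
    exact this

/-- U1d -/
theorem R1_le_R2 (i j : Fin 3) : C.R1 i ≤ C.R2 i j := fun _ hx =>
  mem_chart_mul_right (C.f j) hx

theorem R1_le_R2' (i j : Fin 3) : C.R1 j ≤ C.R2 i j := fun _ hx =>
  mem_chart_mul_left (C.f i) hx

theorem R2_comm (i j : Fin 3) : C.R2 i j = C.R2 j i := by
  unfold R2
  rw [mul_comm]

end Cov

end Pool.Agent.Licci.U

end

section

/-!
# Block (U): abstract interface to the `x`-graded table of `e_8`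

`B` = index set of the basis (248 elements), `c` = structure constants, `deg` = `x`-degree,
`h` = Euler element, `q` = quadratic form on degree 2, `cl` = the adjoint Clifford action.
-/

namespace Pool.Agent.Licci.U

open Module

universe u

/-- `x` is supported in degree `k`. -/
def Sup {B : Type} (deg : B → ℤ) (k : ℤ) {A : Type u} [Zero A] (x : B → A) : Prop :=
  ∀ b, deg b ≠ k → x b = 0

/-- `x` is supported in degrees `≥ k`. -/
def Ge {B : Type} (deg : B → ℤ) (k : ℤ) {A : Type u} [Zero A] (x : B → A) : Prop :=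
  ∀ b, deg b < k → x b = 0

/-- the bilinear map with integer structure constants `c` over any commutative ring. -/
def bil {B : Type} [Fintype B] (c : B → B → B → ℤ) (A : Type u) [CommRing A] :
    (B → A) →ₗ[A] (B → A) →ₗ[A] (B → A) :=
  LinearMap.mk₂ A (fun x y k => ∑ i, ∑ j, (c i j k : A) * (x i * y j))
    (by intro x x' y; funext k; simp only [Pi.add_apply, ← Finset.sum_add_distrib]
        refine Finset.sum_congr rfl fun i _ => Finset.sum_congr rfl fun j _ => ?_; ring)
    (by intro a x y; funext k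
        simp only [Pi.smul_apply, smul_eq_mul, Finset.mul_sum]
        refine Finset.sum_congr rfl fun i _ => Finset.sum_congr rfl fun j _ => ?_; ring)
    (by intro x y y'; funext k; simp only [Pi.add_apply, ← Finset.sum_add_distrib]
        refine Finset.sum_congr rfl fun i _ => Finset.sum_congr rfl fun j _ => ?_; ring)
    (by intro a x y; funext k
        simp only [Pi.smul_apply, smul_eq_mul, Finset.mul_sum]
        refine Finset.sum_congr rfl fun i _ => Finset.sum_congr rfl fun j _ => ?_; ring)

theorem bil_apply {B : Type} [Fintype B] (c : B → B → B → ℤ) (A : Type u) [CommRing A]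
    (x y : B → A) (k : B) : bil c A x y k = ∑ i, ∑ j, (c i j k : A) * (x i * y j) := rfl

theorem bil_map {B : Type} [Fintype B] (c : B → B → B → ℤ) {A A' : Type u} [CommRing A]
    [CommRing A'] (φ : A →+* A') (x y : B → A) :
    φ ∘ bil c A x y = bil c A' (φ ∘ x) (φ ∘ y) := by
  funext k
  simp [bil_apply]

/-- the bilinear form with integer coefficients `q`. -/
def qf {B : Type} [Fintype B] (q : B → B → ℤ) {A : Type u} [CommRing A] (x y : B → A) : A :=
  ∑ i, ∑ j, (q i j : A) * (x i * y j)

/-- the table -/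
structure XTab (B : Type) where
  /-- structure constants: `[b_i, b_j] = ∑ c i j k b_k` -/
  c : B → B → B → ℤ
  /-- `x`-degree -/
  deg : B → ℤ
  /-- Euler element -/
  h : B → ℤ
  /-- quadratic form (on degree 2) -/
  q : B → B → ℤ
  /-- `cl e v = [e^♭, v]` for `e` of degree `2` -/
  cl : B → B → B → ℤ

namespace XTab

variable {B : Type} [Fintype B] [DecidableEq B]

/-- the bracket -/
abbrev br (X : XTab B) (A : Type u) [CommRing A] := bil X.c A

/-- the facts on the table which block (U) uses. -/
structure Good (X : XTab B) : Prop where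
  deg_ge : ∀ b, -2 ≤ X.deg b
  deg_le : ∀ b, X.deg b ≤ 2
  skew : ∀ (A : Type u) [CommRing A] (x y : B → A), X.br A x y = - X.br A y x
  jac : ∀ (A : Type u) [CommRing A] (x y z : B → A),
    X.br A x (X.br A y z) = X.br A (X.br A x y) z + X.br A y (X.br A x z)
  br_sup : ∀ (A : Type u) [CommRing A] (k l : ℤ) (x y : B → A),
    Sup X.deg k x → Sup X.deg l y → Sup X.deg (k + l) (X.br A x y)
  br_h : ∀ (A : Type u) [CommRing A] (x : B → A),
    X.br A (fun b => (X.h b : A)) x = fun b => (X.deg b : A) * x b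
  inj : ∀ (A : Type u) [CommRing A] [Algebra ℚ A] (k : ℤ) (v : B → A), k ≤ 0 → Sup X.deg k v →
    (∀ e : B → A, Sup X.deg 2 e → X.br A v e = 0) → v = 0
  cl_sup : ∀ (A : Type u) [CommRing A] (e v : B → A), Sup X.deg 2 e → Sup X.deg 1 v →
    Sup X.deg (-1) (bil X.cl A e v)
  cliff1 : ∀ (A : Type u) [CommRing A] (e e' v : B → A), Sup X.deg 2 e → Sup X.deg 2 e' →
    Sup X.deg 1 v →
    X.br A e (bil X.cl A e' v) + X.br A e' (bil X.cl A e v) = (2 * qf X.q e e') • v
  cliff2 : ∀ (A : Type u) [CommRing A] (e e' v : B → A), Sup X.deg 2 e → Sup X.deg 2 e' →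
    Sup X.deg (-1) v →
    bil X.cl A e (X.br A e' v) + bil X.cl A e' (X.br A e v) = (2 * qf X.q e e') • v
  card1 : Fintype.card {b // X.deg b = 1} = 64
  card2 : Fintype.card {b // X.deg b = 2} = 14

end XTab

/-- the frames `G i ∈ Aut (e_8 (T))` with entries in `R_i`, and the 14 global vectors `γ`. -/
structure UData {B : Type} [Fintype B] [DecidableEq B] (X : XTab B)
    {R : Type u} [CommRing R] {T : Type u} [CommRing T] [Algebra R T] (C : Cov R T) where
  G : Fin 3 → Matrix B B T
  G' : Fin 3 → Matrix B B T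
  GG' : ∀ i, G i * G' i = 1
  G'G : ∀ i, G' i * G i = 1
  hG : ∀ i a b, G i a b ∈ C.R1 i
  hG' : ∀ i a b, G' i a b ∈ C.R1 i
  hom : ∀ i x y, (G i).mulVec (X.br T x y) = X.br T ((G i).mulVec x) ((G i).mulVec y)
  γ : Fin 14 → B → R
  hγ : ∀ i l, Sup X.deg 2 ((G i).mulVec (algebraMap R T ∘ γ l))
  M : Matrix (Fin 14) (Fin 14) R
  hMs : M.transpose = M
  hMu : IsUnit M.det
  hM : ∀ i k l, algebraMap R T (M k l) =
    qf X.q ((G i).mulVec (algebraMap R T ∘ γ k)) ((G i).mulVec (algebraMap R T ∘ γ l))

end Pool.Agent.Licci.U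

end
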