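import Pool.Agent.Work.MP_a98e4e_ag.Fu.U.Base

section

/-!
# Block (U7a): the filtration by degree, automorphisms and the Euler element
-/

namespace Pool.Agent.Licci.U

open Module

universe u

variable {B : Type} [Fintype B] [DecidableEq B]

/-- the component of degree `k`. -/
def prj (deg : B → ℤ) (k : ℤ) {A : Type u} [Zero A] (x : B → A) : B → A :=
  fun b => if deg b = k then x b else 0

omit [Fintype B] [DecidableEq B] in
theorem prj_sup (deg : B → ℤ) (k : ℤ) {A : Type u} [Zero A] (x : B → A) :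
    Sup deg k (prj deg k x) := by
  intro b hb
  simp [prj, hb]

omit [Fintype B] [DecidableEq B] in
theorem prj_apply (deg : B → ℤ) {A : Type u} [Zero A] (x : B → A) (b : B) :
    prj deg (deg b) x b = x b := by
  simp [prj]

omit [Fintype B] [DecidableEq B] in
theorem prj_eq_zero_of_ge {deg : B → ℤ} {k l : ℤ} {A : Type u} [Zero A] {x : B → A}
    (h : Ge deg k x) (hl : l < k) : prj deg l x = 0 := by
  funext b
  by_cases hb : deg b = l
  · simp [prj, hb, h b (by omega)]
  · simp [prj, hb]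

namespace XTab

/-- `t` is an automorphism of the bracket over `A` which maps degree 2 onto degree 2 -/
structure Aut2 (X : XTab B) (A : Type u) [CommRing A] (t : (B → A) ≃ₗ[A] (B → A)) : Prop where
  hom : ∀ x y, t (X.br A x y) = X.br A (t x) (t y)
  pres : ∀ e, Sup X.deg 2 (t e) ↔ Sup X.deg 2 e

/-- the operator `ad (h - w)` -/
def N (X : XTab B) (A : Type u) [CommRing A] (w : B → A) : (B → A) →ₗ[A] (B → A) :=
  X.br A ((fun b => (X.h b : A)) - w)

variable {X : XTab B}

omit [DecidableEq B] in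
theorem Good.sum_prj (hX : Good.{u} X) {A : Type u} [CommRing A] (x : B → A) :
    ∑ k ∈ Finset.Icc (-2 : ℤ) 2, prj X.deg k x = x := by
  funext b
  rw [Finset.sum_apply]
  simp only [prj]
  rw [Finset.sum_ite_eq]
  rw [if_pos]
  exact Finset.mem_Icc.2 ⟨hX.deg_ge b, hX.deg_le b⟩

theorem Good.br_apply_eq (hX : Good.{u} X) {A : Type u} [CommRing A] (l : ℤ) (v e : B → A)
    (he : Sup X.deg l e) (b : B) :
    X.br A v e b = X.br A (prj X.deg (X.deg b - l) v) e b := by
  conv_lhs => rw [← hX.sum_prj v]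
  rw [map_sum, LinearMap.sum_apply, Finset.sum_apply]
  by_cases hb : X.deg b - l ∈ Finset.Icc (-2 : ℤ) 2
  · rw [Finset.sum_eq_single_of_mem _ hb]
    intro k _ hk
    exact hX.br_sup A k l _ e (prj_sup _ _ _) he b (by omega)
  · rw [Finset.sum_eq_zero]
    · have : prj X.deg (X.deg b - l) v = 0 := by
        funext b'
        have h1 := hX.deg_ge b'
        have h2 := hX.deg_le b'
        have : X.deg b' ≠ X.deg b - l := by
          intro h
          exact hb (Finset.mem_Icc.2 ⟨by omega, by omega⟩)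
        simp [prj, this]
      rw [this, map_zero]
      rfl
    · intro k hk
      refine hX.br_sup A k l _ e (prj_sup _ _ _) he b ?_
      intro h
      apply hb
      have : X.deg b - l = k := by omega
      rw [this]
      exact hk

theorem Good.br_ge (hX : Good.{u} X) {A : Type u} [CommRing A] (k l : ℤ) (x y : B → A)
    (hx : Ge X.deg k x) (hy : Ge X.deg l y) : Ge X.deg (k + l) (X.br A x y) := by
  intro b hb
  conv_lhs => rw [← hX.sum_prj y]
  rw [map_sum, Finset.sum_apply]
  refine Finset.sum_eq_zero fun j _ => ?_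
  rw [hX.br_apply_eq j x _ (prj_sup _ _ _) b]
  by_cases hj : j < l
  · rw [prj_eq_zero_of_ge hy hj, map_zero]
    rfl
  · rw [prj_eq_zero_of_ge hx (by omega : X.deg b - j < k), map_zero]
    rfl

omit [DecidableEq B] in
theorem Good.eq_zero_of_ge (hX : Good.{u} X) {A : Type u} [CommRing A] {k : ℤ} (hk : 3 ≤ k)
    {x : B → A} (hx : Ge X.deg k x) : x = 0 := by
  funext b
  exact hx b (by have := hX.deg_le b; omega)

omit [DecidableEq B] in
theorem Good.ge_two_iff (hX : Good.{u} X) {A : Type u} [CommRing A] (x : B → A) :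
    Ge X.deg 2 x ↔ Sup X.deg 2 x := by
  constructor
  · intro h b hb
    exact h b (by have := hX.deg_le b; omega)
  · intro h b hb
    exact h b (by omega)

omit [Fintype B] [DecidableEq B] in
theorem ge_mono {deg : B → ℤ} {A : Type u} [Zero A] {k l : ℤ} (hkl : k ≤ l) {x : B → A}
    (h : Ge deg l x) : Ge deg k x := fun b hb => h b (by omega)

omit [DecidableEq B] in
theorem Good.ge_all (hX : Good.{u} X) {A : Type u} [CommRing A] {k : ℤ} (hk : k ≤ -2)
    (x : B → A) : Ge X.deg k x := by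
  intro b hb
  have := hX.deg_ge b
  omega

theorem Good.br_eq_zero (hX : Good.{u} X) {A : Type u} [CommRing A] (v e : B → A)
    (hv : Ge X.deg 1 v) (he : Sup X.deg 2 e) : X.br A v e = 0 :=
  hX.eq_zero_of_ge (k := 1 + 2) (by norm_num) (hX.br_ge 1 2 v e hv ((hX.ge_two_iff e).2 he))

theorem Good.prj_eq_zero (hX : Good.{u} X) {A : Type u} [CommRing A] [Algebra ℚ A] (k : ℤ)
    (hk : k ≤ 0) (v : B → A)
    (h : ∀ e : B → A, Sup X.deg 2 e → ∀ b, X.deg b = k + 2 → X.br A v e b = 0) :
    prj X.deg k v = 0 := by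
  refine hX.inj A k _ hk (prj_sup _ _ _) fun e he => ?_
  funext b
  by_cases hb : X.deg b = k + 2
  · have := h e he b hb
    rw [hX.br_apply_eq 2 v e he b] at this
    rw [show X.deg b - 2 = k by omega] at this
    exact this
  · exact hX.br_sup A k 2 _ e (prj_sup _ _ _) he b hb

omit [Fintype B] [DecidableEq B] in
theorem apply_eq_zero_of_prj {deg : B → ℤ} {A : Type u} [Zero A] {v : B → A} {b : B}
    (h : prj deg (deg b) v = 0) : v b = 0 := by
  rw [← prj_apply deg v b, h]
  rfl

theorem Good.ge_one_iff (hX : Good.{u} X) (A : Type u) [CommRing A] [Algebra ℚ A] (v : B → A) :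
    Ge X.deg 1 v ↔ ∀ e, Sup X.deg 2 e → X.br A v e = 0 := by
  constructor
  · intro hv e he
    exact hX.br_eq_zero v e hv he
  · intro h b hb
    exact apply_eq_zero_of_prj (hX.prj_eq_zero (X.deg b) (by omega) v
      fun e he b' _ => by rw [h e he]; rfl)

theorem Good.ge_zero_iff (hX : Good.{u} X) (A : Type u) [CommRing A] [Algebra ℚ A] (v : B → A) :
    Ge X.deg 0 v ↔ ∀ e, Sup X.deg 2 e → Sup X.deg 2 (X.br A v e) := by
  constructor
  · intro hv e he
    have := hX.br_ge 0 2 v e hv ((hX.ge_two_iff e).2 he)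
    rw [zero_add] at this
    exact (hX.ge_two_iff _).1 this
  · intro h b hb
    exact apply_eq_zero_of_prj (hX.prj_eq_zero (X.deg b) (by omega) v
      fun e he b' hb' => h e he b' (by omega))

theorem Good.ge_neg_one_iff (hX : Good.{u} X) (A : Type u) [CommRing A] [Algebra ℚ A]
    (v : B → A) :
    Ge X.deg (-1) v ↔ ∀ e, Sup X.deg 2 e → Ge X.deg 1 (X.br A v e) := by
  constructor
  · intro hv e he
    have := hX.br_ge (-1) 2 v e hv ((hX.ge_two_iff e).2 he)
    exact this
  · intro h b hb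
    exact apply_eq_zero_of_prj (hX.prj_eq_zero (X.deg b) (by omega) v
      fun e he b' hb' => h e he b' (by omega))

/-- automorphisms preserving degree 2 preserve the filtration -/
theorem Good.aut_ge (hX : Good.{u} X) (A : Type u) [CommRing A] [Algebra ℚ A]
    (t : (B → A) ≃ₗ[A] (B → A)) (ht : X.Aut2 A t) (k : ℤ) (v : B → A) :
    Ge X.deg k (t v) ↔ Ge X.deg k v := by
  have hsurj : ∀ e : B → A, Sup X.deg 2 e → ∃ e', Sup X.deg 2 e' ∧ t e' = e := by
    intro e he
    refine ⟨t.symm e, ?_, t.apply_symm_apply e⟩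
    rw [← ht.pres, t.apply_symm_apply]
    exact he
  have h1 : ∀ v, Ge X.deg 1 (t v) ↔ Ge X.deg 1 v := by
    intro v
    rw [hX.ge_one_iff, hX.ge_one_iff]
    constructor
    · intro h e he
      have := h (t e) ((ht.pres e).2 he)
      rw [← ht.hom] at this
      exact (map_eq_zero_iff t t.injective).1 this
    · intro h e he
      obtain ⟨e', he', rfl⟩ := hsurj e he
      rw [← ht.hom, h e' he', map_zero]
  have h0 : ∀ v, Ge X.deg 0 (t v) ↔ Ge X.deg 0 v := by
    intro v
    rw [hX.ge_zero_iff, hX.ge_zero_iff]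
    constructor
    · intro h e he
      have := h (t e) ((ht.pres e).2 he)
      rw [← ht.hom] at this
      exact (ht.pres _).1 this
    · intro h e he
      obtain ⟨e', he', rfl⟩ := hsurj e he
      rw [← ht.hom]
      exact (ht.pres _).2 (h e' he')
  have hm1 : ∀ v, Ge X.deg (-1) (t v) ↔ Ge X.deg (-1) v := by
    intro v
    rw [hX.ge_neg_one_iff, hX.ge_neg_one_iff]
    constructor
    · intro h e he
      have := h (t e) ((ht.pres e).2 he)
      rw [← ht.hom] at this
      exact (h1 _).1 this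
    · intro h e he
      obtain ⟨e', he', rfl⟩ := hsurj e he
      rw [← ht.hom]
      exact (h1 _).2 (h e' he')
  rcases lt_or_ge 2 k with hk | hk
  · constructor
    · intro h
      have := hX.eq_zero_of_ge (by omega) h
      rw [(map_eq_zero_iff t t.injective).1 this]
      intro b _
      rfl
    · intro h
      rw [hX.eq_zero_of_ge (by omega) h, map_zero]
      intro b _
      rfl
  rcases le_or_gt k (-2) with hk' | hk'
  · exact ⟨fun _ => hX.ge_all hk' _, fun _ => hX.ge_all hk' _⟩
  have : k = 2 ∨ k = 1 ∨ k = 0 ∨ k = -1 := by omega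
  rcases this with rfl | rfl | rfl | rfl
  · rw [hX.ge_two_iff, hX.ge_two_iff]
    exact ht.pres v
  · exact h1 v
  · exact h0 v
  · exact hm1 v

theorem Good.br_h_two (hX : Good.{u} X) (A : Type u) [CommRing A] (e : B → A)
    (he : Sup X.deg 2 e) : X.br A (fun b => (X.h b : A)) e = (2 : A) • e := by
  rw [hX.br_h]
  funext b
  by_cases hb : X.deg b = 2
  · simp [hb]
  · simp [he b hb]

/-- ... and the Euler element modulo degree `≥ 1` -/
theorem Good.aut_h (hX : Good.{u} X) (A : Type u) [CommRing A] [Algebra ℚ A]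
    (t : (B → A) ≃ₗ[A] (B → A)) (ht : X.Aut2 A t) :
    Ge X.deg 1 (t (fun b => (X.h b : A)) - fun b => (X.h b : A)) := by
  rw [hX.ge_one_iff]
  intro e he
  rw [map_sub, LinearMap.sub_apply, hX.br_h_two A e he]
  have h2 : Sup X.deg 2 (t.symm e) := by
    rw [← ht.pres, t.apply_symm_apply]
    exact he
  have := ht.hom (fun b => (X.h b : A)) (t.symm e)
  rw [hX.br_h_two A _ h2, map_smul, t.apply_symm_apply] at this
  rw [← this, sub_self]

theorem Good.euler_step (hX : Good.{u} X) (A : Type u) [CommRing A] (w : B → A)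
    (hw : Ge X.deg 1 w) (k : ℤ) (v : B → A) (hv : Ge X.deg k v) :
    Ge X.deg (k + 1) (X.N A w v - (k : A) • v) := by
  intro b hb
  have h1 : X.br A w v b = 0 := by
    have := hX.br_ge 1 k w v hw hv
    exact this b (by omega)
  have h2 : X.N A w v b = (X.deg b : A) * v b := by
    rw [N, map_sub, LinearMap.sub_apply, hX.br_h, Pi.sub_apply, h1, sub_zero]
  rw [Pi.sub_apply, h2, Pi.smul_apply, smul_eq_mul]
  by_cases hb' : X.deg b = k
  · rw [hb', sub_self]
  · rw [hv b (by omega)]
    simp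

theorem Good.euler_annih (hX : Good.{u} X) (A : Type u) [CommRing A] (w : B → A)
    (hw : Ge X.deg 1 w) :
    (X.N A w - 2) * ((X.N A w + 2) * (X.N A w + 1) * X.N A w * (X.N A w - 1)) =
      (0 : (B → A) →ₗ[A] (B → A)) := by
  have hre : (X.N A w - 2) * ((X.N A w + 2) * (X.N A w + 1) * X.N A w * (X.N A w - 1)) =
      (X.N A w - 2) * ((X.N A w - 1) * (X.N A w * ((X.N A w + 1) * (X.N A w + 2)))) := by
    have h := congrArg (Polynomial.aeval (R := A) (X.N A w))
      (show (Polynomial.X - 2) * ((Polynomial.X + 2) * (Polynomial.X + 1) * Polynomial.X *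
          (Polynomial.X - 1)) = (Polynomial.X - 2) * ((Polynomial.X - 1) * (Polynomial.X *
          ((Polynomial.X + 1) * (Polynomial.X + 2)))) by ring)
    simpa only [map_mul, map_sub, map_add, Polynomial.aeval_X, map_one, map_ofNat] using h
  rw [hre]
  have two : ∀ v : B → A, (2 : (B → A) →ₗ[A] (B → A)) v = (2 : A) • v := by
    intro v
    have : (2 : (B → A) →ₗ[A] (B → A)) = 1 + 1 := by norm_num
    rw [this, LinearMap.add_apply, two_smul]
    rfl
  have e1 : ∀ v : B → A, X.N A w v - ((-2 : ℤ) : A) • v = (X.N A w + 2) v := by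
    intro v
    rw [LinearMap.add_apply, two]
    push_cast
    rw [neg_smul, sub_neg_eq_add]
  have e2 : ∀ v : B → A, X.N A w v - ((-1 : ℤ) : A) • v = (X.N A w + 1) v := by
    intro v
    rw [LinearMap.add_apply, Module.End.one_apply]
    push_cast
    rw [neg_smul, sub_neg_eq_add, one_smul]
  have e3 : ∀ v : B → A, X.N A w v - ((0 : ℤ) : A) • v = X.N A w v := by
    intro v
    push_cast
    rw [zero_smul, sub_zero]
  have e4 : ∀ v : B → A, X.N A w v - ((1 : ℤ) : A) • v = (X.N A w - 1) v := by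
    intro v
    rw [LinearMap.sub_apply, Module.End.one_apply]
    push_cast
    rw [one_smul]
  have e5 : ∀ v : B → A, X.N A w v - ((2 : ℤ) : A) • v = (X.N A w - 2) v := by
    intro v
    rw [LinearMap.sub_apply, two]
    push_cast
    rfl
  refine LinearMap.ext fun v => ?_
  have s1 := hX.euler_step A w hw (-2) v (hX.ge_all le_rfl v)
  rw [e1, show (-2 : ℤ) + 1 = -1 by norm_num] at s1
  have s2 := hX.euler_step A w hw (-1) _ s1
  rw [e2, show (-1 : ℤ) + 1 = 0 by norm_num] at s2
  have s3 := hX.euler_step A w hw 0 _ s2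
  rw [e3, show (0 : ℤ) + 1 = 1 by norm_num] at s3
  have s4 := hX.euler_step A w hw 1 _ s3
  rw [e4, show (1 : ℤ) + 1 = 2 by norm_num] at s4
  have s5 := hX.euler_step A w hw 2 _ s4
  rw [e5] at s5
  have s6 := hX.eq_zero_of_ge (by norm_num) s5
  simpa only [Module.End.mul_apply, LinearMap.zero_apply] using s6

theorem Good.euler_ker (hX : Good.{u} X) (A : Type u) [CommRing A] [Algebra ℚ A] (w v : B → A)
    (hw : Ge X.deg 1 w) (hv : X.N A w v = (2 : A) • v) : Sup X.deg 2 v := by
  have step : ∀ k : ℤ, k < 2 → Ge X.deg k v → Ge X.deg (k + 1) v := by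
    intro k hk h
    have := hX.euler_step A w hw k v h
    rw [hv, ← sub_smul] at this
    intro b hb
    have h2 := this b hb
    rw [Pi.smul_apply, smul_eq_mul] at h2
    have hu : IsUnit ((2 : A) - (k : A)) := by
      have hq : ((2 : ℚ) - (k : ℚ)) ≠ 0 := by
        have : (k : ℚ) < 2 := by exact_mod_cast hk
        linarith
      have := (IsUnit.mk0 _ hq).map (algebraMap ℚ A)
      rwa [map_sub, map_intCast, map_ofNat] at this
    exact (hu.mul_right_eq_zero).1 h2
  have h0 := hX.ge_all (A := A) le_rfl v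
  have h1 := step _ (by norm_num) h0
  have h2 := step _ (by norm_num) h1
  have h3 := step _ (by norm_num) h2
  have h4 := step _ (by norm_num) h3
  exact (hX.ge_two_iff v).1 (by simpa using h4)

theorem Good.euler_two (hX : Good.{u} X) (A : Type u) [CommRing A] (w v : B → A)
    (hw : Ge X.deg 1 w) (hv : Sup X.deg 2 v) : X.N A w v = (2 : A) • v := by
  rw [N, map_sub, LinearMap.sub_apply, hX.br_h_two A v hv, hX.br_eq_zero w v hw hv, sub_zero]

end XTab

end Pool.Agent.Licci.U

end

section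

/-!
# Block (U7b): fourteen vectors of degree 2 with unimodular Gram matrix
-/

namespace Pool.Agent.Licci.U

open Module

universe u

variable {B : Type} [Fintype B] [DecidableEq B]

omit [DecidableEq B] in
theorem qf_zero_right (q : B → B → ℤ) {A : Type u} [CommRing A] (x : B → A) :
    qf q x 0 = 0 := by
  simp [qf]

omit [DecidableEq B] in
theorem qf_add_right (q : B → B → ℤ) {A : Type u} [CommRing A] (x y y' : B → A) :
    qf q x (y + y') = qf q x y + qf q x y' := by
  simp only [qf, Pi.add_apply, ← Finset.sum_add_distrib]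
  refine Finset.sum_congr rfl fun i _ => Finset.sum_congr rfl fun j _ => ?_
  ring

omit [DecidableEq B] in
theorem qf_smul_right (q : B → B → ℤ) {A : Type u} [CommRing A] (a : A) (x y : B → A) :
    qf q x (a • y) = a * qf q x y := by
  simp only [qf, Pi.smul_apply, smul_eq_mul, Finset.mul_sum]
  refine Finset.sum_congr rfl fun i _ => Finset.sum_congr rfl fun j _ => ?_
  ring

omit [DecidableEq B] in
theorem qf_add_left (q : B → B → ℤ) {A : Type u} [CommRing A] (x x' y : B → A) :
    qf q (x + x') y = qf q x y + qf q x' y := by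
  simp only [qf, Pi.add_apply, ← Finset.sum_add_distrib]
  refine Finset.sum_congr rfl fun i _ => Finset.sum_congr rfl fun j _ => ?_
  ring

omit [DecidableEq B] in
theorem qf_smul_left (q : B → B → ℤ) {A : Type u} [CommRing A] (a : A) (x y : B → A) :
    qf q (a • x) y = a * qf q x y := by
  simp only [qf, Pi.smul_apply, smul_eq_mul, Finset.mul_sum]
  refine Finset.sum_congr rfl fun i _ => Finset.sum_congr rfl fun j _ => ?_
  ring

omit [DecidableEq B] in
theorem qf_sum_right (q : B → B → ℤ) {A : Type u} [CommRing A] {ι : Type*} (s : Finset ι)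
    (x : B → A) (y : ι → B → A) : qf q x (∑ l ∈ s, y l) = ∑ l ∈ s, qf q x (y l) := by
  classical
  induction s using Finset.induction_on with
  | empty => simp [qf_zero_right]
  | insert a s ha ih => rw [Finset.sum_insert ha, Finset.sum_insert ha, qf_add_right, ih]

omit [DecidableEq B] in
theorem qf_map (q : B → B → ℤ) {A A' : Type u} [CommRing A] [CommRing A'] (φ : A →+* A')
    (x y : B → A) : φ (qf q x y) = qf q (φ ∘ x) (φ ∘ y) := by
  simp [qf]

namespace XTab

variable {X : XTab B}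

omit [DecidableEq B] in
theorem indep2 (A : Type u) [CommRing A] (e : Fin 14 → B → A)
    (M : Matrix (Fin 14) (Fin 14) A) (hM : ∀ k l, M k l = qf X.q (e k) (e l))
    (hu : IsUnit M.det) (c : Fin 14 → A) (hc : ∑ l, c l • e l = 0) : c = 0 := by
  have h1 : M.mulVec c = 0 := by
    funext k
    rw [Matrix.mulVec, dotProduct]
    have : ∀ l, M k l * c l = qf X.q (e k) (c l • e l) := by
      intro l
      rw [hM, qf_smul_right, mul_comm]
    simp only [this]
    rw [← qf_sum_right, hc, qf_zero_right]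
    rfl
  have h2 : (M⁻¹ * M).mulVec c = 0 := by
    rw [← Matrix.mulVec_mulVec, h1, Matrix.mulVec_zero]
  rwa [Matrix.nonsing_inv_mul _ hu, Matrix.one_mulVec] at h2

theorem Good.indep2 (_hX : Good.{u} X) (A : Type u) [CommRing A] (e : Fin 14 → B → A)
    (M : Matrix (Fin 14) (Fin 14) A) (hM : ∀ k l, M k l = qf X.q (e k) (e l))
    (hu : IsUnit M.det) (c : Fin 14 → A) (hc : ∑ l, c l • e l = 0) : c = 0 :=
  XTab.indep2 A e M hM hu c hc

/-- 14 vectors of degree 2 with unimodular Gram matrix span degree 2 (explicit coefficients) -/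
theorem Good.span2 (hX : Good.{u} X) (A : Type u) [CommRing A] (e : Fin 14 → B → A)
    (he : ∀ l, Sup X.deg 2 (e l)) (M : Matrix (Fin 14) (Fin 14) A)
    (hM : ∀ k l, M k l = qf X.q (e k) (e l)) (hu : IsUnit M.det)
    (v : B → A) (hv : Sup X.deg 2 v) :
    v = ∑ l, (∑ k, M⁻¹ l k * qf X.q (e k) v) • e l := by
  classical
  let σ : {b // X.deg b = 2} ≃ Fin 14 := Fintype.equivFinOfCardEq hX.card2
  let Em : Matrix (Fin 14) (Fin 14) A := fun l i => e l (σ.symm i).1
  let Qm : Matrix (Fin 14) (Fin 14) A := fun i j => (X.q (σ.symm i).1 (σ.symm j).1 : A)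
  have hsum : ∀ f : B → A, (∀ b, X.deg b ≠ 2 → f b = 0) →
      ∑ b, f b = ∑ i : Fin 14, f (σ.symm i).1 := by
    intro f hf
    rw [← Equiv.sum_comp σ.symm.symm (fun i : Fin 14 => f (σ.symm i).1)]
    simp only [Equiv.symm_symm, Equiv.symm_apply_apply]
    have h1 : ∑ b ∈ Finset.univ.filter (fun b => X.deg b = 2), f b = ∑ b, f b := by
      refine Finset.sum_subset (Finset.filter_subset _ _) fun b _ hb => ?_
      exact hf b (by simpa using hb)
    rw [← h1]
    exact (Finset.sum_subtype (Finset.univ.filter (fun b => X.deg b = 2))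
      (fun b => by simp) f)
  have hfac : M = Em * Qm * Em.transpose := by
    ext k l
    rw [hM, qf]
    rw [hsum _ (fun b hb => by
      refine Finset.sum_eq_zero fun j _ => ?_
      rw [he k b hb, zero_mul, mul_zero])]
    rw [Matrix.mul_assoc, Matrix.mul_apply]
    refine Finset.sum_congr rfl fun i _ => ?_
    rw [Matrix.mul_apply, Finset.mul_sum]
    rw [hsum _ (fun b hb => by rw [he l b hb, mul_zero, mul_zero])]
    refine Finset.sum_congr rfl fun j _ => ?_
    change (X.q (σ.symm i).1 (σ.symm j).1 : A) * (e k (σ.symm i).1 * e l (σ.symm j).1) =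
      e k (σ.symm i).1 * ((X.q (σ.symm i).1 (σ.symm j).1 : A) * e l (σ.symm j).1)
    ring
  have hEu : IsUnit Em.det := by
    rw [hfac, Matrix.det_mul, Matrix.det_mul] at hu
    exact isUnit_of_mul_isUnit_left (isUnit_of_mul_isUnit_left hu)
  let vv : Fin 14 → A := fun i => v (σ.symm i).1
  let a : Fin 14 → A := Matrix.vecMul vv Em⁻¹
  have ha : v = ∑ l, a l • e l := by
    have h1 : Matrix.vecMul a Em = vv := by
      rw [Matrix.vecMul_vecMul, Matrix.nonsing_inv_mul _ hEu, Matrix.vecMul_one]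
    funext b
    rw [Finset.sum_apply]
    by_cases hb : X.deg b = 2
    · have h2 := congrFun h1 (σ ⟨b, hb⟩)
      simp only [Matrix.vecMul, dotProduct, vv, Em, Equiv.symm_apply_apply] at h2
      rw [← h2]
      refine Finset.sum_congr rfl fun l _ => ?_
      rw [Pi.smul_apply, smul_eq_mul]
    · rw [hv b hb]
      rw [Finset.sum_eq_zero]
      intro l _
      rw [Pi.smul_apply, he l b hb, smul_zero]
  have hq : (fun k => qf X.q (e k) v) = M.mulVec a := by
    funext k
    conv_lhs => rw [ha]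
    rw [qf_sum_right, Matrix.mulVec, dotProduct]
    refine Finset.sum_congr rfl fun l _ => ?_
    rw [qf_smul_right, hM, mul_comm]
  have hcoef : ∀ l, ∑ k, M⁻¹ l k * qf X.q (e k) v = a l := by
    intro l
    have h3 : M⁻¹.mulVec (fun k => qf X.q (e k) v) = a := by
      rw [hq, Matrix.mulVec_mulVec, Matrix.nonsing_inv_mul _ hu, Matrix.one_mulVec]
    exact congrFun h3 l
  simp only [hcoef]
  exact ha

end XTab

end Pool.Agent.Licci.U

end

section

/-!
# Block (U7c): the operators `op e f = ad e ∘ cl f` on degree 1 and the maps `tau t`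
-/

namespace Pool.Agent.Licci.U

open Module

universe u

variable {B : Type} [Fintype B] [DecidableEq B]

namespace XTab

variable (X : XTab B)

/-- extension by zero from degree `k` -/
def ext (k : ℤ) (A : Type u) [CommRing A] : ({b // X.deg b = k} → A) →ₗ[A] (B → A) where
  toFun x := fun b => if hb : X.deg b = k then x ⟨b, hb⟩ else 0
  map_add' x y := by funext b; by_cases hb : X.deg b = k <;> simp [hb]
  map_smul' a x := by funext b; by_cases hb : X.deg b = k <;> simp [hb]

/-- restriction to degree `k` -/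
def res (k : ℤ) (A : Type u) [CommRing A] : (B → A) →ₗ[A] ({b // X.deg b = k} → A) where
  toFun x := fun b => x b.1
  map_add' _ _ := rfl
  map_smul' _ _ := rfl

/-- `op e e' = ad e ∘ (cl e')` on degree 1 -/
noncomputable def op (A : Type u) [CommRing A] (e e' : B → A) :
    Module.End A ({b // X.deg b = 1} → A) :=
  X.res 1 A ∘ₗ X.br A e ∘ₗ bil X.cl A e' ∘ₗ X.ext 1 A

/-- the map induced on degree 1 by `t` -/
noncomputable def tau (A : Type u) [CommRing A] (t : (B → A) ≃ₗ[A] (B → A)) :
    Module.End A ({b // X.deg b = 1} → A) :=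
  X.res 1 A ∘ₗ (t : (B → A) →ₗ[A] (B → A)) ∘ₗ X.ext 1 A

variable {X}

omit [Fintype B] [DecidableEq B] in
theorem ext_apply (k : ℤ) (A : Type u) [CommRing A] (x : {b // X.deg b = k} → A) (b : B) :
    X.ext k A x b = if hb : X.deg b = k then x ⟨b, hb⟩ else 0 := rfl

omit [Fintype B] [DecidableEq B] in
theorem res_apply (k : ℤ) (A : Type u) [CommRing A] (x : B → A) (b : {b // X.deg b = k}) :
    X.res k A x b = x b.1 := rfl

omit [Fintype B] [DecidableEq B] in
theorem ext_sup (k : ℤ) (A : Type u) [CommRing A] (x : {b // X.deg b = k} → A) :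
    Sup X.deg k (X.ext k A x) := by
  intro b hb
  rw [ext_apply, dif_neg hb]

omit [Fintype B] [DecidableEq B] in
theorem res_ext (k : ℤ) (A : Type u) [CommRing A] (x : {b // X.deg b = k} → A) :
    X.res k A (X.ext k A x) = x := by
  funext b
  rw [res_apply, ext_apply, dif_pos b.2]

omit [Fintype B] [DecidableEq B] in
theorem ext_res (k : ℤ) (A : Type u) [CommRing A] (v : B → A) :
    X.ext k A (X.res k A v) = prj X.deg k v := by
  funext b
  by_cases hb : X.deg b = k
  · rw [ext_apply, dif_pos hb, res_apply, prj, if_pos hb]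
  · rw [ext_apply, dif_neg hb, prj, if_neg hb]

omit [Fintype B] [DecidableEq B] in
theorem ext_res_of_sup (k : ℤ) (A : Type u) [CommRing A] (v : B → A) (hv : Sup X.deg k v) :
    X.ext k A (X.res k A v) = v := by
  rw [ext_res]
  funext b
  by_cases hb : X.deg b = k
  · rw [prj, if_pos hb]
  · rw [prj, if_neg hb, hv b hb]

omit [Fintype B] [DecidableEq B] in
theorem sup_ge {deg : B → ℤ} {k : ℤ} {A : Type u} [Zero A] {v : B → A} (h : Sup deg k v) :
    Ge deg k v := fun b hb => h b (by omega)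

omit [Fintype B] [DecidableEq B] in
theorem ge_sub_prj {deg : B → ℤ} {k : ℤ} {A : Type u} [CommRing A] {v : B → A}
    (h : Ge deg k v) : Ge deg (k + 1) (v - prj deg k v) := by
  intro b hb
  rw [Pi.sub_apply, prj]
  by_cases hb' : deg b = k
  · rw [if_pos hb', sub_self]
  · rw [if_neg hb', sub_zero, h b (by omega)]

omit [Fintype B] [DecidableEq B] in
theorem res_eq_zero_of_ge {k l : ℤ} {A : Type u} [CommRing A] {v : B → A} (h : Ge X.deg l v)
    (hkl : k < l) : X.res k A v = 0 := by
  funext b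
  exact h b.1 (by have := b.2; omega)

omit [DecidableEq B] in
theorem tau_one' (A : Type u) [CommRing A] : X.tau A 1 = 1 := by
  refine LinearMap.ext fun x => ?_
  change X.res 1 A (X.ext 1 A x) = x
  exact res_ext 1 A x

theorem Good.tau_one (_hX : Good.{u} X) (A : Type u) [CommRing A] : X.tau A 1 = 1 := tau_one' A

/-- restriction of `t v` to degree 1, `v` in degree `≥ 1` -/
theorem Good.res_tau (hX : Good.{u} X) (A : Type u) [CommRing A] [Algebra ℚ A]
    (t : (B → A) ≃ₗ[A] (B → A)) (ht : X.Aut2 A t) (v : B → A) (hv : Ge X.deg 1 v) :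
    X.res 1 A (t v) = X.tau A t (X.res 1 A v) := by
  change X.res 1 A (t v) = X.res 1 A (t (X.ext 1 A (X.res 1 A v)))
  rw [ext_res]
  have h1 : Ge X.deg (1 + 1) (t (v - prj X.deg 1 v)) :=
    (hX.aut_ge A t ht _ _).2 (ge_sub_prj hv)
  have h2 := res_eq_zero_of_ge (X := X) (k := 1) h1 (by norm_num)
  rw [map_sub, map_sub, sub_eq_zero] at h2
  exact h2

theorem Good.tau_mul (hX : Good.{u} X) (A : Type u) [CommRing A] [Algebra ℚ A]
    (t t' : (B → A) ≃ₗ[A] (B → A)) (ht : X.Aut2 A t) (ht' : X.Aut2 A t') :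
    X.tau A (t' * t) = X.tau A t' * X.tau A t := by
  refine LinearMap.ext fun x => ?_
  change X.res 1 A (t' (t (X.ext 1 A x))) = X.tau A t' (X.tau A t x)
  rw [hX.res_tau A t' ht' _ ((hX.aut_ge A t ht _ _).2 (sup_ge (ext_sup 1 A x)))]
  rfl

theorem Good.cliff1' (hX : Good.{u} X) (A : Type u) [CommRing A] (h2 : IsUnit (2 : A))
    (f v : B → A) (hf : Sup X.deg 2 f) (hv : Sup X.deg 1 v) :
    X.br A f (bil X.cl A f v) = qf X.q f f • v := by
  have h := hX.cliff1 A f f v hf hf hv
  rw [← two_smul A, mul_smul] at h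
  exact h2.smul_left_cancel.1 h

theorem Good.cliff2' (hX : Good.{u} X) (A : Type u) [CommRing A] (h2 : IsUnit (2 : A))
    (f v : B → A) (hf : Sup X.deg 2 f) (hv : Sup X.deg (-1) v) :
    bil X.cl A f (X.br A f v) = qf X.q f f • v := by
  have h := hX.cliff2 A f f v hf hf hv
  rw [← two_smul A, mul_smul] at h
  exact h2.smul_left_cancel.1 h

theorem Good.op_apply (hX : Good.{u} X) (A : Type u) [CommRing A] (e f : B → A)
    (he : Sup X.deg 2 e) (hf : Sup X.deg 2 f) (x : {b // X.deg b = 1} → A) :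
    X.ext 1 A (X.op A e f x) = X.br A e (bil X.cl A f (X.ext 1 A x)) := by
  change X.ext 1 A (X.res 1 A (X.br A e (bil X.cl A f (X.ext 1 A x)))) = _
  apply ext_res_of_sup
  have h1 := hX.cl_sup A f (X.ext 1 A x) hf (ext_sup 1 A x)
  have h2 := hX.br_sup A 2 (-1) e _ he h1
  exact h2

omit [Fintype B] [DecidableEq B] in
theorem ext_inj {k : ℤ} {A : Type u} [CommRing A] {x y : {b // X.deg b = k} → A}
    (h : X.ext k A x = X.ext k A y) : x = y := by
  rw [← res_ext (X := X) k A x, h, res_ext]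

/-- orthogonal `e`, `e'` with `e''` of unit square `d`: `(op e e'') (op e' e'')` -/
theorem Good.op_op (hX : Good.{u} X) (A : Type u) [CommRing A] (e e' f : B → A)
    (he : Sup X.deg 2 e) (he' : Sup X.deg 2 e') (hf : Sup X.deg 2 f)
    (h3' : qf X.q f e' = 0) (h4 : IsUnit (2 : A)) (x : {b // X.deg b = 1} → A) :
    X.ext 1 A (X.op A e f (X.op A e' f x)) =
      -(qf X.q f f • X.br A e (bil X.cl A e' (X.ext 1 A x))) := by
  rw [hX.op_apply A e f he hf, hX.op_apply A e' f he' hf]
  have h5 := hX.cl_sup A f (X.ext 1 A x) hf (ext_sup 1 A x)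
  have h6 := hX.cliff2 A f e' _ hf he' h5
  rw [h3', mul_zero, zero_smul, hX.cliff1' A h4 f _ hf (ext_sup 1 A x)] at h6
  rw [eq_neg_of_add_eq_zero_left h6]
  rw [map_neg, map_smul, map_smul]

theorem Good.op_anti (hX : Good.{u} X) (A : Type u) [CommRing A] (e e' f : B → A)
    (he : Sup X.deg 2 e) (he' : Sup X.deg 2 e') (hf : Sup X.deg 2 f) (h1 : qf X.q e e' = 0)
    (_h1' : qf X.q e' e = 0) (_h2 : qf X.q e f = 0) (h2' : qf X.q f e = 0)
    (_h3 : qf X.q e' f = 0) (h3' : qf X.q f e' = 0) (h4 : IsUnit (2 : A)) :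
    X.op A e f * X.op A e' f = - (X.op A e' f * X.op A e f) := by
  refine LinearMap.ext fun x => ?_
  apply ext_inj (X := X)
  rw [LinearMap.neg_apply, map_neg, Module.End.mul_apply, Module.End.mul_apply]
  rw [hX.op_op A e e' f he he' hf h3' h4, hX.op_op A e' e f he' he hf h2' h4]
  have h5 := hX.cliff1 A e e' (X.ext 1 A x) he he' (ext_sup 1 A x)
  rw [h1, mul_zero, zero_smul] at h5
  rw [eq_neg_of_add_eq_zero_left h5, smul_neg]

theorem Good.op_sq (hX : Good.{u} X) (A : Type u) [CommRing A] (e f : B → A)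
    (he : Sup X.deg 2 e) (hf : Sup X.deg 2 f) (_h2 : qf X.q e f = 0) (h2' : qf X.q f e = 0)
    (h4 : IsUnit (2 : A)) :
    X.op A e f * X.op A e f = (-(qf X.q e e * qf X.q f f)) • (1 : Module.End A _) := by
  refine LinearMap.ext fun x => ?_
  apply ext_inj (X := X)
  rw [Module.End.mul_apply, hX.op_op A e e f he he hf h2' h4,
    hX.cliff1' A h4 e _ he (ext_sup 1 A x), LinearMap.smul_apply, Module.End.one_apply, map_smul,
    smul_smul, ← neg_smul, mul_comm]

/-- naturality -/
theorem Good.op_nat (hX : Good.{u} X) (A : Type u) [CommRing A] [Algebra ℚ A]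
    (t : (B → A) ≃ₗ[A] (B → A)) (ht : X.Aut2 A t) (e f : B → A) (he : Sup X.deg 2 e)
    (hf : Sup X.deg 2 f) (hq : qf X.q (t f) (t f) = qf X.q f f) (hu : IsUnit (qf X.q f f)) :
    X.tau A t * X.op A e f = X.op A (t e) (t f) * X.tau A t := by
  have h4 : IsUnit (2 : A) := by
    have := (IsUnit.mk0 (2 : ℚ) (by norm_num)).map (algebraMap ℚ A)
    rwa [map_ofNat] at this
  have hte : Sup X.deg 2 (t e) := (ht.pres e).2 he
  have htf : Sup X.deg 2 (t f) := (ht.pres f).2 hf
  refine LinearMap.ext fun x => ?_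
  apply ext_inj (X := X)
  rw [Module.End.mul_apply, Module.End.mul_apply, hX.op_apply A (t e) (t f) hte htf]
  set v : B → A := X.ext 1 A x with hv
  have hvs : Sup X.deg 1 v := ext_sup 1 A x
  set v' : B → A := bil X.cl A f v with hv'
  have hvs' : Sup X.deg (-1) v' := hX.cl_sup A f v hf hvs
  have hge' : Ge X.deg (-1) (t v') := (hX.aut_ge A t ht _ _).2 (sup_ge hvs')
  have hge : Ge X.deg 1 (t v) := (hX.aut_ge A t ht _ _).2 (sup_ge hvs)
  -- degree 1 part of `[t f, t v'] = q(f,f) t v`
  have hprj : ∀ g : B → A, Sup X.deg 2 g →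
      X.br A g (prj X.deg (-1) (t v')) = prj X.deg 1 (X.br A g (t v')) := by
    intro g hg
    have e1 : Ge X.deg (2 + (-1 + 1)) (X.br A g (t v' - prj X.deg (-1) (t v'))) :=
      hX.br_ge 2 (-1 + 1) _ _ (sup_ge hg) (ge_sub_prj hge')
    have e2 : Sup X.deg (2 + -1) (X.br A g (prj X.deg (-1) (t v'))) :=
      hX.br_sup A 2 (-1) _ _ hg (prj_sup _ _ _)
    have e3 : X.br A g (t v') = X.br A g (prj X.deg (-1) (t v')) +
        X.br A g (t v' - prj X.deg (-1) (t v')) := by
      rw [← map_add, add_sub_cancel]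
    rw [e3]
    funext b
    by_cases hb : X.deg b = 1
    · rw [prj, if_pos hb, Pi.add_apply, e1 b (by omega), add_zero]
    · rw [prj, if_neg hb, e2 b (by omega)]
  have hkey : prj X.deg (-1) (t v') = bil X.cl A (t f) (prj X.deg 1 (t v)) := by
    have e1 : X.br A (t f) (t v') = qf X.q f f • t v := by
      rw [← ht.hom, hv', hX.cliff1' A h4 f v hf hvs, map_smul]
    have e2 : X.br A (t f) (prj X.deg (-1) (t v')) = qf X.q f f • prj X.deg 1 (t v) := by
      rw [hprj (t f) htf, e1]
      funext b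
      by_cases hb : X.deg b = 1
      · simp [prj, hb]
      · simp [prj, hb]
    have e3 := hX.cliff2' A h4 (t f) (prj X.deg (-1) (t v')) htf (prj_sup _ _ _)
    rw [e2, map_smul, hq] at e3
    exact (hu.smul_left_cancel.1 e3).symm
  change X.ext 1 A (X.res 1 A (t (X.ext 1 A (X.op A e f x)))) =
    X.br A (t e) (bil X.cl A (t f) (X.ext 1 A (X.res 1 A (t (X.ext 1 A x)))))
  rw [hX.op_apply A e f he hf, ← hv, ← hv', ht.hom, ext_res, ext_res, ← hprj (t e) hte, hkey]

end XTab

end Pool.Agent.Licci.U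

end

section

/-!
# Block (U), module U7d, part A: frames
-/

set_option linter.unusedSectionVars false

namespace Pool.Agent.Licci.U

open Module

universe u

variable {B : Type} [Fintype B] [DecidableEq B]

/-- vectors with entries in a subalgebra -/
def Pts {R T : Type u} [CommRing R] [CommRing T] [Algebra R T] (A : Subalgebra R T) {ι : Type}
    (x : ι → T) : Prop := ∀ a, x a ∈ A

section pts

variable {R T : Type u} [CommRing R] [CommRing T] [Algebra R T] {A : Subalgebra R T} {ι : Type}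

theorem Pts.add {x y : ι → T} (hx : Pts A x) (hy : Pts A y) : Pts A (x + y) :=
  fun a => A.add_mem (hx a) (hy a)

theorem Pts.sub {x y : ι → T} (hx : Pts A x) (hy : Pts A y) : Pts A (x - y) :=
  fun a => A.sub_mem (hx a) (hy a)

theorem Pts.smul {x : ι → T} {c : T} (hc : c ∈ A) (hx : Pts A x) : Pts A (c • x) :=
  fun a => A.mul_mem hc (hx a)

theorem Pts.sum {κ : Type} {s : Finset κ} {x : κ → ι → T} (hx : ∀ k ∈ s, Pts A (x k)) :
    Pts A (∑ k ∈ s, x k) := fun a => by
  rw [Finset.sum_apply]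
  exact A.sum_mem fun k hk => hx k hk a

theorem Pts.bil [Fintype ι] (c : ι → ι → ι → ℤ) {x y : ι → T} (hx : Pts A x) (hy : Pts A y) :
    Pts A (bil c T x y) := fun k => by
  rw [bil_apply]
  exact A.sum_mem fun i _ => A.sum_mem fun j _ =>
    A.mul_mem (A.intCast_mem _) (A.mul_mem (hx i) (hy j))

theorem Pts.qf [Fintype ι] (q : ι → ι → ℤ) {x y : ι → T} (hx : Pts A x) (hy : Pts A y) :
    qf q x y ∈ A :=
  A.sum_mem fun i _ => A.sum_mem fun j _ => A.mul_mem (A.intCast_mem _) (A.mul_mem (hx i) (hy j))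

theorem Pts.algebraMap (x : ι → R) : Pts A (algebraMap R T ∘ x) := fun a => A.algebraMap_mem _

theorem Pts.mulVec [Fintype ι] {G : Matrix ι ι T} (hG : ∀ a b, G a b ∈ A) {x : ι → T}
    (hx : Pts A x) : Pts A (G.mulVec x) := fun a =>
  A.sum_mem fun b _ => A.mul_mem (hG a b) (hx b)

end pts

section qf

variable {A : Type u} [CommRing A] (q : B → B → ℤ)

theorem qf_sum_left {κ : Type} (s : Finset κ) (x : κ → B → A) (y : B → A) :
    qf q (∑ k ∈ s, x k) y = ∑ k ∈ s, qf q (x k) y := by
  classical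
  induction s using Finset.induction_on with
  | empty => simp [qf]
  | insert a s ha ih => rw [Finset.sum_insert ha, Finset.sum_insert ha, qf_add_left, ih]

end qf

theorem Sup.add {deg : B → ℤ} {k : ℤ} {A : Type u} [CommRing A] {x y : B → A} (hx : Sup deg k x)
    (hy : Sup deg k y) : Sup deg k (x + y) := fun b hb => by
  rw [Pi.add_apply, hx b hb, hy b hb, add_zero]

theorem Sup.smul {deg : B → ℤ} {k : ℤ} {A : Type u} [CommRing A] {x : B → A} (c : A)
    (hx : Sup deg k x) : Sup deg k (c • x) := fun b hb => by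
  rw [Pi.smul_apply, hx b hb, smul_zero]

theorem Sup.sum {deg : B → ℤ} {k : ℤ} {A : Type u} [CommRing A] {κ : Type} {s : Finset κ}
    {x : κ → B → A} (hx : ∀ i ∈ s, Sup deg k (x i)) : Sup deg k (∑ i ∈ s, x i) := fun b hb => by
  rw [Finset.sum_apply]
  exact Finset.sum_eq_zero fun i hi => hx i hi b hb

theorem Ge.add {deg : B → ℤ} {k : ℤ} {A : Type u} [CommRing A] {x y : B → A} (hx : Ge deg k x)
    (hy : Ge deg k y) : Ge deg k (x + y) := fun b hb => by
  rw [Pi.add_apply, hx b hb, hy b hb, add_zero]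

theorem Ge.sub {deg : B → ℤ} {k : ℤ} {A : Type u} [CommRing A] {x y : B → A} (hx : Ge deg k x)
    (hy : Ge deg k y) : Ge deg k (x - y) := fun b hb => by
  rw [Pi.sub_apply, hx b hb, hy b hb, sub_zero]

theorem Sup.ge {deg : B → ℤ} {k l : ℤ} (hkl : l ≤ k) {A : Type u} [CommRing A] {x : B → A}
    (hx : Sup deg k x) : Ge deg l x := fun b hb => hx b (by omega)

theorem Ge.sup {deg : B → ℤ} {k : ℤ} (hdeg : ∀ b, deg b ≤ k) {A : Type u} [CommRing A]
    {x : B → A} (hx : Ge deg k x) : Sup deg k x := fun b hb => hx b (by have := hdeg b; omega)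

namespace UData

variable {X : XTab B} {R : Type u} [CommRing R] {T : Type u} [CommRing T]
  [Algebra R T] {C : Cov R T} (D : UData X C)

/-- the frame `G i` as a linear equivalence -/
noncomputable def gE (i : Fin 3) : (B → T) ≃ₗ[T] (B → T) :=
  LinearEquiv.ofLinearMap (Matrix.toLin' (D.G i)) (Matrix.toLin' (D.G' i))
    (by rw [← Matrix.toLin'_mul, D.GG', Matrix.toLin'_one])
    (by rw [← Matrix.toLin'_mul, D.G'G, Matrix.toLin'_one])

theorem gE_apply (i : Fin 3) (x : B → T) : D.gE i x = (D.G i).mulVec x := by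
  simp [gE]

theorem gE_symm_apply (i : Fin 3) (x : B → T) : (D.gE i).symm x = (D.G' i).mulVec x := by
  simp [gE]

/-- transition -/
noncomputable def tt (i j : Fin 3) : (B → T) ≃ₗ[T] (B → T) := (D.gE j).symm.trans (D.gE i)

theorem tt_apply (i j : Fin 3) (x : B → T) : D.tt i j x = D.gE i ((D.gE j).symm x) := rfl

theorem tt_gE (i j : Fin 3) (x : B → T) : D.tt i j (D.gE j x) = D.gE i x := by
  rw [tt_apply, LinearEquiv.symm_apply_apply]

theorem tt_mul (i j k : Fin 3) : D.tt i j * D.tt j k = D.tt i k := by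
  ext x b
  simp [tt_apply, LinearEquiv.mul_apply]

theorem tt_self (i : Fin 3) : D.tt i i = 1 := by
  ext x b
  simp [tt_apply]

/-- the global vectors in `T ^ B` -/
def gT (l : Fin 14) : B → T := algebraMap R T ∘ D.γ l

theorem sup_gE_gT (i : Fin 3) (l : Fin 14) : Sup X.deg 2 (D.gE i (D.gT l)) := by
  rw [gE_apply]; exact D.hγ i l

/-- the Gram matrix over `T` -/
noncomputable def MT : Matrix (Fin 14) (Fin 14) T := D.M.map (algebraMap R T)

theorem MT_det : IsUnit D.MT.det := by
  have h := D.hMu.map (algebraMap R T)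
  rwa [RingHom.map_det] at h

theorem MT_apply (i : Fin 3) (k l : Fin 14) :
    D.MT k l = qf X.q (D.gE i (D.gT k)) (D.gE i (D.gT l)) := by
  rw [gE_apply, gE_apply]; exact D.hM i k l

theorem MT_inv (k l : Fin 14) : ∃ r : R, D.MT⁻¹ k l = algebraMap R T r := by
  refine ⟨D.M⁻¹ k l, ?_⟩
  have h : D.MT⁻¹ = (D.M⁻¹).map (algebraMap R T) := by
    apply Matrix.inv_eq_left_inv
    show (D.M⁻¹).map (algebraMap R T) * D.M.map (algebraMap R T) = 1
    rw [← Matrix.map_mul, Matrix.nonsing_inv_mul _ D.hMu]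
    simp
  rw [h]; rfl

/-- the coefficients of a vector of `iota(G)` -/
noncomputable def cf (i : Fin 3) (v : B → T) (l : Fin 14) : T :=
  ∑ k, D.MT⁻¹ l k * qf X.q (D.gE i (D.gT k)) (D.gE i v)

theorem eq_sum_cf (hX : XTab.Good.{u} X) (i : Fin 3) (v : B → T) (hv : Sup X.deg 2 (D.gE i v)) :
    v = ∑ l, D.cf i v l • D.gT l := by
  apply (D.gE i).injective
  rw [map_sum]
  have h := hX.span2 T (fun l => D.gE i (D.gT l)) (D.sup_gE_gT i) D.MT (D.MT_apply i) D.MT_det
    (D.gE i v) hv
  refine h.trans (Finset.sum_congr rfl fun l _ => ?_)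
  rw [map_smul]; rfl

theorem cf_mem (i : Fin 3) (A : Subalgebra R T) (hA : C.R1 i ≤ A) (v : B → T)
    (hv : Pts A (D.gE i v)) (l : Fin 14) : D.cf i v l ∈ A := by
  refine A.sum_mem fun k _ => A.mul_mem ?_ (Pts.qf _ ?_ hv)
  · obtain ⟨r, hr⟩ := D.MT_inv l k
    rw [hr]; exact A.algebraMap_mem r
  · rw [gE_apply]
    exact fun a => hA (Pts.mulVec (D.hG i) (Pts.algebraMap (A := C.R1 i) (D.γ k)) a)

theorem indep (hX : XTab.Good.{u} X) (c : Fin 14 → T) (hc : ∑ l, c l • D.gT l = 0) : c = 0 := by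
  refine hX.indep2 T (fun l => D.gE 0 (D.gT l)) D.MT (D.MT_apply 0) D.MT_det c ?_
  have := congrArg (D.gE 0) hc
  rw [map_sum, map_zero] at this
  rw [← this]
  exact Finset.sum_congr rfl fun l _ => by rw [map_smul]

theorem sup_iff (hX : XTab.Good.{u} X) (i j : Fin 3) (v : B → T) : Sup X.deg 2 (D.gE i v) ↔ Sup X.deg 2 (D.gE j v) := by
  have key : ∀ i j, Sup X.deg 2 (D.gE i v) → Sup X.deg 2 (D.gE j v) := by
    intro i j h
    rw [D.eq_sum_cf hX i v h, map_sum]
    exact Sup.sum fun l _ => by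
      rw [map_smul]; exact (D.sup_gE_gT j l).smul _
  exact ⟨key i j, key j i⟩

theorem gE_hom (i : Fin 3) (x y : B → T) :
    D.gE i (X.br T x y) = X.br T (D.gE i x) (D.gE i y) := by
  rw [gE_apply, gE_apply, gE_apply]; exact D.hom i x y

theorem gE_symm_hom (i : Fin 3) (x y : B → T) :
    (D.gE i).symm (X.br T x y) = X.br T ((D.gE i).symm x) ((D.gE i).symm y) := by
  apply (D.gE i).injective
  rw [gE_hom, LinearEquiv.apply_symm_apply, LinearEquiv.apply_symm_apply,
    LinearEquiv.apply_symm_apply]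

theorem aut2 (hX : XTab.Good.{u} X) (i j : Fin 3) : X.Aut2 T (D.tt i j) where
  hom x y := by rw [tt_apply, gE_symm_hom, gE_hom]; rfl
  pres e := by
    rw [tt_apply, D.sup_iff hX i j, LinearEquiv.apply_symm_apply]

theorem pts_gE (i : Fin 3) (v : B → T) (A : Subalgebra R T) (hA : C.R1 i ≤ A) (hv : Pts A v) :
    Pts A (D.gE i v) := by
  rw [gE_apply]; exact Pts.mulVec (fun a b => hA (D.hG i a b)) hv

theorem pts_gE_symm (i : Fin 3) (v : B → T) (A : Subalgebra R T) (hA : C.R1 i ≤ A)
    (hv : Pts A v) : Pts A ((D.gE i).symm v) := by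
  rw [gE_symm_apply]; exact Pts.mulVec (fun a b => hA (D.hG' i a b)) hv

end UData

end Pool.Agent.Licci.U

end

section

/-!
# Block (U), module U7d, part B: the bundle `gr_1`, its bases and the Clifford monomials
-/

set_option linter.unusedSectionVars false

namespace Pool.Agent.Licci.U

open Module

universe u

variable {B : Type} [Fintype B] [DecidableEq B]

namespace UData

variable {X : XTab B} {R : Type u} [CommRing R] {T : Type u} [CommRing T]
  [Algebra R T] {C : Cov R T} (D : UData X C)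

/-- index set of degree one -/
noncomputable def e64 (hX : XTab.Good.{u} X) : {b // X.deg b = 1} ≃ Fin 64 :=
  Fintype.equivFinOfCardEq hX.card1

/-- the transition on degree 1 -/
noncomputable def tauE (hX : XTab.Good.{u} X) [Algebra ℚ T] (i j : Fin 3) :
    ({b // X.deg b = 1} → T) ≃ₗ[T] ({b // X.deg b = 1} → T) :=
  LinearEquiv.ofLinearMap (X.tau T (D.tt i j)) (X.tau T (D.tt j i))
    (by
      have h := hX.tau_mul T (D.tt j i) (D.tt i j) (D.aut2 hX j i) (D.aut2 hX i j)
      rw [tt_mul, tt_self, hX.tau_one] at h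
      exact h.symm)
    (by
      have h := hX.tau_mul T (D.tt i j) (D.tt j i) (D.aut2 hX i j) (D.aut2 hX j i)
      rw [tt_mul, tt_self, hX.tau_one] at h
      exact h.symm)

theorem tauE_apply (hX : XTab.Good.{u} X) [Algebra ℚ T] (i j : Fin 3)
    (x : {b // X.deg b = 1} → T) : D.tauE hX i j x = X.tau T (D.tt i j) x := rfl

theorem tauE_symm (hX : XTab.Good.{u} X) [Algebra ℚ T] (i j : Fin 3)
    (x : {b // X.deg b = 1} → T) : (D.tauE hX i j).symm x = X.tau T (D.tt j i) x := rfl

theorem tau_tau (hX : XTab.Good.{u} X) [Algebra ℚ T] (i j k : Fin 3)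
    (x : {b // X.deg b = 1} → T) :
    X.tau T (D.tt i j) (X.tau T (D.tt j k) x) = X.tau T (D.tt i k) x := by
  have h := hX.tau_mul T (D.tt j k) (D.tt i j) (D.aut2 hX j k) (D.aut2 hX i j)
  rw [tt_mul] at h
  rw [h]; rfl

/-- the bases -/
noncomputable def eps (hX : XTab.Good.{u} X) [Algebra ℚ T] (i : Fin 3) :
    Basis (Fin 64) T ({b // X.deg b = 1} → T) :=
  ((Pi.basisFun T {b // X.deg b = 1}).reindex (e64 hX)).map (D.tauE hX 0 i)

theorem eps_apply (hX : XTab.Good.{u} X) [Algebra ℚ T] (i : Fin 3) (a : Fin 64) :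
    D.eps hX i a = X.tau T (D.tt 0 i) (Pi.single ((e64 hX).symm a) 1) := by
  rw [eps, Basis.map_apply, Basis.reindex_apply, Pi.basisFun_apply, tauE_apply]

theorem eps_repr (hX : XTab.Good.{u} X) [Algebra ℚ T] (i : Fin 3)
    (x : {b // X.deg b = 1} → T) (a : Fin 64) :
    (D.eps hX i).repr x a = X.tau T (D.tt i 0) x ((e64 hX).symm a) := by
  rw [eps, Basis.map_repr, LinearEquiv.trans_apply, tauE_symm, Basis.repr_reindex,
    Finsupp.mapDomain_equiv_apply, Pi.basisFun_repr]

theorem E1_iff (hX : XTab.Good.{u} X) [Algebra ℚ T] (i : Fin 3) (x : {b // X.deg b = 1} → T) :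
    C.E1 (D.eps hX) i x ↔ Pts (C.R1 i) (X.tau T (D.tt i 0) x) := by
  constructor
  · intro h b
    have := h (e64 hX b)
    rwa [eps_repr, Equiv.symm_apply_apply] at this
  · intro h a
    rw [eps_repr]; exact h _

theorem E2_iff (hX : XTab.Good.{u} X) [Algebra ℚ T] (i j : Fin 3) (x : {b // X.deg b = 1} → T) :
    C.E2 (D.eps hX) i j x ↔ Pts (C.R2 i j) (X.tau T (D.tt i 0) x) := by
  constructor
  · intro h b
    have := h (e64 hX b)
    rwa [eps_repr, Equiv.symm_apply_apply] at this
  · intro h a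
    rw [eps_repr]; exact h _

/-- preservation of points under `tau` -/
theorem pts_tau (i j : Fin 3) {A : Subalgebra R T} (hA : C.R1 i ≤ A) (hA' : C.R1 j ≤ A)
    {x : {b // X.deg b = 1} → T} (hx : Pts A x) : Pts A (X.tau T (D.tt i j) x) := by
  have h1 : Pts A (X.ext 1 T x) := by
    intro b
    show (if hb : X.deg b = 1 then x ⟨b, hb⟩ else 0) ∈ A
    split_ifs with hb
    · exact hx _
    · exact A.zero_mem
  have h2 := D.pts_gE i _ A hA (D.pts_gE_symm j _ A hA' h1)
  exact fun b => h2 b.1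

theorem pts_single {ι : Type} [DecidableEq ι] (A : Subalgebra R T) (a : ι) :
    Pts A (Pi.single a (1 : T)) := by
  intro b
  by_cases h : b = a
  · subst h; rw [Pi.single_eq_same]; exact A.one_mem
  · rw [Pi.single_eq_of_ne h]; exact A.zero_mem

theorem heps (hX : XTab.Good.{u} X) [Algebra ℚ T] (i j : Fin 3) (a b : Fin 64) :
    (D.eps hX i).repr (D.eps hX j a) b ∈ C.R2 i j := by
  rw [eps_repr, eps_apply, tau_tau _ hX]
  exact D.pts_tau i j (C.R1_le_R2 i j) (C.R1_le_R2' i j) (pts_single _ _) _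

/-! ### Clifford operators -/

/-- orthogonal frame data: `P` invertible over `R` with `P^T M P` diagonal -/
structure Ortho where
  P : Matrix (Fin 14) (Fin 14) R
  d : Fin 14 → R
  hd : ∀ i, IsUnit (d i)
  hP : P.transpose * D.M * P = Matrix.diagonal d

variable {D}

/-- the orthogonal vectors in the frame `i` -/
noncomputable def Ortho.e (O : D.Ortho) (i : Fin 3) (k : Fin 14) : B → T :=
  D.gE i (∑ l, algebraMap R T (O.P l k) • D.gT l)

theorem Ortho.e_sup (O : D.Ortho) (i : Fin 3) (k : Fin 14) : Sup X.deg 2 (O.e i k) := by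
  rw [Ortho.e, map_sum]
  exact Sup.sum fun l _ => by rw [map_smul]; exact (D.sup_gE_gT i l).smul _

theorem Ortho.e_tt (O : D.Ortho) (i j : Fin 3) (k : Fin 14) : D.tt i j (O.e j k) = O.e i k :=
  D.tt_gE i j _

theorem Ortho.e_pts (O : D.Ortho) (i : Fin 3) (k : Fin 14) : Pts (C.R1 i) (O.e i k) := by
  refine D.pts_gE i _ _ le_rfl (Pts.sum fun l _ => Pts.smul ((C.R1 i).algebraMap_mem _) ?_)
  exact Pts.algebraMap _

theorem Ortho.qf_e (O : D.Ortho) (i : Fin 3) (k l : Fin 14) :
    qf X.q (O.e i k) (O.e i l) = if k = l then algebraMap R T (O.d k) else 0 := by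
  have h1 : qf X.q (O.e i k) (O.e i l) =
      ∑ a, ∑ b, algebraMap R T (O.P a k) * (algebraMap R T (O.P b l) * D.MT a b) := by
    rw [Ortho.e, Ortho.e, map_sum, map_sum, qf_sum_left]
    refine Finset.sum_congr rfl fun a _ => ?_
    rw [qf_sum_right]
    refine Finset.sum_congr rfl fun b _ => ?_
    rw [map_smul, map_smul, qf_smul_left, qf_smul_right, ← D.MT_apply]
  have h2 : (O.P.transpose * D.M * O.P) k l = Matrix.diagonal O.d k l := by rw [O.hP]
  rw [h1, Matrix.diagonal_apply] at *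
  have h3 := congrArg (algebraMap R T) h2
  rw [Matrix.mul_apply] at h3
  have h4 : (if k = l then algebraMap R T (O.d k) else 0) =
      algebraMap R T (if k = l then O.d k else 0) := by split_ifs <;> simp
  rw [h4, ← h3, map_sum, Finset.sum_comm]
  refine Finset.sum_congr rfl fun b _ => ?_
  rw [map_mul, Matrix.mul_apply, map_sum, Finset.sum_mul]
  refine Finset.sum_congr rfl fun a _ => ?_
  rw [map_mul, Matrix.transpose_apply]
  show _ = algebraMap R T (O.P a k) * algebraMap R T (D.M a b) * algebraMap R T (O.P b l)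
  show algebraMap R T (O.P a k) * (algebraMap R T (O.P b l) * algebraMap R T (D.M a b)) = _
  ring

/-- the Clifford operators in the frame `i` -/
noncomputable def Ortho.eta (O : D.Ortho) (i : Fin 3) (k : Fin (2 * 6)) :
    Module.End T ({b // X.deg b = 1} → T) :=
  X.op T (O.e i (Fin.castLE (by norm_num) k)) (O.e i 12)

/-- the scalar square -/
noncomputable def Ortho.sc (O : D.Ortho) (k : Fin (2 * 6)) : R :=
  -(O.d (Fin.castLE (by norm_num) k) * O.d 12)

theorem Ortho.sc_unit (O : D.Ortho) (k : Fin (2 * 6)) : IsUnit (O.sc k) :=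
  ((O.hd _).mul (O.hd _)).neg

theorem Ortho.ne12 (k : Fin (2 * 6)) : (Fin.castLE (by norm_num) k : Fin 14) ≠ 12 := by
  intro h
  have h' := congrArg Fin.val h
  have := k.2
  simp at h'
  omega

theorem Ortho.eta_sq (O : D.Ortho) (hX : XTab.Good.{u} X) (h2 : IsUnit (2 : T)) (i : Fin 3)
    (k : Fin (2 * 6)) :
    O.eta i k * O.eta i k = algebraMap R T (O.sc k) • (1 : Module.End T _) := by
  rw [Ortho.eta, hX.op_sq T _ _ (O.e_sup i _) (O.e_sup i _)
    (by rw [O.qf_e, if_neg (Ortho.ne12 k)]) (by rw [O.qf_e, if_neg (Ortho.ne12 k).symm]) h2,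
    O.qf_e, O.qf_e, if_pos rfl, if_pos rfl, Ortho.sc, map_neg, map_mul]

theorem Ortho.eta_anti (O : D.Ortho) (hX : XTab.Good.{u} X) (h2 : IsUnit (2 : T)) (i : Fin 3)
    (k l : Fin (2 * 6)) (hkl : k ≠ l) :
    O.eta i k * O.eta i l = -(O.eta i l * O.eta i k) := by
  have hne : (Fin.castLE (by norm_num) k : Fin 14) ≠ Fin.castLE (by norm_num) l := by
    intro h; exact hkl (Fin.castLE_injective _ h)
  exact hX.op_anti T _ _ _ (O.e_sup i _) (O.e_sup i _) (O.e_sup i _)
    (by rw [O.qf_e, if_neg hne]) (by rw [O.qf_e, if_neg hne.symm])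
    (by rw [O.qf_e, if_neg (Ortho.ne12 k)]) (by rw [O.qf_e, if_neg (Ortho.ne12 k).symm])
    (by rw [O.qf_e, if_neg (Ortho.ne12 l)]) (by rw [O.qf_e, if_neg (Ortho.ne12 l).symm]) h2

theorem Ortho.eta_nat (O : D.Ortho) (hX : XTab.Good.{u} X) [Algebra ℚ T] (i j : Fin 3)
    (k : Fin (2 * 6)) :
    X.tau T (D.tt i j) * O.eta j k = O.eta i k * X.tau T (D.tt i j) := by
  rw [Ortho.eta, Ortho.eta, hX.op_nat T (D.tt i j) (D.aut2 hX i j) _ _ (O.e_sup j _) (O.e_sup j _)
    (by rw [O.e_tt, O.qf_e, O.qf_e]) (by rw [O.qf_e, if_pos rfl]; exact (O.hd 12).map _),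
    O.e_tt, O.e_tt]

/-- the inverse operators -/
noncomputable def Ortho.eta' (O : D.Ortho) (i : Fin 3) (k : Fin (2 * 6)) :
    Module.End T ({b // X.deg b = 1} → T) :=
  algebraMap R T ↑((O.sc_unit k).unit⁻¹) • O.eta i k

theorem Ortho.eta_eta' (O : D.Ortho) (hX : XTab.Good.{u} X) (h2 : IsUnit (2 : T)) (i : Fin 3)
    (k : Fin (2 * 6)) : O.eta i k * O.eta' i k = 1 := by
  rw [Ortho.eta', mul_smul_comm, O.eta_sq hX h2, smul_smul, ← map_mul]
  have : (↑((O.sc_unit k).unit⁻¹) : R) * O.sc k = 1 := IsUnit.val_inv_mul _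
  rw [this, map_one, one_smul]

theorem Ortho.eta'_eta (O : D.Ortho) (hX : XTab.Good.{u} X) (h2 : IsUnit (2 : T)) (i : Fin 3)
    (k : Fin (2 * 6)) : O.eta' i k * O.eta i k = 1 := by
  rw [Ortho.eta', smul_mul_assoc, O.eta_sq hX h2, smul_smul, ← map_mul]
  have : (↑((O.sc_unit k).unit⁻¹) : R) * O.sc k = 1 := IsUnit.val_inv_mul _
  rw [this, map_one, one_smul]

theorem Ortho.eta'_nat (O : D.Ortho) (hX : XTab.Good.{u} X) [Algebra ℚ T] (i j : Fin 3)
    (k : Fin (2 * 6)) :
    X.tau T (D.tt i j) * O.eta' j k = O.eta' i k * X.tau T (D.tt i j) := by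
  rw [Ortho.eta', Ortho.eta', mul_smul_comm, O.eta_nat hX, smul_mul_assoc]

/-- naturality of monomials -/
theorem mon_nat {E : Type*} [Monoid E] (t : E) :
    ∀ (N : ℕ) (g h : Fin N → E) (b : Fin N → Bool), (∀ i, t * g i = h i * t) →
      t * mon N g b = mon N h b * t
  | 0, g, h, b, _ => by simp [mon]
  | N + 1, g, h, b, H => by
    rw [mon, mon]
    have ih := mon_nat t N (fun i => g i.succ) (fun i => h i.succ) (fun i => b i.succ)
      (fun i => H i.succ)
    split_ifs with hb
    · rw [← mul_assoc, H 0, mul_assoc, ih, mul_assoc]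
    · rw [one_mul, one_mul, ih]

theorem mon'_nat {E : Type*} [Monoid E] (t : E) :
    ∀ (N : ℕ) (g h : Fin N → E) (b : Fin N → Bool), (∀ i, t * g i = h i * t) →
      t * mon' N g b = mon' N h b * t
  | 0, g, h, b, _ => by simp [mon']
  | N + 1, g, h, b, H => by
    rw [mon', mon']
    have ih := mon'_nat t N (fun i => g i.succ) (fun i => h i.succ) (fun i => b i.succ)
      (fun i => H i.succ)
    split_ifs with hb
    · rw [← mul_assoc, ih, mul_assoc, H 0, mul_assoc]
    · rw [mul_one, mul_one, ih]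

/-- operators preserving points -/
def PresP (A : Subalgebra R T) {ι : Type} (φ : Module.End T (ι → T)) : Prop :=
  ∀ x, Pts A x → Pts A (φ x)

theorem PresP.mul {A : Subalgebra R T} {ι : Type} {φ ψ : Module.End T (ι → T)}
    (h1 : PresP A φ) (h2 : PresP A ψ) : PresP A (φ * ψ) := fun x hx => h1 _ (h2 _ hx)

theorem PresP.one {A : Subalgebra R T} {ι : Type} : PresP A (1 : Module.End T (ι → T)) :=
  fun _ hx => hx

theorem PresP.mon {A : Subalgebra R T} {ι : Type} :
    ∀ (N : ℕ) (g : Fin N → Module.End T (ι → T)) (b : Fin N → Bool),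
      (∀ i, PresP A (g i)) → PresP A (U.mon N g b)
  | 0, g, b, _ => PresP.one
  | N + 1, g, b, H => by
    rw [U.mon]
    refine PresP.mul ?_ (PresP.mon N _ _ fun i => H i.succ)
    split_ifs
    · exact H 0
    · exact PresP.one

theorem PresP.mon' {A : Subalgebra R T} {ι : Type} :
    ∀ (N : ℕ) (g : Fin N → Module.End T (ι → T)) (b : Fin N → Bool),
      (∀ i, PresP A (g i)) → PresP A (U.mon' N g b)
  | 0, g, b, _ => PresP.one
  | N + 1, g, b, H => by
    rw [U.mon']
    refine PresP.mul (PresP.mon' N _ _ fun i => H i.succ) ?_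
    split_ifs
    · exact H 0
    · exact PresP.one

theorem Ortho.eta_presP (O : D.Ortho) (i : Fin 3) (k : Fin (2 * 6)) :
    PresP (C.R1 i) (O.eta i k) := by
  intro x hx
  have h1 : Pts (C.R1 i) (X.ext 1 T x) := by
    intro b
    show (if hb : X.deg b = 1 then x ⟨b, hb⟩ else 0) ∈ C.R1 i
    split_ifs with hb
    · exact hx _
    · exact (C.R1 i).zero_mem
  have h2 := Pts.bil X.cl (O.e_pts i 12) h1
  have h3 := Pts.bil X.c (O.e_pts i (Fin.castLE (by norm_num) k)) h2
  exact fun b => h3 b.1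

theorem Ortho.eta'_presP (O : D.Ortho) (i : Fin 3) (k : Fin (2 * 6)) :
    PresP (C.R1 i) (O.eta' i k) := by
  intro x hx
  rw [Ortho.eta', LinearMap.smul_apply]
  exact Pts.smul ((C.R1 i).algebraMap_mem _) (O.eta_presP i k x hx)

theorem Ortho.hE (O : D.Ortho) (hX : XTab.Good.{u} X) [Algebra ℚ T] (i : Fin 3)
    (s : Fin (2 * 6) → Bool) (a b : Fin 64) :
    (D.eps hX i).repr (mon _ (O.eta 0) s (D.eps hX i a)) b ∈ C.R1 i := by
  rw [eps_repr]
  have h := mon_nat (X.tau T (D.tt i 0)) _ (O.eta 0) (O.eta i) s (fun k => O.eta_nat hX i 0 k)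
  have h' := LinearMap.congr_fun h (D.eps hX i a)
  rw [Module.End.mul_apply, Module.End.mul_apply] at h'
  rw [h', eps_apply, D.tau_tau hX, tt_self, hX.tau_one]
  exact PresP.mon _ _ s (O.eta_presP i) _ (pts_single _ _) _

theorem Ortho.hE' (O : D.Ortho) (hX : XTab.Good.{u} X) [Algebra ℚ T] (i : Fin 3)
    (s : Fin (2 * 6) → Bool) (a b : Fin 64) :
    (D.eps hX i).repr (mon' _ (O.eta' 0) s (D.eps hX i a)) b ∈ C.R1 i := by
  rw [eps_repr]
  have h := mon'_nat (X.tau T (D.tt i 0)) _ (O.eta' 0) (O.eta' i) s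
    (fun k => O.eta'_nat hX i 0 k)
  have h' := LinearMap.congr_fun h (D.eps hX i a)
  rw [Module.End.mul_apply, Module.End.mul_apply] at h'
  rw [h', eps_apply, D.tau_tau hX, tt_self, hX.tau_one]
  exact PresP.mon' _ _ s (O.eta'_presP i) _ (pts_single _ _) _

end UData

end Pool.Agent.Licci.U

end
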