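import Pool.Agent.Work.MP_a98e4e_ag.Fu.U.Base
import Mathlib
import Pool.Agent.Work.MP_a98e4e_ag.Fu.U.Filt
import Pool.Agent.Work.MP_a98e4e_ag.Fu.MFree

section

/-!
# Block (U3), part 3: the module of global sections of a bundle given by three charts
-/

namespace Pool.Agent.Licci.U

open Module IsLocalRing

section aux

variable {R : Type*} [CommRing R] {T : Type*} [CommRing T] [Algebra R T]

/-- version of `Rl_split_fin` with varying second element -/
theorem Rl_split_fin' {ι : Type*} [Finite ι] {a : R} {b : ι → R} {x : ι → T}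
    (h : ∀ i, x i ∈ Rl R T (a * b i)) :
    ∃ k : ℕ, ∀ i, algebraMap R T a ^ k * x i ∈ Rl R T (b i) := by
  cases nonempty_fintype ι
  choose k hk using fun i => Rl_split (h i)
  refine ⟨∑ i, k i, fun i => ?_⟩
  obtain ⟨l, hl⟩ := Nat.exists_eq_add_of_le
    (Finset.single_le_sum (f := k) (fun _ _ => Nat.zero_le _) (Finset.mem_univ i))
  rw [hl]
  have : algebraMap R T a ^ (k i + l) * x i =
      algebraMap R T (a ^ l) * (algebraMap R T a ^ k i * x i) := by
    rw [map_pow]; ring
  rw [this]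
  exact (Rl R T (b i)).mul_mem ((Rl R T (b i)).algebraMap_mem _) (hk i)

theorem Rl_of_pow_left {a b : R} {x : T} {k : ℕ} (h : algebraMap R T a ^ k * x ∈ Rl R T (a * b)) :
    x ∈ Rl R T (a * b) := by
  refine Rl_of_pow (k := k) ?_
  have : algebraMap R T (a * b) ^ k * x =
      algebraMap R T (b ^ k) * (algebraMap R T a ^ k * x) := by
    rw [map_pow, map_mul]; ring
  rw [this]
  exact (Rl R T _).mul_mem ((Rl R T _).algebraMap_mem _) h

variable {S : Type*} [AddCommGroup S] [Module R S] [Module T S] [IsScalarTower R T S]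

theorem comb_mem_EL' {b : ℕ} {m : Fin b → S} {M : Submodule R S} {g : R}
    (hM : ∀ j, m j ∈ EL M g) {z : Fin b → T} (hz : ∀ j, z j ∈ Rl R T g) :
    ∑ j, z j • m j ∈ EL M g := by
  obtain ⟨N, hN⟩ := EL_fin hM
  refine EL_of_pow (k := N) ?_
  have : g ^ N • ∑ j, z j • m j = ∑ j, z j • (g ^ N • m j) := by
    rw [Finset.smul_sum]
    exact Finset.sum_congr rfl fun j _ => by
      rw [← algebraMap_smul T (g ^ N), ← algebraMap_smul T (g ^ N) (m j), smul_comm]
  rw [this]
  exact comb_mem_EL hN hz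

/-- change of coordinates -/
theorem repr_change {r : ℕ} (e e' : Basis (Fin r) T S) (x : S) (j : Fin r) :
    e'.repr x j = ∑ i, e.repr x i * e'.repr (e i) j := by
  conv_lhs => rw [← e.sum_repr x]
  rw [map_sum, Finsupp.finsetSum_apply]
  exact Finset.sum_congr rfl fun i _ => by rw [map_smul, Finsupp.smul_apply, smul_eq_mul]

end aux

namespace Cov

variable {R : Type*} [CommRing R] {T : Type*} [CommRing T] [Algebra R T] (C : Cov R T)
variable {S : Type*} [AddCommGroup S] [Module R S] [Module T S] [IsScalarTower R T S] {r : ℕ}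

/-- global sections -/
def Glob (ε : Fin 3 → Basis (Fin r) T S) : Submodule R S where
  carrier := {x | ∀ a, C.E1 ε a x}
  add_mem' := by
    intro x y hx hy a i
    rw [map_add, Finsupp.add_apply]
    exact (C.R1 a).add_mem (hx a i) (hy a i)
  zero_mem' := by
    intro a i
    rw [map_zero, Finsupp.zero_apply]
    exact (C.R1 a).zero_mem
  smul_mem' := by
    intro c x hx a i
    rw [← algebraMap_smul T c x, map_smul, Finsupp.smul_apply, smul_eq_mul]
    exact (C.R1 a).mul_mem ((C.R1 a).algebraMap_mem c) (hx a i)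

theorem mem_Glob {ε : Fin 3 → Basis (Fin r) T S} {x : S} :
    x ∈ C.Glob (R := R) ε ↔ ∀ a, C.E1 ε a x := Iff.rfl

/-- coordinates of localised elements -/
theorem coord_EL (ε : Fin 3 → Basis (Fin r) T S) (a : Fin 3) (h : R) {x : S}
    (hx : x ∈ EL (C.Glob (R := R) ε) (C.f a * h)) (i : Fin r) :
    (ε a).repr x i ∈ Rl R T (C.f a * h) := by
  obtain ⟨N, hN⟩ := hx
  have h1 := hN a i
  rw [← algebraMap_smul T ((C.f a * h) ^ N), map_smul, Finsupp.smul_apply, smul_eq_mul,
    map_pow] at h1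
  exact Rl_of_pow (Rl_mul_of_left h h1)

theorem coord_EL1 (ε : Fin 3 → Basis (Fin r) T S) (a : Fin 3) {x : S}
    (hx : x ∈ EL (C.Glob (R := R) ε) (C.f a)) : C.E1 ε a x := by
  intro i
  have := C.coord_EL ε a 1 (x := x) (by rwa [mul_one]) i
  rwa [mul_one] at this

theorem basis_mem_EL (ε : Fin 3 → Basis (Fin r) T S)
    (htr : ∀ a b i j, (ε b).repr (ε a i) j ∈ C.R2 a b) (a : Fin 3) (i : Fin r) :
    ε a i ∈ EL (C.Glob (R := R) ε) (C.f a) := by
  obtain ⟨k, hk⟩ := Rl_split_fin' (ι := Fin 3 × Fin r) (a := C.f a) (b := fun p => C.f p.1)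
    (x := fun p => (ε p.1).repr (ε a i) p.2) (fun p => htr a p.1 i p.2)
  refine ⟨k, fun b j => ?_⟩
  rw [← algebraMap_smul T (C.f a ^ k), map_smul, Finsupp.smul_apply, smul_eq_mul, map_pow]
  exact hk (b, j)

theorem EL_of_coord (ε : Fin 3 → Basis (Fin r) T S)
    (htr : ∀ a b i j, (ε b).repr (ε a i) j ∈ C.R2 a b) (a : Fin 3) (h : R) {x : S}
    (hx : ∀ i, (ε a).repr x i ∈ Rl R T (C.f a * h)) :
    x ∈ EL (C.Glob (R := R) ε) (C.f a * h) := by
  rw [← (ε a).sum_repr x]
  exact comb_mem_EL' (fun i => EL_mul_of_left h (C.basis_mem_EL ε htr a i)) hx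

theorem EL_of_E1 (ε : Fin 3 → Basis (Fin r) T S)
    (htr : ∀ a b i j, (ε b).repr (ε a i) j ∈ C.R2 a b) (a : Fin 3) {x : S}
    (hx : C.E1 ε a x) : x ∈ EL (C.Glob (R := R) ε) (C.f a) := by
  have := C.EL_of_coord ε htr a 1 (x := x) (by intro i; rw [mul_one]; exact hx i)
  rwa [mul_one] at this

theorem glob_cap (ε : Fin 3 → Basis (Fin r) T S)
    (hcap : ∀ x : T, x ∈ C.R1 0 → x ∈ C.R1 1 → ∃ y : R, algebraMap R T y = x)
    (x : S) (h0 : x ∈ EL (C.Glob (R := R) ε) (C.f 0)) (h1 : x ∈ EL (C.Glob (R := R) ε) (C.f 1)) :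
    x ∈ C.Glob (R := R) ε := by
  intro a i
  -- `f_b ^ N * c ∈ R_a` for `b = 0, 1`
  have key : ∀ b : Fin 3, x ∈ EL (C.Glob (R := R) ε) (C.f b) →
      ∃ N, algebraMap R T (C.f b) ^ N * (ε a).repr x i ∈ C.R1 a := by
    rintro b ⟨N, hN⟩
    refine ⟨N, ?_⟩
    have := hN a i
    rwa [← algebraMap_smul T (C.f b ^ N), map_smul, Finsupp.smul_apply, smul_eq_mul,
      map_pow] at this
  obtain ⟨N0, k0⟩ := key 0 h0
  obtain ⟨N1, k1⟩ := key 1 h1
  obtain ⟨K0, r0, e0⟩ := k0
  obtain ⟨K1, r1, e1⟩ := k1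
  have h2 : algebraMap R T (C.f a) ^ (K0 + K1) * (ε a).repr x i ∈ C.R1 0 := by
    refine ⟨N0, C.f a ^ K1 * r0, ?_⟩
    rw [map_mul, map_pow, ← e0]; ring
  have h3 : algebraMap R T (C.f a) ^ (K0 + K1) * (ε a).repr x i ∈ C.R1 1 := by
    refine ⟨N1, C.f a ^ K0 * r1, ?_⟩
    rw [map_mul, map_pow, ← e1]; ring
  obtain ⟨y, hy⟩ := hcap _ h2 h3
  exact ⟨K0 + K1, y, hy.symm⟩

theorem glob_fg [IsNoetherianRing R] (ε : Fin 3 → Basis (Fin r) T S)
    (htr : ∀ a b i j, (ε b).repr (ε a i) j ∈ C.R2 a b)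
    (hcap : ∀ x : T, x ∈ C.R1 0 → x ∈ C.R1 1 → ∃ y : R, algebraMap R T y = x) :
    (C.Glob (R := R) ε).FG := by
  obtain ⟨k, hk⟩ := Rl_split_fin' (ι := Fin r × Fin r) (a := C.f 0) (b := fun _ => C.f 1)
    (x := fun p => (ε 0).repr (ε 1 p.1) p.2) (fun p => by
      have := htr 1 0 p.1 p.2
      rw [R2, mul_comm] at this
      exact this)
  obtain ⟨u, hu⟩ := (C.unit 0).pow k
  let F : Submodule R S := Submodule.span R (Set.range fun i => (↑u⁻¹ : T) • ε 0 i)
  have hF : F.FG := Submodule.fg_span (Set.finite_range _)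
  have : IsNoetherian R F := isNoetherian_of_fg_of_noetherian F hF
  have hle : C.Glob (R := R) ε ≤ F := by
    intro x hx
    have hc : ∀ i, ∃ y : R, algebraMap R T y = algebraMap R T (C.f 0) ^ k * (ε 0).repr x i := by
      intro i
      refine hcap _ ?_ ?_
      · exact (C.R1 0).mul_mem ((C.R1 0).pow_mem ((C.R1 0).algebraMap_mem _) _) (hx 0 i)
      · rw [repr_change (ε 1) (ε 0) x i, Finset.mul_sum]
        refine (C.R1 1).sum_mem fun j _ => ?_
        rw [mul_left_comm]
        exact (C.R1 1).mul_mem (hx 1 j) (hk (j, i))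
    choose y hy using hc
    have hx' : x = ∑ i, y i • ((↑u⁻¹ : T) • ε 0 i) := by
      conv_lhs => rw [← (ε 0).sum_repr x]
      refine Finset.sum_congr rfl fun i _ => ?_
      rw [← algebraMap_smul T (y i), hy, ← hu, smul_smul]
      congr 1
      rw [mul_assoc, mul_comm ((ε 0).repr x i), ← mul_assoc, Units.mul_inv, one_mul]
    rw [hx']
    exact F.sum_mem fun i _ => F.smul_mem _ (Submodule.subset_span ⟨i, rfl⟩)
  exact isNoetherian_submodule.1 inferInstance _ hle

theorem glob_regular (ε : Fin 3 → Basis (Fin r) T S)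
    (hcap : ∀ x : T, x ∈ C.R1 0 → x ∈ C.R1 1 → ∃ y : R, algebraMap R T y = x) :
    RingTheory.Sequence.IsWeaklyRegular (C.Glob (R := R) ε) [C.f 0, C.f 1] := by
  have hreg : ∀ (a : Fin 3) (x : S), C.f a • x = 0 → x = 0 := by
    intro a x hx
    obtain ⟨u, hu⟩ := C.unit a
    rw [← algebraMap_smul T (C.f a) x, ← hu] at hx
    have := congrArg (fun y => (↑u⁻¹ : T) • y) hx
    simpa [smul_smul] using this
  rw [RingTheory.Sequence.isWeaklyRegular_cons_iff]
  refine ⟨?_, ?_⟩
  · intro x y hxy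
    have h1 : C.f 0 • ((x : S) - y) = 0 := by
      have := congrArg (fun z : C.Glob (R := R) ε => (z : S)) hxy
      simp only [Submodule.coe_smul] at this
      rw [smul_sub, this, sub_self]
    exact Subtype.ext (sub_eq_zero.1 (hreg 0 _ h1))
  · rw [RingTheory.Sequence.isWeaklyRegular_singleton_iff]
    rw [isSMulRegular_quotient_iff_mem_of_smul_mem]
    intro x hx
    rw [Submodule.mem_smul_pointwise_iff_exists] at hx ⊢
    obtain ⟨y, -, hy⟩ := hx
    -- `x / f 0 = y / f 1`
    obtain ⟨u, hu⟩ := C.unit 0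
    obtain ⟨u1, hu1⟩ := C.unit 1
    have hy' : C.f 0 • (y : S) = C.f 1 • (x : S) := congrArg Subtype.val hy
    let z : S := (↑u⁻¹ : T) • (x : S)
    have hz0 : C.f 0 • z = x := by
      rw [← algebraMap_smul T (C.f 0) z, ← hu, smul_smul, Units.mul_inv, one_smul]
    have hz1 : C.f 1 • z = y := by
      have h2 : C.f 0 • (C.f 1 • z - (y : S)) = 0 := by
        rw [smul_sub, smul_comm, hz0, hy', sub_self]
      exact sub_eq_zero.1 (hreg 0 _ h2)
    have hzM : z ∈ C.Glob (R := R) ε := by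
      refine C.glob_cap ε hcap z ⟨1, ?_⟩ ⟨1, ?_⟩
      · rw [pow_one, hz0]; exact x.2
      · rw [pow_one, hz1]; exact y.2
    exact ⟨⟨z, hzM⟩, trivial, Subtype.ext hz0⟩

end Cov

end Pool.Agent.Licci.U

end

section

/-!
# Block (U3), part 4: `H^1(End E) = 0` from a trace-orthogonal basis, and `H^1(E) = 0`
-/

namespace Pool.Agent.Licci.U

open Module IsLocalRing

section lin

/-- If `Ψ ∘ Φ = id` between free modules of the same finite rank, then `Φ ∘ Ψ = id`. -/
theorem comp_eq_id_of_rank {T : Type*} [CommRing T] [Nontrivial T] {κ : Type*} [Fintype κ]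
    {V : Type*} [AddCommGroup V] [Module T V] [Module.Free T V] [Module.Finite T V]
    (hV : Module.finrank T V = Fintype.card κ) (Φ : (κ → T) →ₗ[T] V) (Ψ : V →ₗ[T] (κ → T))
    (h : Ψ ∘ₗ Φ = LinearMap.id) : Φ ∘ₗ Ψ = LinearMap.id := by
  have hfr : Module.finrank T (κ → T) = Module.finrank T V := by
    rw [hV, Module.finrank_fintype_fun_eq_card]
  let e : (κ → T) ≃ₗ[T] V := LinearEquiv.ofFinrankEq _ _ hfr
  have hs : Function.Surjective (Ψ ∘ₗ e.toLinearMap) := by
    intro y
    refine ⟨e.symm (Φ y), ?_⟩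
    rw [LinearMap.comp_apply, LinearEquiv.coe_coe, LinearEquiv.apply_symm_apply]
    exact LinearMap.congr_fun h y
  have hi : Function.Injective (Ψ ∘ₗ e.toLinearMap) :=
    OrzechProperty.injective_of_surjective_endomorphism _ hs
  have hΨ : Function.Injective Ψ := by
    intro x y hxy
    have : e.symm x = e.symm y := hi (by simpa using hxy)
    exact e.symm.injective this
  ext x
  apply hΨ
  have := LinearMap.congr_fun h (Ψ x)
  simpa using this

end lin

namespace Cov

variable {R : Type*} [CommRing R] {T : Type*} [CommRing T] [Algebra R T] (C : Cov R T)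
variable {S : Type*} [AddCommGroup S] [Module R S] [Module T S] [IsScalarTower R T S] {r : ℕ}

/-- `M` is regular for every pair regular on `R` -/
theorem glob_regular' (ε : Fin 3 → Basis (Fin r) T S)
    (hT : ∀ t : T, t ∈ Rl R T (C.f 0 * C.f 1 * C.f 2)) (y1 y2 : R)
    (hy : RingTheory.Sequence.IsWeaklyRegular R [y1, y2]) :
    RingTheory.Sequence.IsWeaklyRegular (C.Glob (R := R) ε) [y1, y2] := by
  rw [RingTheory.Sequence.isWeaklyRegular_cons_iff,
    RingTheory.Sequence.isWeaklyRegular_singleton_iff,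
    isSMulRegular_quotient_iff_mem_of_smul_mem] at hy
  obtain ⟨hy1, hy2⟩ := hy
  have hy1' : ∀ x : R, y1 * x = 0 → x = 0 := fun x hx => hy1 (by simpa using hx)
  have hgu : IsUnit (algebraMap R T (C.f 0 * C.f 1 * C.f 2)) := by
    rw [map_mul, map_mul]
    exact ((C.unit 0).mul (C.unit 1)).mul (C.unit 2)
  -- `y1` is a nonzerodivisor on `T`
  have hT1 : ∀ t : T, algebraMap R T y1 * t = 0 → t = 0 := by
    intro t ht
    obtain ⟨N, c, hc⟩ := hT t
    have h1 : y1 * c = 0 := by
      apply C.inj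
      rw [map_mul, map_zero, ← hc, mul_left_comm, ht, mul_zero]
    rw [hy1' c h1, map_zero] at hc
    exact ((hgu.pow N).mul_right_eq_zero).1 hc
  have hS1 : ∀ x : S, y1 • x = 0 → x = 0 := by
    intro x hx
    apply (ε 0).repr.injective
    refine Finsupp.ext fun i => ?_
    rw [map_zero, Finsupp.zero_apply]
    refine hT1 _ ?_
    rw [← smul_eq_mul, ← Finsupp.smul_apply, ← map_smul, algebraMap_smul, hx, map_zero,
      Finsupp.zero_apply]
  rw [RingTheory.Sequence.isWeaklyRegular_cons_iff]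
  refine ⟨?_, ?_⟩
  · intro x y hxy
    have h1 : y1 • ((x : S) - y) = 0 := by
      have := congrArg (fun z : C.Glob (R := R) ε => (z : S)) hxy
      simp only [Submodule.coe_smul] at this
      rw [smul_sub, this, sub_self]
    exact Subtype.ext (sub_eq_zero.1 (hS1 _ h1))
  · rw [RingTheory.Sequence.isWeaklyRegular_singleton_iff,
      isSMulRegular_quotient_iff_mem_of_smul_mem]
    intro x hx
    rw [Submodule.mem_smul_pointwise_iff_exists] at hx ⊢
    obtain ⟨y, -, hxy⟩ := hx
    have hxy' : y1 • (y : S) = y2 • (x : S) := congrArg Subtype.val hxy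
    -- divide coordinatewise
    have hdiv : ∀ a i, ∃ c : T, c ∈ C.R1 a ∧ algebraMap R T y1 * c = (ε a).repr (x : S) i := by
      intro a i
      have hx1 := x.2 a i
      have hy1'' := y.2 a i
      have he : algebraMap R T y1 * (ε a).repr (y : S) i =
          algebraMap R T y2 * (ε a).repr (x : S) i := by
        rw [← smul_eq_mul, ← smul_eq_mul, ← Finsupp.smul_apply, ← Finsupp.smul_apply,
          ← map_smul, ← map_smul, algebraMap_smul, algebraMap_smul, hxy']
      obtain ⟨N, c, hc⟩ := hx1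
      obtain ⟨K, d, hd⟩ := hy1''
      -- common denominator
      have hc' : algebraMap R T (C.f a) ^ (N + K) * (ε a).repr (x : S) i =
          algebraMap R T (C.f a ^ K * c) := by
        rw [map_mul, map_pow, ← hc]; ring
      have hd' : algebraMap R T (C.f a) ^ (N + K) * (ε a).repr (y : S) i =
          algebraMap R T (C.f a ^ N * d) := by
        rw [map_mul, map_pow, ← hd]; ring
      have h1 : y1 * (C.f a ^ N * d) = y2 * (C.f a ^ K * c) := by
        apply C.inj
        rw [map_mul (algebraMap R T) y1, map_mul (algebraMap R T) y2, ← hc', ← hd',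
          mul_left_comm, he, mul_left_comm]
      have h2 := hy2 (C.f a ^ K * c) (by
        rw [smul_eq_mul, ← h1]
        exact Submodule.smul_mem_pointwise_smul _ y1 ⊤ trivial)
      rw [Submodule.mem_smul_pointwise_iff_exists] at h2
      obtain ⟨e, -, he2⟩ := h2
      obtain ⟨u, hu⟩ := (C.unit a).pow (N + K)
      refine ⟨↑u⁻¹ * algebraMap R T e, ⟨N + K, e, by rw [← hu, Units.mul_inv_cancel_left]⟩, ?_⟩
      rw [mul_left_comm, ← map_mul, ← smul_eq_mul (a := y1), he2, ← hc', ← hu,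
        Units.inv_mul_cancel_left]
    choose c hc1 hc2 using hdiv
    let z : Fin 3 → S := fun a => ∑ i, c a i • ε a i
    have hz : ∀ a, y1 • z a = x := by
      intro a
      conv_rhs => rw [← (ε a).sum_repr (x : S)]
      simp only [z, Finset.smul_sum]
      refine Finset.sum_congr rfl fun i _ => ?_
      rw [← algebraMap_smul T y1, smul_smul, hc2]
    have hz0 : ∀ a, z a = z 0 := by
      intro a
      have : y1 • (z a - z 0) = 0 := by rw [smul_sub, hz, hz, sub_self]
      exact sub_eq_zero.1 (hS1 _ this)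
    refine ⟨⟨z 0, fun a i => ?_⟩, trivial, Subtype.ext (hz 0)⟩
    rw [← hz0 a]
    simp only [z]
    rw [map_sum, Finsupp.finsetSum_apply]
    refine (C.R1 a).sum_mem fun j _ => ?_
    rw [map_smul, Finsupp.smul_apply, Basis.repr_self, smul_eq_mul]
    refine (C.R1 a).mul_mem (hc1 a j) ?_
    rw [Finsupp.single_apply]
    split_ifs
    · exact (C.R1 a).one_mem
    · exact (C.R1 a).zero_mem

omit [Module R S] [IsScalarTower R T S] in
/-- image of `E1`-elements under endomorphisms with entries in `R_a` -/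
theorem map_E1 (ε : Fin 3 → Basis (Fin r) T S) (a : Fin 3) (G : S →ₗ[T] S)
    (hG : ∀ j i, (ε a).repr (G (ε a j)) i ∈ C.R1 a) {x : S} (hx : C.E1 ε a x) :
    C.E1 ε a (G x) := by
  intro i
  conv => rw [← (ε a).sum_repr x]
  rw [map_sum, map_sum, Finsupp.finsetSum_apply]
  refine (C.R1 a).sum_mem fun j _ => ?_
  rw [map_smul, map_smul, Finsupp.smul_apply, smul_eq_mul]
  exact (C.R1 a).mul_mem (hx j) (hG j i)

/-- `H^1(End E) = 0` -/
theorem h1_end [Nontrivial T] (ε : Fin 3 → Basis (Fin r) T S)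
    (htrans : ∀ a b i j, (ε b).repr (ε a i) j ∈ C.R2 a b)
    {κ : Type*} [Fintype κ] [DecidableEq κ] (hcard : Fintype.card κ = r ^ 2)
    (hH1 : ∀ x : Fin 3 → Fin 3 → κ → T, (∀ a b s, x a b s ∈ C.R2 a b) →
      (∀ a b c s, x a b s + x b c s = x a c s) →
      ∃ y : Fin 3 → κ → T, (∀ a s, y a s ∈ C.R1 a) ∧ ∀ a b s, x a b s = y b s - y a s)
    (hr : IsUnit (r : R)) (Γ Γ' : κ → (S →ₗ[T] S))
    (hE : ∀ a s j i, (ε a).repr (Γ s (ε a j)) i ∈ C.R1 a)
    (hE' : ∀ a s j i, (ε a).repr (Γ' s (ε a j)) i ∈ C.R1 a)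
    (htr : ∀ s t, LinearMap.trace T S (Γ s ∘ₗ Γ' t) = if s = t then (r : T) else 0)
    (φ : Fin 3 → Fin 3 → (S →ₗ[T] S))
    (hφ : ∀ a b, ∀ x ∈ C.Glob (R := R) ε, φ a b x ∈ EL (C.Glob (R := R) ε) (C.f a * C.f b))
    (hc : ∀ a b c, φ a b + φ b c = φ a c) :
    ∃ ψ : Fin 3 → (S →ₗ[T] S), (∀ a, ∀ x ∈ C.Glob (R := R) ε,
      ψ a x ∈ EL (C.Glob (R := R) ε) (C.f a)) ∧ ∀ a b, φ a b = ψ b - ψ a := by
  have : Module.Free T S := Module.Free.of_basis (ε 0)
  have : Module.Finite T S := Module.Finite.of_basis (ε 0)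
  obtain ⟨u, hu⟩ := hr
  have hur : algebraMap R T (↑u⁻¹) * (r : T) = 1 := by
    rw [← map_natCast (algebraMap R T) r, ← hu, ← map_mul, Units.inv_mul, map_one]
  let Φ : (κ → T) →ₗ[T] (S →ₗ[T] S) := Fintype.linearCombination T Γ
  let Ψ : (S →ₗ[T] S) →ₗ[T] (κ → T) := LinearMap.pi fun t =>
    (algebraMap R T ↑u⁻¹) • ((LinearMap.trace T S) ∘ₗ (LinearMap.lcomp T S (Γ' t)))
  have hΨ : ∀ (f : S →ₗ[T] S) t, Ψ f t = algebraMap R T ↑u⁻¹ * LinearMap.trace T S (f ∘ₗ Γ' t) :=
    fun f t => rfl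
  have hΨΦ : Ψ ∘ₗ Φ = LinearMap.id := by
    refine LinearMap.pi_ext' fun s => LinearMap.ext_ring ?_
    funext t
    simp only [LinearMap.comp_apply, LinearMap.id_apply, LinearMap.single_apply]
    rw [hΨ]
    have : Φ (Pi.single s 1) = Γ s := by
      simp [Φ, Fintype.linearCombination_apply, Pi.single_apply]
    rw [this, htr, Pi.single_apply]
    by_cases h : s = t
    · subst h; simp [hur]
    · rw [if_neg h, if_neg (Ne.symm h), mul_zero]
  have hΦΨ : Φ ∘ₗ Ψ = LinearMap.id := by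
    refine comp_eq_id_of_rank ?_ Φ Ψ hΨΦ
    rw [Module.finrank_linearMap, Module.finrank_eq_card_basis (ε 0), Fintype.card_fin, hcard]
    ring
  have hexp : ∀ f : S →ₗ[T] S, ∑ t, Ψ f t • Γ t = f := by
    intro f
    have := LinearMap.congr_fun hΦΨ f
    simpa [Φ, Fintype.linearCombination_apply] using this
  -- integrality of the coefficients
  have hint : ∀ a b t, Ψ (φ a b) t ∈ C.R2 a b := by
    intro a b t
    rw [hΨ, LinearMap.trace_eq_matrix_trace T (ε a), Matrix.trace]
    refine (C.R2 a b).mul_mem ((C.R2 a b).algebraMap_mem _) ?_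
    refine (C.R2 a b).sum_mem fun i _ => ?_
    rw [Matrix.diag_apply, LinearMap.toMatrix_apply, LinearMap.comp_apply]
    obtain ⟨N, hN⟩ := C.EL_of_E1 (R := R) ε htrans a (x := Γ' t (ε a i)) (hE' a t i)
    have h1 := C.coord_EL ε a (C.f b) (hφ a b _ hN) i
    rw [← algebraMap_smul T (C.f a ^ N), map_smul, map_smul, Finsupp.smul_apply, smul_eq_mul,
      map_pow] at h1
    exact Rl_of_pow_left h1
  obtain ⟨y, hy1, hy2⟩ := hH1 (fun a b t => Ψ (φ a b) t) hint (fun a b c t => by
    rw [← Pi.add_apply, ← map_add, hc])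
  refine ⟨fun a => ∑ t, y a t • Γ t, ?_, ?_⟩
  · intro a x hx
    refine C.EL_of_E1 ε htrans a ?_
    rw [LinearMap.sum_apply]
    intro i
    rw [map_sum, Finsupp.finsetSum_apply]
    refine (C.R1 a).sum_mem fun t _ => ?_
    rw [LinearMap.smul_apply, map_smul, Finsupp.smul_apply, smul_eq_mul]
    exact (C.R1 a).mul_mem (hy1 a t) (C.map_E1 ε a (Γ t) (hE a t) (hx a) i)
  · intro a b
    rw [← hexp (φ a b), ← Finset.sum_sub_distrib]
    refine Finset.sum_congr rfl fun t _ => ?_
    rw [hy2 a b t, sub_smul]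

/-- if the module of global sections is free then `H^1(E) = 0` -/
theorem h1_of_free [Nontrivial R] (ε : Fin 3 → Basis (Fin r) T S)
    (hT : ∀ t : T, t ∈ Rl R T (C.f 0 * C.f 1 * C.f 2))
    (htrans : ∀ a b i j, (ε b).repr (ε a i) j ∈ C.R2 a b)
    (hfg : (C.Glob (R := R) ε).FG) (hfree : Module.Free R (C.Glob (R := R) ε))
    (hH1 : ∀ (n : ℕ) (x : Fin 3 → Fin 3 → Fin n → T), (∀ a b s, x a b s ∈ C.R2 a b) →
      (∀ a b c s, x a b s + x b c s = x a c s) →
      ∃ y : Fin 3 → Fin n → T, (∀ a s, y a s ∈ C.R1 a) ∧ ∀ a b s, x a b s = y b s - y a s)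
    (x : Fin 3 → Fin 3 → S) (hx : ∀ a b, C.E2 ε a b (x a b))
    (hc : ∀ a b c, x a b + x b c = x a c) :
    ∃ y : Fin 3 → S, (∀ a, C.E1 ε a (y a)) ∧ ∀ a b, x a b = y b - y a := by
  have : Module.Finite R (C.Glob (R := R) ε) := Module.Finite.iff_fg.2 hfg
  let bM := Module.finBasis R (C.Glob (R := R) ε)
  set n := Module.finrank R (C.Glob (R := R) ε) with hn
  have hgu : IsUnit (algebraMap R T (C.f 0 * C.f 1 * C.f 2)) := by
    rw [map_mul, map_mul]
    exact ((C.unit 0).mul (C.unit 1)).mul (C.unit 2)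
  -- coordinates
  have hspan : ∀ h : R, IsUnit (algebraMap R T h) → ∀ z ∈ EL (C.Glob (R := R) ε) h,
      ∃ t : Fin n → T, (∀ k, t k ∈ Rl R T h) ∧ ∑ k, t k • (bM k : S) = z := by
    rintro h hh z ⟨N, hN⟩
    obtain ⟨u, hu⟩ := hh.pow N
    refine ⟨fun k => ↑u⁻¹ * algebraMap R T (bM.repr ⟨_, hN⟩ k),
      fun k => ⟨N, bM.repr ⟨_, hN⟩ k, by rw [← hu, Units.mul_inv_cancel_left]⟩, ?_⟩
    have h1 : ∑ k, bM.repr ⟨_, hN⟩ k • (bM k : S) = h ^ N • z := by
      have := congrArg (Submodule.subtype (C.Glob (R := R) ε)) (bM.sum_repr ⟨_, hN⟩)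
      rw [map_sum] at this
      exact this
    have h2 : ∑ k, (↑u⁻¹ * algebraMap R T (bM.repr ⟨_, hN⟩ k)) • (bM k : S) =
        (↑u⁻¹ : T) • ∑ k, bM.repr ⟨_, hN⟩ k • (bM k : S) := by
      rw [Finset.smul_sum]
      exact Finset.sum_congr rfl fun k _ => by rw [mul_smul, algebraMap_smul]
    rw [h2, h1, ← algebraMap_smul T (h ^ N), map_pow, ← hu, smul_smul, Units.inv_mul, one_smul]
  have hli : ∀ t : Fin n → T, ∑ k, t k • (bM k : S) = 0 → t = 0 := by
    intro t ht
    obtain ⟨N, hN⟩ := Rl_fin (fun k => hT (t k))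
    choose c hc using hN
    have h1 : ∑ k, c k • bM k = 0 := by
      refine Subtype.ext ?_
      rw [Submodule.coe_sum]
      have : ∀ k, ((c k • bM k : C.Glob (R := R) ε) : S) =
          algebraMap R T (C.f 0 * C.f 1 * C.f 2) ^ N • (t k • (bM k : S)) := by
        intro k
        rw [Submodule.coe_smul, ← algebraMap_smul T (c k), ← hc k, mul_smul]
      rw [Finset.sum_congr rfl fun k _ => this k, ← Finset.smul_sum, ht, smul_zero]
      rfl
    funext k
    have h2 := Fintype.linearIndependent_iff.1 bM.linearIndependent c h1 k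
    have h3 := hc k
    rw [h2, map_zero] at h3
    exact ((hgu.pow N).mul_right_eq_zero).1 h3
  have hxEL : ∀ a b, x a b ∈ EL (C.Glob (R := R) ε) (C.f a * C.f b) := fun a b =>
    C.EL_of_coord ε htrans a (C.f b) (hx a b)
  choose t ht1 ht2 using fun a b => hspan (C.f a * C.f b)
    (by rw [map_mul]; exact (C.unit a).mul (C.unit b)) (x a b) (hxEL a b)
  obtain ⟨y, hy1, hy2⟩ := hH1 n t (fun a b k => ht1 a b k) (by
    intro a b c k
    have h1 : (t a b + t b c - t a c) = 0 := by
      apply hli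
      have : ∀ k, (t a b + t b c - t a c) k • (bM k : S) =
          t a b k • (bM k : S) + t b c k • (bM k : S) - t a c k • (bM k : S) := by
        intro k
        rw [Pi.sub_apply, Pi.add_apply, sub_smul, add_smul]
      rw [Finset.sum_congr rfl fun k _ => this k, Finset.sum_sub_distrib,
        Finset.sum_add_distrib, ht2, ht2, ht2, hc, sub_self]
    have := congrFun h1 k
    rw [Pi.sub_apply, Pi.add_apply, Pi.zero_apply, sub_eq_zero] at this
    exact this)
  refine ⟨fun a => ∑ k, y a k • (bM k : S), ?_, ?_⟩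
  · intro a
    refine C.coord_EL1 (R := R) ε a ?_
    exact comb_mem_EL (fun k => (bM k).2) (fun k => hy1 a k)
  · intro a b
    rw [← ht2 a b, ← Finset.sum_sub_distrib]
    refine Finset.sum_congr rfl fun k _ => ?_
    rw [hy2 a b k, sub_smul]

end Cov

end Pool.Agent.Licci.U

end

section

/-!
# Block (U3): a bundle on three charts of a regular local ring of dimension 3 whose
endomorphism bundle has a global trace-orthogonal basis has vanishing `H^1`

The hypothesis `hfree` holds for regular local rings of dimension 3.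
-/

namespace Pool.Agent.Licci.U

open Module RingTheory.Sequence IsLocalRing

universe u v w x

/-- U3 -/
theorem ag {R : Type u} [CommRing R] [IsLocalRing R] [IsNoetherianRing R]
    {T : Type v} [CommRing T] [Algebra R T] (C : Cov R T)
    (hm : ∀ i, C.f i ∈ maximalIdeal R) (hreg : IsWeaklyRegular R [C.f 0, C.f 1, C.f 2])
    (hT : ∀ x : T, ∃ N : ℕ, ∃ r : R,
      algebraMap R T (C.f 0 * C.f 1 * C.f 2) ^ N * x = algebraMap R T r)
    (y1 y2 : R) (hy : IsWeaklyRegular R [y1, y2]) (_hy1 : y1 ∈ maximalIdeal R)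
    (_hy2 : y2 ∈ maximalIdeal R)
    (hfree : ∀ (M : Type w) [AddCommGroup M] [Module R M] [Module.Finite R M],
      IsWeaklyRegular M [y1, y2] → ∀ (b : ℕ) (π : (Fin b → R) →ₗ[R] M), Function.Surjective π →
        Module.Free R (LinearMap.ker π))
    {S : Type w} [AddCommGroup S] [Module T S] {r : ℕ} (ε : Fin 3 → Basis (Fin r) T S)
    (hε : ∀ i j a b, (ε i).repr (ε j a) b ∈ C.R2 i j)
    {ι : Type x} [Fintype ι] [DecidableEq ι] (hcard : Fintype.card ι = r ^ 2)
    (_hr : IsUnit (algebraMap R T (r : R))) (hr' : IsUnit (r : R))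
    (Γ Γ' : ι → (S →ₗ[T] S)) (_hΓ : ∀ s, Γ s ∘ₗ Γ' s = LinearMap.id)
    (_hΓ' : ∀ s, Γ' s ∘ₗ Γ s = LinearMap.id)
    (hE : ∀ i s a b, (ε i).repr (Γ s (ε i a)) b ∈ C.R1 i)
    (hE' : ∀ i s a b, (ε i).repr (Γ' s (ε i a)) b ∈ C.R1 i)
    (htr : ∀ s t, LinearMap.trace T S (Γ s ∘ₗ Γ' t) = if s = t then (r : T) else 0) :
    ∀ x : Fin 3 → Fin 3 → S, (∀ i j, C.E2 ε i j (x i j)) → (∀ i j k, x i j + x j k = x i k) →
      ∃ y : Fin 3 → S, (∀ i, C.E1 ε i (y i)) ∧ ∀ i j, x i j = y j - y i := by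
  let _ : Module R S := Module.compHom S (algebraMap R T)
  have : IsScalarTower R T S := ⟨fun a b c => by
    rw [Algebra.smul_def, mul_smul]; rfl⟩
  have : Nontrivial T := C.inj.nontrivial
  have htrans : ∀ a b i j, (ε b).repr (ε a i) j ∈ C.R2 a b := by
    intro a b i j
    have := hε b a i j
    rw [Cov.R2, mul_comm] at this
    exact this
  have hT' : ∀ t : T, t ∈ Rl R T (C.f 0 * C.f 1 * C.f 2) := fun t => hT t
  have hcap : ∀ x : T, x ∈ C.R1 0 → x ∈ C.R1 1 → ∃ y : R, algebraMap R T y = x :=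
    fun x h0 h1 => C.inter hm hreg (by decide : (0 : Fin 3) ≠ 1) h0 h1
  have hfg := C.glob_fg ε htrans hcap
  have : Module.Finite R (C.Glob (R := R) ε) := Module.Finite.iff_fg.2 hfg
  have hcore : Module.Free R (C.Glob (R := R) ε) := by
    refine ag_core C ε (C.Glob (R := R) ε) hfg hT' (C.basis_mem_EL ε htrans)
      (fun a x hx i => hx a i) (C.glob_cap ε hcap) ?_ ?_
    · intro φ hφ hc
      refine C.h1_end ε htrans hcard ?_ hr' Γ Γ' (fun a s j i => hE a s j i)
        (fun a s j i => hE' a s j i) htr φ hφ hc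
      intro x hx hxc
      exact C.cech hm hreg x hx hxc
    · intro b p hp
      exact hfree _ (C.glob_regular' ε hT' y1 y2 hy) b p hp
  intro x hx hc
  refine C.h1_of_free ε hT' htrans hfg hcore ?_ x hx hc
  intro n x hx hxc
  exact C.cech hm hreg x hx hxc

end Pool.Agent.Licci.U

end

section

/-!
# Block (U), module U5: diagonalising a unimodular symmetric matrix over a local ring with `1/2`
-/

namespace Pool.Agent.Licci.U

open Matrix

namespace Orth

variable {R : Type*} [CommRing R]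

/-- the block diagonal matrix `(a) ⊕ M`. -/
def ext {N : ℕ} (a : R) (M : Matrix (Fin N) (Fin N) R) : Matrix (Fin (N + 1)) (Fin (N + 1)) R :=
  Matrix.of (Fin.cons (Fin.cons a 0) (fun i => Fin.cons 0 (M i)))

@[simp] theorem ext_zero_zero {N : ℕ} (a : R) (M : Matrix (Fin N) (Fin N) R) :
    ext a M 0 0 = a := rfl

@[simp] theorem ext_zero_succ {N : ℕ} (a : R) (M : Matrix (Fin N) (Fin N) R) (j : Fin N) :
    ext a M 0 j.succ = 0 := rfl

@[simp] theorem ext_succ_zero {N : ℕ} (a : R) (M : Matrix (Fin N) (Fin N) R) (i : Fin N) :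
    ext a M i.succ 0 = 0 := rfl

@[simp] theorem ext_succ_succ {N : ℕ} (a : R) (M : Matrix (Fin N) (Fin N) R) (i j : Fin N) :
    ext a M i.succ j.succ = M i j := rfl

theorem eq_ext {N : ℕ} (B : Matrix (Fin (N + 1)) (Fin (N + 1)) R)
    (h1 : ∀ j : Fin N, B 0 j.succ = 0) (h2 : ∀ i : Fin N, B i.succ 0 = 0) :
    B = ext (B 0 0) (B.submatrix Fin.succ Fin.succ) := by
  ext i j
  refine Fin.cases ?_ (fun i => ?_) i <;> refine Fin.cases ?_ (fun j => ?_) j
  · rfl
  · simp [h1]
  · simp [h2]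
  · rfl

theorem ext_mul {N : ℕ} (a b : R) (M M' : Matrix (Fin N) (Fin N) R) :
    ext a M * ext b M' = ext (a * b) (M * M') := by
  ext i j
  rw [Matrix.mul_apply, Fin.sum_univ_succ]
  refine Fin.cases ?_ (fun i => ?_) i <;> refine Fin.cases ?_ (fun j => ?_) j <;>
    simp [Matrix.mul_apply]

theorem ext_transpose {N : ℕ} (a : R) (M : Matrix (Fin N) (Fin N) R) :
    (ext a M).transpose = ext a M.transpose := by
  ext i j
  rw [Matrix.transpose_apply]
  refine Fin.cases ?_ (fun i => ?_) i <;> refine Fin.cases ?_ (fun j => ?_) j <;> simp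

theorem ext_diagonal {N : ℕ} (a : R) (d : Fin N → R) :
    ext a (Matrix.diagonal d) = Matrix.diagonal (Fin.cons a d : Fin (N + 1) → R) := by
  ext i j
  refine Fin.cases ?_ (fun i => ?_) i <;> refine Fin.cases ?_ (fun j => ?_) j
  · simp
  · rw [Matrix.diagonal_apply_ne _ (Fin.succ_ne_zero j).symm]; rfl
  · rw [Matrix.diagonal_apply_ne _ (Fin.succ_ne_zero i)]; rfl
  · rw [ext_succ_succ, Matrix.diagonal_apply, Matrix.diagonal_apply]
    simp

theorem ext_det {N : ℕ} (a : R) (M : Matrix (Fin N) (Fin N) R) :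
    (ext a M).det = a * M.det := by
  rw [Matrix.det_succ_row_zero, Fin.sum_univ_succ]
  have : (ext a M).submatrix Fin.succ Fin.succ = M := by
    ext i j; simp
  simp [this]

/-- the conclusion of `orth`. -/
def Diag {N : ℕ} (B : Matrix (Fin N) (Fin N) R) : Prop :=
  ∃ (P : Matrix (Fin N) (Fin N) R) (d : Fin N → R), IsUnit P.det ∧ (∀ i, IsUnit (d i)) ∧
    P.transpose * B * P = Matrix.diagonal d

theorem Diag.congr {N : ℕ} {B : Matrix (Fin N) (Fin N) R} (Q : Matrix (Fin N) (Fin N) R)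
    (hQ : IsUnit Q.det) (h : Diag (Q.transpose * B * Q)) : Diag B := by
  obtain ⟨P, d, hP, hd, e⟩ := h
  refine ⟨Q * P, d, ?_, hd, ?_⟩
  · rw [Matrix.det_mul]; exact hQ.mul hP
  · rw [← e, Matrix.transpose_mul]; simp only [Matrix.mul_assoc]

theorem symm_congr {N : ℕ} {B : Matrix (Fin N) (Fin N) R} (hB : B.transpose = B)
    (Q : Matrix (Fin N) (Fin N) R) : (Q.transpose * B * Q).transpose = Q.transpose * B * Q := by
  rw [Matrix.transpose_mul, Matrix.transpose_mul, Matrix.transpose_transpose, hB, Matrix.mul_assoc]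

theorem unit_congr {N : ℕ} {B : Matrix (Fin N) (Fin N) R} (hB : IsUnit B.det)
    (Q : Matrix (Fin N) (Fin N) R) (hQ : IsUnit Q.det) : IsUnit (Q.transpose * B * Q).det := by
  rw [Matrix.det_mul, Matrix.det_mul, Matrix.det_transpose]
  exact (hQ.mul hB).mul hQ

/-- the induction step when the corner is a unit. -/
theorem step_corner {N : ℕ} (ih : ∀ B : Matrix (Fin N) (Fin N) R, B.transpose = B → IsUnit B.det → Diag B)
    (B : Matrix (Fin (N + 1)) (Fin (N + 1)) R) (hB : B.transpose = B) (hu : IsUnit B.det)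
    (h0 : IsUnit (B 0 0)) : Diag B := by
  obtain ⟨w, hw⟩ := h0.exists_left_inv
  have hsym : ∀ i j, B i j = B j i := fun i j => by
    conv_lhs => rw [← hB]
    rfl
  -- the clearing matrix
  let Q : Matrix (Fin (N + 1)) (Fin (N + 1)) R :=
    Matrix.of (Fin.cons (Fin.cons 1 (fun j => - (w * B 0 j.succ))) (fun i => Fin.cons 0 (fun j => if i = j then 1 else 0)))
  have Q00 : Q 0 0 = 1 := rfl
  have Q0s : ∀ j : Fin N, Q 0 j.succ = - (w * B 0 j.succ) := fun _ => rfl
  have Qs0 : ∀ i : Fin N, Q i.succ 0 = 0 := fun _ => rfl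
  have Qss : ∀ i j : Fin N, Q i.succ j.succ = if i = j then 1 else 0 := fun _ _ => rfl
  have hQdet : Q.det = 1 := by
    rw [Matrix.det_succ_column_zero, Fin.sum_univ_succ]
    have : Q.submatrix Fin.succ Fin.succ = 1 := by
      ext i j
      rw [Matrix.submatrix_apply, Qss, Matrix.one_apply]
    simp [Qs0, Q00, this]
  have hQu : IsUnit Q.det := by rw [hQdet]; exact isUnit_one
  refine Diag.congr Q hQu ?_
  set B' := Q.transpose * B * Q with hB'
  have hB's : B'.transpose = B' := symm_congr hB Q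
  have hB'u : IsUnit B'.det := unit_congr hu Q hQu
  have hBQ0 : ∀ i, (B * Q) i 0 = B i 0 := by
    intro i
    rw [Matrix.mul_apply, Fin.sum_univ_succ]
    simp [Q00, Qs0]
  have hcol : ∀ i : Fin N, B' i.succ 0 = 0 := by
    intro i
    rw [hB', Matrix.mul_assoc, Matrix.mul_apply, Fin.sum_univ_succ]
    simp only [Matrix.transpose_apply, hBQ0, Q0s, Qss]
    simp only [ite_mul, one_mul, zero_mul, Finset.sum_ite_eq', Finset.mem_univ, if_true]
    rw [hsym i.succ 0]
    linear_combination (-(B 0 i.succ)) * hw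
  have hrow : ∀ i : Fin N, B' 0 i.succ = 0 := by
    intro i
    have : B' 0 i.succ = B'.transpose i.succ 0 := rfl
    rw [this, hB's]
    exact hcol i
  have he := eq_ext B' hrow hcol
  have h00 : B' 0 0 = B 0 0 := by
    rw [hB', Matrix.mul_assoc, Matrix.mul_apply, Fin.sum_univ_succ]
    simp [Matrix.transpose_apply, hBQ0, Q00, Qs0]
  set C := B'.submatrix Fin.succ Fin.succ with hC
  have hCs : C.transpose = C := by
    ext i j
    have : C.transpose i j = B'.transpose i.succ j.succ := rfl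
    rw [this, hB's]; rfl
  have hCu : IsUnit C.det := by
    rw [he, ext_det] at hB'u
    exact isUnit_of_mul_isUnit_right hB'u
  obtain ⟨P, d, hP, hd, e⟩ := ih C hCs hCu
  refine ⟨ext 1 P, Fin.cons (B' 0 0) d, ?_, ?_, ?_⟩
  · rw [ext_det, one_mul]; exact hP
  · intro i
    refine Fin.cases ?_ (fun i => ?_) i
    · rw [Fin.cons_zero, h00]; exact h0
    · rw [Fin.cons_succ]; exact hd i
  · rw [he, ext_transpose, ext_mul, ext_mul, e, ext_diagonal]
    simp

/-- the induction step when some diagonal entry is a unit. -/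
theorem step_diag {N : ℕ} (ih : ∀ B : Matrix (Fin N) (Fin N) R, B.transpose = B → IsUnit B.det → Diag B)
    (B : Matrix (Fin (N + 1)) (Fin (N + 1)) R) (hB : B.transpose = B) (hu : IsUnit B.det)
    (i : Fin (N + 1)) (hi : IsUnit (B i i)) : Diag B := by
  let σ : Equiv.Perm (Fin (N + 1)) := Equiv.swap 0 i
  let Q : Matrix (Fin (N + 1)) (Fin (N + 1)) R := (1 : Matrix _ _ R).submatrix id σ
  have hQu : IsUnit Q.det := by
    have : Q.det = Equiv.Perm.sign σ * (1 : Matrix (Fin (N + 1)) (Fin (N + 1)) R).det := by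
      exact Matrix.det_permute' σ 1
    rw [this, Matrix.det_one, mul_one]
    rcases Int.units_eq_one_or (Equiv.Perm.sign σ) with h | h <;> simp [h]
  have hQ : Q.transpose * B * Q = B.submatrix σ σ := by
    ext a b
    simp only [Q, Matrix.mul_apply, Matrix.transpose_apply, Matrix.submatrix_apply, id_eq,
      Matrix.one_apply, ite_mul, one_mul, zero_mul, mul_ite, mul_one, mul_zero,
      Finset.sum_ite_eq', Finset.mem_univ, if_true]
  refine Diag.congr Q hQu ?_
  refine step_corner ih _ (symm_congr hB Q) (unit_congr hu Q hQu) ?_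
  rw [hQ]
  simpa [σ] using hi

end Orth

open Orth

/-- U5 : a unimodular symmetric matrix over a local ring with `1/2` can be diagonalised, unit diagonal. -/
theorem orth {R : Type*} [CommRing R] [IsLocalRing R] (h2 : IsUnit (2 : R)) {N : ℕ}
    (B : Matrix (Fin N) (Fin N) R) (hB : B.transpose = B) (hu : IsUnit B.det) :
    ∃ (P : Matrix (Fin N) (Fin N) R) (d : Fin N → R), IsUnit P.det ∧ (∀ i, IsUnit (d i)) ∧
      P.transpose * B * P = Matrix.diagonal d := by
  induction N with
  | zero =>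
    refine ⟨1, 0, by simp, fun i => i.elim0, ?_⟩
    ext i; exact i.elim0
  | succ N ih =>
    have ih' : ∀ B : Matrix (Fin N) (Fin N) R, B.transpose = B → IsUnit B.det → Diag B :=
      fun B hB hu => ih B hB hu
    change Diag B
    by_cases hd : ∃ i, IsUnit (B i i)
    · obtain ⟨i, hi⟩ := hd
      exact step_diag ih' B hB hu i hi
    · push Not at hd
      -- some entry is a unit
      have hex : ∃ i j, IsUnit (B i j) := by
        by_contra hne
        push Not at hne
        have hmem : ∀ i j, B i j ∈ IsLocalRing.maximalIdeal R := fun i j => hne i j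
        have : B.det ∈ IsLocalRing.maximalIdeal R := by
          rw [Matrix.det_succ_row_zero]
          refine Ideal.sum_mem _ fun j _ => ?_
          exact Ideal.mul_mem_right _ _ (Ideal.mul_mem_left _ _ (hmem 0 j))
        exact this hu
      obtain ⟨i, j, hij⟩ := hex
      have hne : i ≠ j := by
        rintro rfl
        exact hd i hij
      have hsym : B j i = B i j := by
        conv_lhs => rw [← hB]
        rfl
      let Q : Matrix (Fin (N + 1)) (Fin (N + 1)) R := Matrix.transvection j i 1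
      have hQu : IsUnit Q.det := by
        rw [show Q.det = 1 from Matrix.det_transvection_of_ne j i hne.symm 1]
        exact isUnit_one
      refine Diag.congr Q hQu ?_
      refine step_diag ih' _ (symm_congr hB Q) (unit_congr hu Q hQu) i ?_
      have hval : (Q.transpose * B * Q) i i = B i i + B j j + 2 * B i j := by
        have hcol : ∀ a, Q a i = if a = i then 1 else if a = j then 1 else 0 := by
          intro a
          simp only [Q, Matrix.transvection, Matrix.add_apply, Matrix.one_apply,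
            Matrix.single_apply]
          by_cases h1 : a = i
          · subst h1
            simp [hne.symm]
          · by_cases h2 : a = j
            · subst h2; simp [h1]
            · simp [h1, h2, Ne.symm h2]
        have hsum : ∀ g : Fin (N + 1) → R, ∑ a, g a * Q a i = g i + g j := by
          intro g
          have : ∀ a, g a * Q a i = (if a = i then g a else 0) + (if a = j then g a else 0) := by
            intro a
            rw [hcol]
            by_cases h1 : a = i
            · subst h1; simp [hne]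
            · by_cases h2 : a = j
              · subst h2; simp [h1]
              · simp [h1, h2]
          simp only [this, Finset.sum_add_distrib, Finset.sum_ite_eq', Finset.mem_univ, if_true]
        rw [Matrix.mul_apply, hsum, Matrix.mul_apply, Matrix.mul_apply]
        simp only [Matrix.transpose_apply]
        have hsum' : ∀ g : Fin (N + 1) → R, ∑ a, Q a i * g a = g i + g j := by
          intro g
          rw [← hsum]
          exact Finset.sum_congr rfl fun a _ => mul_comm _ _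
        rw [hsum', hsum', hsym]
        ring
      rw [hval]
      by_contra hcon
      have hm1 : B i i ∈ IsLocalRing.maximalIdeal R := hd i
      have hm2 : B j j ∈ IsLocalRing.maximalIdeal R := hd j
      have hm3 : B i i + B j j + 2 * B i j ∈ IsLocalRing.maximalIdeal R := hcon
      have hm4 : 2 * B i j ∈ IsLocalRing.maximalIdeal R := by
        have : 2 * B i j = (B i i + B j j + 2 * B i j) - (B i i + B j j) := by ring
        rw [this]
        exact Ideal.sub_mem _ hm3 (Ideal.add_mem _ hm1 hm2)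
      exact hm4 (h2.mul hij)

end Pool.Agent.Licci.U

end

section

/-!
# Block (U), module U7d, part C: the global Euler element
-/

set_option linter.unusedSectionVars false

namespace Pool.Agent.Licci.U

open Module RingTheory.Sequence IsLocalRing

universe u

variable {B : Type} [Fintype B] [DecidableEq B]

namespace UData

variable {X : XTab B} {R : Type u} [CommRing R] {T : Type u} [CommRing T]
  [Algebra R T] {C : Cov R T} (D : UData X C)

/-- `H^1 (gr_1) = 0`. -/
def H1E (D : UData X C) (hX : XTab.Good.{u} X) [Algebra ℚ T] : Prop :=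
  ∀ x : Fin 3 → Fin 3 → ({b // X.deg b = 1} → T), (∀ i j, C.E2 (D.eps hX) i j (x i j)) →
    (∀ i j k, x i j + x j k = x i k) →
      ∃ y : Fin 3 → ({b // X.deg b = 1} → T), (∀ i, C.E1 (D.eps hX) i (y i)) ∧
        ∀ i j, x i j = y j - y i

theorem h1E [IsLocalRing R] [IsNoetherianRing R] [Algebra ℚ R] [Algebra ℚ T]
    (hm : ∀ i, C.f i ∈ maximalIdeal R) (hreg : IsWeaklyRegular R [C.f 0, C.f 1, C.f 2])
    (hT : ∀ x : T, ∃ N : ℕ, ∃ r : R,
      algebraMap R T (C.f 0 * C.f 1 * C.f 2) ^ N * x = algebraMap R T r)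
    (y1 y2 : R) (hy : IsWeaklyRegular R [y1, y2]) (hy1 : y1 ∈ maximalIdeal R)
    (hy2 : y2 ∈ maximalIdeal R)
    (hfree : ∀ (M : Type u) [AddCommGroup M] [Module R M] [Module.Finite R M],
      IsWeaklyRegular M [y1, y2] → ∀ (b : ℕ) (π : (Fin b → R) →ₗ[R] M), Function.Surjective π →
        Module.Free R (LinearMap.ker π))
    (hX : XTab.Good.{u} X) : D.H1E hX := by
  have unitR : ∀ n : ℕ, n ≠ 0 → IsUnit (n : R) := by
    intro n hn
    have h1 : IsUnit ((n : ℚ)) := IsUnit.mk0 _ (by exact_mod_cast hn)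
    have h2 := h1.map (algebraMap ℚ R)
    rwa [map_natCast] at h2
  have h2 : IsUnit (2 : R) := by exact_mod_cast unitR 2 (by norm_num)
  have h2T : IsUnit (2 : T) := by
    have := h2.map (algebraMap R T)
    rwa [map_ofNat] at this
  obtain ⟨P, d, hP, hd, hPd⟩ := orth h2 D.M D.hMs D.hMu
  let O : D.Ortho := ⟨P, d, hd, hPd⟩
  have h0 : ∀ i, O.eta 0 i * O.eta' 0 i = 1 := fun i => O.eta_eta' hX h2T 0 i
  have h0' : ∀ i, O.eta' 0 i * O.eta 0 i = 1 := fun i => O.eta'_eta hX h2T 0 i
  obtain ⟨g1, g2, g3⟩ := anti' (D.eps hX 0) h2T (O.eta 0) (O.eta' 0) h0 h0'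
    (fun k => algebraMap R T (O.sc k)) (fun k => (O.sc_unit k).map _)
    (fun k => O.eta_sq hX h2T 0 k) (fun k l hkl => O.eta_anti hX h2T 0 k l hkl)
  refine ag C hm hreg hT y1 y2 hy hy1 hy2 hfree (D.eps hX) (D.heps hX)
    (ι := Fin (2 * 6) → Bool) (by simp) ((unitR 64 (by norm_num)).map _)
    (unitR 64 (by norm_num)) (fun s => mon _ (O.eta 0) s) (fun s => mon' _ (O.eta' 0) s)
    (fun s => g1 s) (fun s => g2 s) (O.hE hX) (O.hE' hX) (fun s t => g3 s t)

/-- the standard Euler element -/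
def hs (X : XTab B) (T : Type u) [CommRing T] : B → T := fun b => (X.h b : T)

/-- local Euler elements -/
noncomputable def hl (i : Fin 3) : B → T := (D.gE i).symm (hs X T)

theorem gE_hl (i j : Fin 3) : D.gE i (D.hl j) = D.tt i j (hs X T) := rfl

theorem gE_hl_self (i : Fin 3) : D.gE i (D.hl i) = hs X T := by
  rw [hl, LinearEquiv.apply_symm_apply]

theorem ge_iff (hX : XTab.Good.{u} X) [Algebra ℚ T] (i j : Fin 3) (k : ℤ) (v : B → T) :
    Ge X.deg k (D.gE i v) ↔ Ge X.deg k (D.gE j v) := by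
  rw [← D.tt_gE i j v]
  exact hX.aut_ge T (D.tt i j) (D.aut2 hX i j) k _

theorem ge_diff (hX : XTab.Good.{u} X) [Algebra ℚ T] (k i j : Fin 3) :
    Ge X.deg 1 (D.gE k (D.hl j - D.hl i)) := by
  rw [D.ge_iff hX k i, map_sub, gE_hl_self, gE_hl]
  exact hX.aut_h T (D.tt i j) (D.aut2 hX i j)

theorem pts_hs (A : Subalgebra R T) : Pts A (hs X T) := fun b => A.intCast_mem _

theorem pts_hl (i : Fin 3) {A : Subalgebra R T} (hA : C.R1 i ≤ A) : Pts A (D.hl i) :=
  D.pts_gE_symm i _ A hA (pts_hs A)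

theorem res_gE (hX : XTab.Good.{u} X) [Algebra ℚ T] (i j : Fin 3) (v : B → T)
    (hv : Ge X.deg 1 (D.gE j v)) :
    X.tau T (D.tt i j) (X.res 1 T (D.gE j v)) = X.res 1 T (D.gE i v) := by
  rw [← hX.res_tau T (D.tt i j) (D.aut2 hX i j) _ hv, tt_gE]

theorem res_ext (x : {b // X.deg b = 1} → T) : X.res 1 T (X.ext 1 T x) = x := by
  funext b
  show (if hb : X.deg b.1 = 1 then x ⟨b.1, hb⟩ else 0) = x b
  rw [dif_pos b.2]

theorem ext_sup (x : {b // X.deg b = 1} → T) : Sup X.deg 1 (X.ext 1 T x) := by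
  intro b hb
  show (if hb : X.deg b = 1 then x ⟨b, hb⟩ else 0) = 0
  rw [dif_neg hb]

theorem pts_ext {A : Subalgebra R T} {x : {b // X.deg b = 1} → T} (hx : Pts A x) :
    Pts A (X.ext 1 T x) := by
  intro b
  show (if hb : X.deg b = 1 then x ⟨b, hb⟩ else 0) ∈ A
  split_ifs with hb
  · exact hx _
  · exact A.zero_mem

theorem sup_two_of (hX : XTab.Good.{u} X) {v : B → T} (hv : Ge X.deg 1 v)
    (h : X.res 1 T v = 0) : Sup X.deg 2 v := by
  intro b hb
  rcases lt_trichotomy (X.deg b) 1 with h1 | h1 | h1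
  · exact hv b h1
  · exact congrFun h ⟨b, h1⟩
  · have := hX.deg_le b
    omega

/-- the global Euler element -/
theorem exists_euler [IsLocalRing R] [IsNoetherianRing R] [Algebra ℚ T]
    (hm : ∀ i, C.f i ∈ maximalIdeal R) (hreg : IsWeaklyRegular R [C.f 0, C.f 1, C.f 2])
    (hX : XTab.Good.{u} X) (hH : D.H1E hX) :
    ∃ h : B → R, ∀ i, Ge X.deg 1 (hs X T - D.gE i (algebraMap R T ∘ h)) := by
  -- degree one
  obtain ⟨y, hy, hyx⟩ := hH (fun i j => X.res 1 T (D.gE 0 (D.hl j - D.hl i)))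
    (by
      intro i j
      rw [D.E2_iff hX, D.res_gE hX i 0 _ (D.ge_diff hX 0 i j)]
      have : Pts (C.R2 i j) (D.gE i (D.hl j - D.hl i)) :=
        D.pts_gE i _ _ (C.R1_le_R2 i j)
          ((D.pts_hl j (C.R1_le_R2' i j)).sub (D.pts_hl i (C.R1_le_R2 i j)))
      exact fun b => this b.1)
    (by
      intro i j k
      rw [← map_add, ← map_add]
      congr 2
      abel)
  have hyp : ∀ i, Pts (C.R1 i) (X.tau T (D.tt i 0) (y i)) := fun i => (D.E1_iff hX i _).1 (hy i)
  set w : Fin 3 → B → T := fun i => (D.gE i).symm (X.ext 1 T (X.tau T (D.tt i 0) (y i))) with hw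
  have hgw : ∀ i, D.gE i (w i) = X.ext 1 T (X.tau T (D.tt i 0) (y i)) := fun i => by
    rw [hw, LinearEquiv.apply_symm_apply]
  have hw1 : ∀ i j, Ge X.deg 1 (D.gE j (w i)) := by
    intro i j
    rw [D.ge_iff hX j i, hgw]
    exact (ext_sup _).ge le_rfl
  have hwp : ∀ i, Pts (C.R1 i) (w i) := fun i => D.pts_gE_symm i _ _ le_rfl (pts_ext (hyp i))
  have hres : ∀ i, X.res 1 T (D.gE 0 (w i)) = y i := by
    intro i
    rw [← D.res_gE hX 0 i _ (hw1 i i), hgw, res_ext, D.tau_tau hX, tt_self, hX.tau_one]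
    rfl
  -- degree two
  set z : Fin 3 → Fin 3 → B → T := fun i j => (D.hl j - w j) - (D.hl i - w i) with hz
  have hz2 : ∀ i j k, Sup X.deg 2 (D.gE k (z i j)) := by
    intro i j k
    rw [D.sup_iff hX k 0]
    have e' : z i j = (D.hl j - D.hl i) - (w j - w i) := by
      simp only [hz]
      abel
    have e : D.gE 0 (z i j) = D.gE 0 (D.hl j - D.hl i) - (D.gE 0 (w j) - D.gE 0 (w i)) := by
      rw [e', map_sub (D.gE 0) (D.hl j - D.hl i), map_sub (D.gE 0) (w j)]
    rw [e]
    refine sup_two_of hX ((D.ge_diff hX 0 i j).sub ((hw1 j 0).sub (hw1 i 0))) ?_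
    rw [map_sub (X.res 1 T), map_sub (X.res 1 T) (D.gE 0 (w j)), hres, hres, hyx i j, sub_self]
  have hzp : ∀ i j, Pts (C.R2 i j) (z i j) := by
    intro i j
    refine ((D.pts_hl j (C.R1_le_R2' i j)).sub ?_).sub ((D.pts_hl i (C.R1_le_R2 i j)).sub ?_)
    · exact fun b => C.R1_le_R2' i j (hwp j b)
    · exact fun b => C.R1_le_R2 i j (hwp i b)
  have hzc : ∀ i j k, z i j + z j k = z i k := by
    intro i j k
    simp only [hz]
    abel
  set ζ : Fin 3 → Fin 3 → Fin 14 → T := fun i j l => D.cf i (z i j) l with hζ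
  have hζz : ∀ i j, z i j = ∑ l, ζ i j l • D.gT l := fun i j => D.eq_sum_cf hX i _ (hz2 i j i)
  have hζp : ∀ i j l, ζ i j l ∈ C.R2 i j := fun i j l =>
    D.cf_mem i _ (C.R1_le_R2 i j) _ (D.pts_gE i _ _ (C.R1_le_R2 i j) (hzp i j)) l
  have hζc : ∀ i j k l, ζ i j l + ζ j k l = ζ i k l := by
    intro i j k l
    have h : (fun l => ζ i j l + ζ j k l - ζ i k l) = 0 := by
      refine D.indep hX _ ?_
      have : ∑ l, (ζ i j l + ζ j k l - ζ i k l) • D.gT l =
          (∑ l, ζ i j l • D.gT l + ∑ l, ζ j k l • D.gT l) - ∑ l, ζ i k l • D.gT l := by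
        rw [← Finset.sum_add_distrib, ← Finset.sum_sub_distrib]
        exact Finset.sum_congr rfl fun l _ => by rw [sub_smul, add_smul]
      rw [this, ← hζz, ← hζz, ← hζz, hzc, sub_self]
    exact sub_eq_zero.1 (congrFun h l)
  obtain ⟨a, ha, haz⟩ := C.cech hm hreg (fun i j l => ζ i j l) hζp hζc
  -- the global section
  set H : Fin 3 → B → T := fun i => (D.hl i - w i) - ∑ l, a i l • D.gT l with hH'
  have hHeq : ∀ i j, H i = H j := by
    intro i j
    have h1 : z i j = ∑ l, a j l • D.gT l - ∑ l, a i l • D.gT l := by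
      rw [hζz, ← Finset.sum_sub_distrib]
      exact Finset.sum_congr rfl fun l _ => by rw [haz i j l, sub_smul]
    have h2 : H j - H i = z i j - (∑ l, a j l • D.gT l - ∑ l, a i l • D.gT l) := by
      simp only [hH', hz]
      abel
    rw [h1, sub_self] at h2
    exact (sub_eq_zero.1 h2).symm
  have hHp : ∀ i, Pts (C.R1 i) (H i) := by
    intro i
    refine ((D.pts_hl i le_rfl).sub (hwp i)).sub (Pts.sum fun l _ => Pts.smul (ha i l) ?_)
    exact Pts.algebraMap _
  have hex : ∀ b, ∃ r : R, algebraMap R T r = H 0 b := by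
    intro b
    refine C.inter hm hreg (by decide : (0 : Fin 3) ≠ 1) (hHp 0 b) ?_
    rw [hHeq 0 1]
    exact hHp 1 b
  choose h hh using hex
  refine ⟨h, fun i => ?_⟩
  have e1 : (algebraMap R T ∘ h : B → T) = H i := by
    rw [hHeq i 0]
    funext b
    exact hh b
  have e2 : hs X T - D.gE i (H i) = D.gE i (w i) + D.gE i (∑ l, a i l • D.gT l) := by
    simp only [hH', map_sub, gE_hl_self]
    abel
  rw [e1, e2]
  refine (hw1 i i).add ?_
  rw [map_sum]
  refine Sup.ge (k := 2) (by norm_num) (Sup.sum fun l _ => ?_)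
  rw [map_smul]
  exact (D.sup_gE_gT i l).smul _

end UData

end Pool.Agent.Licci.U

end

section

/-!
# Block (U), module U7d: splitting in dimension three
-/

set_option linter.unusedSectionVars false

namespace Pool.Agent.Licci.U

open Module RingTheory.Sequence IsLocalRing

universe u

variable {B : Type} [Fintype B] [DecidableEq B]

/-- `(n + 2) (n + 1) n (n - 1)` -/
def pol {A : Type u} [CommRing A] {V : Type u} [AddCommGroup V] [Module A V]
    (n : V →ₗ[A] V) : V →ₗ[A] V :=
  n ∘ₗ n ∘ₗ n ∘ₗ n + (2 : A) • (n ∘ₗ n ∘ₗ n) - n ∘ₗ n - (2 : A) • n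

theorem pol_apply {A : Type u} [CommRing A] {V : Type u} [AddCommGroup V] [Module A V]
    (n : V →ₗ[A] V) (v : V) :
    pol n v = n (n (n (n v))) + (2 : A) • n (n (n v)) - n (n v) - (2 : A) • n v := rfl

theorem pol_eq {A : Type u} [CommRing A] {V : Type u} [AddCommGroup V] [Module A V]
    (n : V →ₗ[A] V) (v : V) :
    pol n v = ((n + 2) * (n + 1) * n * (n - 1) : V →ₗ[A] V) v := by
  have two : ∀ w : V, (2 : V →ₗ[A] V) w = (2 : A) • w := by
    intro w
    have : (2 : V →ₗ[A] V) = 1 + 1 := by norm_num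
    rw [this, LinearMap.add_apply, two_smul]
    rfl
  simp only [pol_apply, Module.End.mul_apply, LinearMap.add_apply, LinearMap.sub_apply, two,
    Module.End.one_apply, map_add, map_sub]
  abel

theorem pol_eigen {A : Type u} [CommRing A] {V : Type u} [AddCommGroup V] [Module A V]
    (n : V →ₗ[A] V) (v : V) (h : n v = (2 : A) • v) : pol n v = (24 : A) • v := by
  rw [pol_apply]
  simp only [h, map_smul, smul_smul, ← add_smul, ← sub_smul]
  congr 1
  norm_num

namespace UData

variable {X : XTab B} {R : Type u} [CommRing R] {T : Type u} [CommRing T]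
  [Algebra R T] {C : Cov R T} (D : UData X C)

theorem map_pol (h v : B → R) :
    (algebraMap R T ∘ pol (X.br R h) v : B → T) =
      pol (X.br T (algebraMap R T ∘ h)) (algebraMap R T ∘ v) := by
  have e : ∀ v : B → R, (algebraMap R T ∘ X.br R h v : B → T) =
      X.br T (algebraMap R T ∘ h) (algebraMap R T ∘ v) := fun v => bil_map X.c _ h v
  rw [pol_apply, pol_apply, ← e v, ← e, ← e, ← e]
  funext b
  simp only [Function.comp_apply, Pi.add_apply, Pi.sub_apply, Pi.smul_apply, smul_eq_mul,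
    map_add, map_sub, map_mul, map_ofNat]

theorem gE_pol (i : Fin 3) (h v : B → T) :
    D.gE i (pol (X.br T h) v) = pol (X.br T (D.gE i h)) (D.gE i v) := by
  rw [pol_apply, pol_apply, map_sub, map_sub, map_add, map_smul, map_smul, D.gE_hom, D.gE_hom,
    D.gE_hom, D.gE_hom]

theorem N_hs (i : Fin 3) (h : B → T) :
    X.N T (hs X T - D.gE i h) = X.br T (D.gE i h) := by
  have : (fun b => (X.h b : T)) - (hs X T - D.gE i h) = D.gE i h := by
    show hs X T - (hs X T - D.gE i h) = D.gE i h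
    abel
  rw [XTab.N, this]

/-- `π v` lies in `iota(G)`. -/
theorem pol_sup (hX : XTab.Good.{u} X) [Algebra ℚ T] (i : Fin 3) (h : B → T)
    (hh : Ge X.deg 1 (hs X T - D.gE i h)) (v : B → T) :
    Sup X.deg 2 (D.gE i (pol (X.br T h) v)) := by
  refine hX.euler_ker T _ _ hh ?_
  rw [gE_pol, N_hs, pol_eq]
  have h1 := hX.euler_annih T _ hh
  rw [N_hs] at h1
  have h2 := LinearMap.congr_fun h1 (D.gE i v)
  rw [Module.End.mul_apply, LinearMap.sub_apply, LinearMap.zero_apply, sub_eq_zero] at h2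
  rw [h2]
  have : (2 : (B → T) →ₗ[T] (B → T)) = 1 + 1 := by norm_num
  rw [this, LinearMap.add_apply, two_smul]
  rfl

theorem pol_gT (hX : XTab.Good.{u} X) [Algebra ℚ T] (h : B → T)
    (hh : Ge X.deg 1 (hs X T - D.gE 0 h)) (l : Fin 14) :
    pol (X.br T h) (D.gT l) = (24 : T) • D.gT l := by
  refine pol_eigen _ _ ?_
  apply (D.gE 0).injective
  rw [D.gE_hom, map_smul, ← N_hs]
  exact hX.euler_two T _ _ hh (D.sup_gE_gT 0 l)

theorem cf_eq (hX : XTab.Good.{u} X) (i j : Fin 3) (v : B → T) (hv : Sup X.deg 2 (D.gE i v))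
    (l : Fin 14) : D.cf i v l = D.cf j v l := by
  have h1 := D.eq_sum_cf hX i v hv
  have h2 := D.eq_sum_cf hX j v ((D.sup_iff hX i j v).1 hv)
  have h3 : (fun l => D.cf i v l - D.cf j v l) = 0 := by
    refine D.indep hX _ ?_
    have : ∑ l, (D.cf i v l - D.cf j v l) • D.gT l =
        ∑ l, D.cf i v l • D.gT l - ∑ l, D.cf j v l • D.gT l := by
      rw [← Finset.sum_sub_distrib]
      exact Finset.sum_congr rfl fun l _ => by rw [sub_smul]
    rw [this, ← h1, ← h2, sub_self]
  exact sub_eq_zero.1 (congrFun h3 l)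

/-- coefficients of `π v` in `R` -/
theorem exists_coeff [IsLocalRing R] [IsNoetherianRing R] [Algebra ℚ T]
    (hm : ∀ i, C.f i ∈ maximalIdeal R) (hreg : IsWeaklyRegular R [C.f 0, C.f 1, C.f 2])
    (hX : XTab.Good.{u} X) (h : B → R)
    (hh : ∀ i, Ge X.deg 1 (hs X T - D.gE i (algebraMap R T ∘ h))) (v : B → R) :
    ∃ ρ : Fin 14 → R, pol (X.br R h) v = ∑ l, ρ l • D.γ l := by
  set V : B → T := pol (X.br T (algebraMap R T ∘ h)) (algebraMap R T ∘ v) with hV
  have hsup : ∀ i, Sup X.deg 2 (D.gE i V) := fun i => D.pol_sup hX i _ (hh i) _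
  have hVp : ∀ A : Subalgebra R T, Pts A V := by
    intro A
    rw [hV, ← map_pol]
    exact Pts.algebraMap _
  have hex : ∀ l, ∃ r : R, algebraMap R T r = D.cf 0 V l := by
    intro l
    refine C.inter hm hreg (by decide : (0 : Fin 3) ≠ 1)
      (D.cf_mem 0 _ le_rfl V (D.pts_gE 0 V _ le_rfl (hVp _)) l) ?_
    rw [D.cf_eq hX 0 1 V (hsup 0)]
    exact D.cf_mem 1 _ le_rfl V (D.pts_gE 1 V _ le_rfl (hVp _)) l
  choose ρ hρ using hex
  refine ⟨ρ, ?_⟩
  funext b
  apply C.inj
  have h1 := congrFun (D.eq_sum_cf hX 0 V (hsup 0)) b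
  have h2 := congrFun (map_pol (T := T) (X := X) h v) b
  rw [Function.comp_apply] at h2
  rw [h2, ← hV, h1, Finset.sum_apply, Finset.sum_apply, map_sum]
  refine Finset.sum_congr rfl fun l _ => ?_
  rw [Pi.smul_apply, Pi.smul_apply, smul_eq_mul, smul_eq_mul, map_mul, hρ]
  rfl

theorem indepR (hX : XTab.Good.{u} X) (c c' : Fin 14 → R)
    (hc : ∑ l, c l • D.γ l = ∑ l, c' l • D.γ l) : c = c' := by
  have h1 : (fun l => algebraMap R T (c l - c' l)) = 0 := by
    refine D.indep hX _ ?_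
    funext b
    have h2 := congrArg (algebraMap R T) (congrFun hc b)
    rw [Finset.sum_apply, Finset.sum_apply, map_sum, map_sum] at h2
    rw [Finset.sum_apply]
    have h3 : ∀ l, (algebraMap R T (c l - c' l) • D.gT l) b =
        algebraMap R T ((c l • D.γ l) b) - algebraMap R T ((c' l • D.γ l) b) := by
      intro l
      rw [Pi.smul_apply, Pi.smul_apply, Pi.smul_apply, smul_eq_mul, smul_eq_mul, smul_eq_mul,
        map_mul, map_mul, map_sub, sub_mul]
      rfl
    rw [Finset.sum_congr rfl fun l _ => h3 l, Finset.sum_sub_distrib, h2, sub_self]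
    rfl
  funext l
  have h2 := congrFun h1 l
  rw [Pi.zero_apply, ← map_zero (algebraMap R T)] at h2
  exact sub_eq_zero.1 (C.inj h2)

end UData

/-- U7: splitting in dimension 3. -/
theorem split {R : Type u} [CommRing R] [IsLocalRing R] [IsNoetherianRing R] [Algebra ℚ R]
    {T : Type u} [CommRing T] [Algebra R T] (C : Cov R T)
    (hm : ∀ i, C.f i ∈ maximalIdeal R) (hreg : IsWeaklyRegular R [C.f 0, C.f 1, C.f 2])
    (hT : ∀ x : T, ∃ N : ℕ, ∃ r : R,
      algebraMap R T (C.f 0 * C.f 1 * C.f 2) ^ N * x = algebraMap R T r)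
    (y1 y2 : R) (hy : IsWeaklyRegular R [y1, y2]) (hy1 : y1 ∈ maximalIdeal R)
    (hy2 : y2 ∈ maximalIdeal R)
    (hfree : ∀ (M : Type u) [AddCommGroup M] [Module R M] [Module.Finite R M],
      IsWeaklyRegular M [y1, y2] → ∀ (b : ℕ) (π : (Fin b → R) →ₗ[R] M), Function.Surjective π →
        Module.Free R (LinearMap.ker π))
    (X : XTab B) (hX : XTab.Good.{u} X) (D : UData X C) (c : Fin 14 → R)
    (hc : ∀ b, ∑ l, c l * D.γ l b ∈ maximalIdeal R) (l : Fin 14) :
    c l ∈ maximalIdeal R := by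
  let _ : Algebra ℚ T := ((algebraMap R T).comp (algebraMap ℚ R)).toAlgebra
  obtain ⟨h, hh⟩ := D.exists_euler hm hreg hX (D.h1E hm hreg hT y1 y2 hy hy1 hy2 hfree hX)
  have hcoeff := D.exists_coeff hm hreg hX h hh
  choose ρ hρ using fun b : B => hcoeff (Pi.single b 1)
  have hpolγ : ∀ l, pol (X.br R h) (D.γ l) = (24 : R) • D.γ l := by
    intro l
    funext b
    apply C.inj
    have h1 := congrFun (UData.map_pol (T := T) (X := X) h (D.γ l)) b
    have h2 := congrFun (D.pol_gT hX _ (hh 0) l) b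
    rw [Function.comp_apply] at h1
    rw [h1]
    refine h2.trans ?_
    rw [Pi.smul_apply, Pi.smul_apply, smul_eq_mul, smul_eq_mul, map_mul, map_ofNat]
    rfl
  set v : B → R := ∑ l, c l • D.γ l with hv
  have hvm : ∀ b, v b ∈ maximalIdeal R := by
    intro b
    have := hc b
    rw [hv, Finset.sum_apply]
    exact this
  have e1 : pol (X.br R h) v = ∑ l, (24 * c l) • D.γ l := by
    rw [hv, map_sum]
    refine Finset.sum_congr rfl fun l _ => ?_
    rw [map_smul, hpolγ, smul_smul, mul_comm]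
  have e2 : pol (X.br R h) v = ∑ l, (∑ b, v b * ρ b l) • D.γ l := by
    have hs : v = ∑ b, v b • (Pi.single b 1 : B → R) := by
      funext a
      rw [Finset.sum_apply]
      simp [Pi.single_apply]
    conv_lhs => rw [hs, map_sum]
    have : ∀ b, pol (X.br R h) (v b • (Pi.single b 1 : B → R)) =
        ∑ l, (v b * ρ b l) • D.γ l := by
      intro b
      rw [map_smul, hρ, Finset.smul_sum]
      exact Finset.sum_congr rfl fun l _ => by rw [smul_smul]
    rw [Finset.sum_congr rfl fun b _ => this b, Finset.sum_comm]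
    exact Finset.sum_congr rfl fun l _ => by rw [Finset.sum_smul]
  have e3 := congrFun (D.indepR hX _ _ (e1.symm.trans e2)) l
  have e4 : 24 * c l ∈ maximalIdeal R := by
    have e5 : (24 * c l : R) = ∑ b, v b * ρ b l := e3
    rw [e5]
    exact Ideal.sum_mem _ fun b _ => Ideal.mul_mem_right _ _ (hvm b)
  have u24 : IsUnit (24 : R) := by
    have h1 : IsUnit ((24 : ℚ)) := IsUnit.mk0 _ (by norm_num)
    have h2 := h1.map (algebraMap ℚ R)
    rwa [map_ofNat] at h2
  exact ((maximalIdeal R).unit_mul_mem_iff_mem u24).1 e4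

end Pool.Agent.Licci.U

end

section

/-!
# Block (U), module U8: unimodularity over any regular local ring containing the rationals
-/

namespace Pool.Agent.Licci.U

open Module RingTheory.Sequence IsLocalRing

universe u

variable {B : Type} [Fintype B] [DecidableEq B]

/-- U8: the 14 global vectors are linearly independent modulo the maximal ideal. -/
theorem unimod {R : Type u} [CommRing R] [IsRegularLocalRing R] [Algebra ℚ R]
    {T : Type u} [CommRing T] [Algebra R T] (C : Cov R T)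
    (hm : ∀ i, C.f i ∈ maximalIdeal R) (hreg : IsWeaklyRegular R [C.f 0, C.f 1, C.f 2])
    (hT : ∀ x : T, ∃ N : ℕ, ∃ r : R,
      algebraMap R T (C.f 0 * C.f 1 * C.f 2) ^ N * x = algebraMap R T r)
    (X : XTab B) (hX : XTab.Good.{u} X) (D : UData X C) (c : Fin 14 → R)
    (hc : ∀ b, ∑ l, c l * D.γ l b ∈ maximalIdeal R) (l : Fin 14) :
    c l ∈ maximalIdeal R :=
  unimod_of_split X (fun C hm hreg hT y1 y2 hy hy1 hy2 hfree D c hc l =>
    split C hm hreg hT y1 y2 hy hy1 hy2 hfree X hX D c hc l) C hm hreg hT D c hc l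

end Pool.Agent.Licci.U

end
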